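import Pool.Agent.H65NT.Stm

/-!
# Borel-Cantelli for cubes in blocks
-/

set_option autoImplicit false

namespace Pool.Agent.H65NT

open Finset Filter MeasureTheory

theorem bc : S_BC := by
  classical
  intro k α _ F c r u hu hr hsum
  set S : ℕ → Set (Fin k → ℝ) := fun j => ⋃ a : F j, {ξ | ∀ i, |ξ i - c j a i| ≤ r j a} with hS
  have hvol : ∀ j (a : F j), volume {ξ : Fin k → ℝ | ∀ i, |ξ i - c j a i| ≤ r j a} ≤
      ENNReal.ofReal (2 ^ k * (r j a) ^ k) := by
    intro j a
    have h0 := hr j a a.2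
    have h1 : {ξ : Fin k → ℝ | ∀ i, |ξ i - c j a i| ≤ r j a} ⊆ Metric.closedBall (c j a) (r j a) := by
      intro ξ hξ
      rw [Metric.mem_closedBall, dist_pi_le_iff h0]
      intro i
      rw [Real.dist_eq]
      exact hξ i
    refine (measure_mono h1).trans ?_
    rw [Real.volume_pi_closedBall _ h0, Fintype.card_fin, mul_pow]
  have hS1 : ∀ j, volume (S j) ≤ ENNReal.ofReal (2 ^ k * u j) := by
    intro j
    refine (measure_iUnion_le _).trans ?_
    refine (ENNReal.tsum_le_tsum (hvol j)).trans ?_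
    rw [ENNReal.tsum_eq_iSup_sum]
    refine iSup_le fun E => ?_
    rw [← ENNReal.ofReal_sum_of_nonneg (fun a _ => by
      have := hr j a a.2
      positivity)]
    apply ENNReal.ofReal_le_ofReal
    rw [← Finset.mul_sum]
    apply mul_le_mul_of_nonneg_left _ (by positivity)
    have h1 := hsum j (E.map ⟨Subtype.val, Subtype.val_injective⟩) (by
      intro a ha
      rw [Finset.mem_map] at ha
      obtain ⟨b, _, rfl⟩ := ha
      exact b.2)
    rwa [Finset.sum_map] at h1
  have hu0 : ∀ j, 0 ≤ u j := by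
    intro j
    have := hsum j ∅ (by simp)
    simpa using this
  have hfin : ∑' j, volume (S j) ≠ ⊤ := by
    refine ne_top_of_le_ne_top ?_ (ENNReal.tsum_le_tsum hS1)
    exact (hu.mul_left (2 ^ k)).tsum_ofReal_ne_top
  filter_upwards [ae_eventually_notMem hfin] with ξ hξ
  filter_upwards [hξ] with j hj a ha hcon
  apply hj
  rw [hS]
  exact Set.mem_iUnion.2 ⟨⟨a, ha⟩, hcon⟩

end Pool.Agent.H65NT
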