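import Pool.Agent.H65NT.Stm
import Pool.Agent.W222.UABC.Tri

/-!
# Piece CNT: number of tuples with small radicals
-/

set_option autoImplicit false

namespace Pool.Agent.H65NT

open Finset Filter

namespace CntP

/-- `|z| / R(z)` -/
def dd (z : ℤ) : ℕ := z.natAbs / R z.natAbs

theorem R_pos (n : ℕ) : 0 < R n :=
  Finset.prod_pos fun _ hp => (Nat.prime_of_mem_primeFactors hp).pos

theorem R_dvd (n : ℕ) : R n ∣ n := Nat.prod_primeFactors_dvd n

theorem R_le {n : ℕ} (h : n ≠ 0) : R n ≤ n := Nat.le_of_dvd (Nat.pos_of_ne_zero h) (R_dvd n)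

theorem dd_mul (z : ℤ) : dd z * R z.natAbs = z.natAbs := Nat.div_mul_cancel (R_dvd _)

theorem dd_pos {z : ℤ} (h : z ≠ 0) : 0 < dd z := by
  have h1 := dd_mul z
  have h2 : 0 < z.natAbs := Int.natAbs_pos.2 h
  rcases Nat.eq_zero_or_pos (dd z) with h3 | h3
  · rw [h3, zero_mul] at h1
    omega
  · exact h3

theorem dd_le {z : ℤ} (h : z ≠ 0) : dd z ≤ z.natAbs :=
  Nat.le_of_dvd (Int.natAbs_pos.2 h) ⟨_, (dd_mul z).symm⟩

theorem R_mono {a b : ℕ} (h : a ∣ b) (hb : b ≠ 0) : R a ∣ R b :=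
  Finset.prod_dvd_prod_of_subset _ _ _ (Nat.primeFactors_mono h hb)

theorem ddR_dvd {z : ℤ} (h : z ≠ 0) : dd z * R (dd z) ∣ z.natAbs := by
  have h1 : R (dd z) ∣ R z.natAbs := R_mono ⟨_, (dd_mul z).symm⟩ (Int.natAbs_ne_zero.2 h)
  have h2 := mul_dvd_mul_left (dd z) h1
  rwa [dd_mul] at h2

/-- `∑_{1 ≤ a ≤ N} 1 / R(a)` -/
noncomputable def SS (N : ℕ) : ℝ := ∑ a ∈ Icc 1 N, 1 / (R a : ℝ)

theorem SS_nonneg (N : ℕ) : 0 ≤ SS N := Finset.sum_nonneg fun _ _ => by positivity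

theorem SS_le {η : ℝ} (hη : 0 < η) : ∃ D : ℝ, 0 < D ∧ ∀ (N : ℕ) (Y : ℝ), 1 ≤ Y → (N : ℝ) ≤ Y →
    SS N ≤ D * Y ^ η := by
  obtain ⟨D, hD, h⟩ := Pool.Agent.W222.UABC.sum_gw hη
  refine ⟨D, hD, fun N Y hY hN => ?_⟩
  have h1 := h (Icc 1 N) fun m hm => by
    rw [Finset.mem_Icc] at hm
    omega
  have h2 : SS N ≤ (∑ m ∈ Icc 1 N, Real.exp (-(Real.log (Pool.Agent.W222.UABC.rd m)) -
      η * Real.log m)) * Y ^ η := by
    unfold SS
    rw [Finset.sum_mul]
    refine Finset.sum_le_sum fun m hm => ?_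
    rw [Finset.mem_Icc] at hm
    have hm0 : (0 : ℝ) < m := by exact_mod_cast hm.1
    have hR : (0 : ℝ) < R m := by exact_mod_cast R_pos m
    have hrd : ((Pool.Agent.W222.UABC.rd m : ℕ) : ℝ) = R m := rfl
    rw [hrd, Real.exp_sub, Real.exp_neg, Real.exp_log hR]
    have e : Real.exp (η * Real.log m) = (m : ℝ) ^ η := by
      rw [Real.rpow_def_of_pos hm0, mul_comm]
    rw [e]
    have hmη : (0 : ℝ) < (m : ℝ) ^ η := Real.rpow_pos_of_pos hm0 η
    have hle : (m : ℝ) ^ η ≤ Y ^ η :=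
      Real.rpow_le_rpow hm0.le ((by exact_mod_cast hm.2 : (m : ℝ) ≤ N).trans hN) hη.le
    rw [div_mul_eq_mul_div, le_div_iff₀ hmη, one_div]
    exact mul_le_mul_of_nonneg_left hle (by positivity)
  exact h2.trans (mul_le_mul_of_nonneg_right h1 (by positivity))

/-- integers congruent to each other -/
theorem ap_card (T : Finset ℤ) (N m : ℕ) (hm : 0 < m) (hT : ∀ u ∈ T, u.natAbs ≤ N)
    (hc : ∀ u ∈ T, ∀ v ∈ T, (m : ℤ) ∣ u - v) : (T.card : ℝ) ≤ 1 + 2 * N / m := by
  rcases T.eq_empty_or_nonempty with rfl | hne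
  · simp only [Finset.card_empty, Nat.cast_zero]
    positivity
  · set u₀ := T.min' hne with hu₀
    have hu₀m : u₀ ∈ T := T.min'_mem hne
    have hm' : (0 : ℤ) < m := by exact_mod_cast hm
    have h1 : T.card ≤ (Finset.range (2 * N / m + 1)).card := by
      refine Finset.card_le_card_of_injOn (fun u => ((u - u₀) / m).toNat) (fun u hu => ?_) ?_
      · obtain ⟨w, hw⟩ := hc u hu u₀ hu₀m
        have h2 : u₀ ≤ u := T.min'_le u hu
        have h3 : (u - u₀) / m = w := by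
          rw [hw]
          exact Int.mul_ediv_cancel_left _ hm'.ne'
        have hw0 : 0 ≤ w := by
          by_contra hcon
          push Not at hcon
          nlinarith
        have h4 := hT u hu
        have h5 := hT u₀ hu₀m
        have h6 : (m : ℤ) * w ≤ 2 * N := by omega
        obtain ⟨w', rfl⟩ := Int.eq_ofNat_of_zero_le hw0
        rw [Finset.coe_range, Set.mem_Iio]
        simp only [h3, Int.toNat_natCast]
        have h7 : m * w' ≤ 2 * N := by exact_mod_cast h6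
        have h8 : w' ≤ 2 * N / m := (Nat.le_div_iff_mul_le hm).2 (by rw [mul_comm]; exact h7)
        omega
      · intro u hu v hv huv
        have hu' := Finset.mem_coe.1 hu
        have hv' := Finset.mem_coe.1 hv
        obtain ⟨w, hw⟩ := hc u hu' u₀ hu₀m
        obtain ⟨w', hw'⟩ := hc v hv' u₀ hu₀m
        have h2 : u₀ ≤ u := T.min'_le u hu'
        have h2' : u₀ ≤ v := T.min'_le v hv'
        have h3 : (u - u₀) / m = w := by
          rw [hw]
          exact Int.mul_ediv_cancel_left _ hm'.ne'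
        have h3' : (v - u₀) / m = w' := by
          rw [hw']
          exact Int.mul_ediv_cancel_left _ hm'.ne'
        have hw0 : 0 ≤ w := by
          by_contra hcon
          push Not at hcon
          nlinarith
        have hw0' : 0 ≤ w' := by
          by_contra hcon
          push Not at hcon
          nlinarith
        simp only [h3, h3'] at huv
        have h4 : w = w' := by omega
        rw [h4] at hw
        omega
    rw [Finset.card_range] at h1
    have h2 : (T.card : ℝ) ≤ ((2 * N / m + 1 : ℕ) : ℝ) := by exact_mod_cast h1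
    refine h2.trans ?_
    have h3 : ((2 * N / m : ℕ) : ℝ) ≤ ((2 * N : ℕ) : ℝ) / m := Nat.cast_div_le
    push_cast at h3 ⊢
    linarith

/-- nonzero multiples -/
theorem mult_card (N m : ℕ) (hm : 0 < m) (T : Finset ℤ)
    (hT : ∀ z ∈ T, z ≠ 0 ∧ z.natAbs ≤ N ∧ (m : ℤ) ∣ z) : (T.card : ℝ) ≤ 2 * N / m := by
  have hm' : (0 : ℤ) < m := by exact_mod_cast hm
  have h1 : T.card ≤ ((Icc (-((N / m : ℕ) : ℤ)) ((N / m : ℕ) : ℤ)).erase 0).card := by
    refine Finset.card_le_card_of_injOn (fun z => z / m) (fun z hz => ?_) ?_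
    · obtain ⟨h2, h3, w, rfl⟩ := hT z hz
      have h4 : (m : ℤ) * w / m = w := Int.mul_ediv_cancel_left _ hm'.ne'
      simp only [Finset.coe_erase, Finset.coe_Icc, Set.mem_sdiff, Set.mem_Icc,
        Set.mem_singleton_iff, h4]
      have h5 : w.natAbs ≤ N / m := by
        rw [Nat.le_div_iff_mul_le hm, mul_comm]
        rwa [Int.natAbs_mul, Int.natAbs_natCast] at h3
      have h6 : w ≠ 0 := by
        rintro rfl
        exact h2 (mul_zero _)
      refine ⟨by omega, h6⟩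
    · intro u hu v hv huv
      obtain ⟨-, -, w, rfl⟩ := hT u hu
      obtain ⟨-, -, w', rfl⟩ := hT v hv
      simp only [Int.mul_ediv_cancel_left _ hm'.ne'] at huv
      rw [huv]
  rw [Finset.card_erase_of_mem (Finset.mem_Icc.2 ⟨neg_nonpos.2 (Int.natCast_nonneg _),
    Int.natCast_nonneg _⟩), Int.card_Icc] at h1
  have h2 : T.card ≤ 2 * (N / m) := by omega
  have h3 : ((N / m : ℕ) : ℝ) ≤ (N : ℝ) / m := Nat.cast_div_le
  calc (T.card : ℝ) ≤ ((2 * (N / m) : ℕ) : ℝ) := by exact_mod_cast h2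
    _ = 2 * ((N / m : ℕ) : ℝ) := by push_cast; ring
    _ ≤ 2 * ((N : ℝ) / m) := by linarith
    _ = 2 * N / m := by ring

/-- nonzero integers of absolute value at most `N` -/
noncomputable def ZZ (N : ℕ) : Finset ℤ := (Icc (-(N : ℤ)) N).erase 0

theorem mem_ZZ {N : ℕ} {z : ℤ} : z ∈ ZZ N ↔ z ≠ 0 ∧ z.natAbs ≤ N := by
  unfold ZZ
  rw [Finset.mem_erase, Finset.mem_Icc]
  constructor
  · rintro ⟨h1, h2⟩
    exact ⟨h1, by omega⟩
  · rintro ⟨h1, h2⟩
    exact ⟨h1, by omega⟩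

theorem dd_mem {N : ℕ} {z : ℤ} (h : z ≠ 0) (hN : z.natAbs ≤ N) : dd z ∈ Icc 1 N :=
  Finset.mem_Icc.2 ⟨dd_pos h, (dd_le h).trans hN⟩

theorem sum_dd (N : ℕ) : ∑ z ∈ ZZ N, (dd z : ℝ) ≤ 2 * N * SS N := by
  rw [← Finset.sum_fiberwise_of_maps_to (s := ZZ N) (t := Icc 1 N) (g := dd)
    (fun z hz => dd_mem (mem_ZZ.1 hz).1 (mem_ZZ.1 hz).2)]
  unfold SS
  rw [Finset.mul_sum]
  refine Finset.sum_le_sum fun a ha => ?_
  rw [Finset.mem_Icc] at ha
  have ha0 : (0 : ℝ) < a := by exact_mod_cast ha.1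
  have hR : (0 : ℝ) < R a := by exact_mod_cast R_pos a
  have h1 : ∑ z ∈ ZZ N with dd z = a, (dd z : ℝ) = a * ((ZZ N).filter fun z => dd z = a).card := by
    rw [Finset.sum_congr rfl (g := fun _ => (a : ℝ)) fun z hz => by
      rw [(Finset.mem_filter.1 hz).2], Finset.sum_const, nsmul_eq_mul, mul_comm]
  have h2 := mult_card N (a * R a) (Nat.mul_pos (by omega) (R_pos a))
    ((ZZ N).filter fun z => dd z = a) fun z hz => by
      obtain ⟨h3, h4⟩ := Finset.mem_filter.1 hz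
      obtain ⟨h5, h6⟩ := mem_ZZ.1 h3
      refine ⟨h5, h6, ?_⟩
      have h7 := ddR_dvd h5
      rw [h4] at h7
      exact Int.natCast_dvd.2 h7
  rw [h1]
  calc (a : ℝ) * ((ZZ N).filter fun z => dd z = a).card ≤ a * (2 * N / ((a * R a : ℕ) : ℝ)) :=
        mul_le_mul_of_nonneg_left h2 ha0.le
    _ = 2 * N * (1 / (R a : ℝ)) := by
      push_cast
      field_simp

/-- the pair lemma -/
theorem pair_card (N : ℕ) (s : ℤ) (P Δ : ℝ) (hP : 0 < P) (hΔ : 0 < Δ) (T : Finset ℤ)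
    (hT : ∀ u ∈ T, u ≠ 0 ∧ s - u ≠ 0 ∧ IsCoprime u (s - u) ∧ u.natAbs ≤ N ∧ (s - u).natAbs ≤ N ∧
      (dd u : ℝ) * dd (s - u) ≤ P ∧ Δ ≤ P * (dd u * dd (s - u))) :
    (T.card : ℝ) ≤ P * (1 + 2 * N / Δ) * SS N ^ 2 := by
  have h0 : T.card = ∑ p ∈ Icc 1 N ×ˢ Icc 1 N,
      (T.filter fun u => (dd u, dd (s - u)) = p).card :=
    Finset.card_eq_sum_card_fiberwise fun u hu => by
      obtain ⟨h1, h2, -, h3, h4, -, -⟩ := hT u hu
      exact Finset.mem_coe.2 (Finset.mem_product.2 ⟨dd_mem h1 h3, dd_mem h2 h4⟩)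
  have hS : SS N ^ 2 = ∑ p ∈ Icc 1 N ×ˢ Icc 1 N, 1 / (R p.1 : ℝ) * (1 / (R p.2 : ℝ)) := by
    rw [sq]
    unfold SS
    rw [Finset.sum_mul_sum, Finset.sum_product]
  rw [h0, hS, Finset.mul_sum]
  push_cast
  refine Finset.sum_le_sum fun p hp => ?_
  obtain ⟨ha, hb⟩ := Finset.mem_product.1 hp
  obtain ⟨a, b⟩ := p
  simp only [Finset.mem_Icc] at ha hb ⊢
  have ha0 : (0 : ℝ) < a := by exact_mod_cast ha.1
  have hb0 : (0 : ℝ) < b := by exact_mod_cast hb.1
  have hRa : (0 : ℝ) < R a := by exact_mod_cast R_pos a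
  have hRb : (0 : ℝ) < R b := by exact_mod_cast R_pos b
  rcases (T.filter fun u => (dd u, dd (s - u)) = (a, b)).eq_empty_or_nonempty with he | ⟨u, hu⟩
  · rw [he, Finset.card_empty, Nat.cast_zero]
    positivity
  · obtain ⟨hu1, hu2⟩ := Finset.mem_filter.1 hu
    obtain ⟨-, -, -, -, -, g1, g2⟩ := hT u hu1
    rw [Prod.mk.injEq] at hu2
    rw [hu2.1, hu2.2] at g1 g2
    have hm : 0 < a * R a * (b * R b) :=
      Nat.mul_pos (Nat.mul_pos (by omega) (R_pos a)) (Nat.mul_pos (by omega) (R_pos b))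
    have h1 := ap_card (T.filter fun u => (dd u, dd (s - u)) = (a, b)) N (a * R a * (b * R b)) hm
      (fun v hv => (hT v (Finset.mem_filter.1 hv).1).2.2.2.1) (fun v hv v' hv' => by
        obtain ⟨hv1, hv2⟩ := Finset.mem_filter.1 hv
        obtain ⟨hv1', hv2'⟩ := Finset.mem_filter.1 hv'
        rw [Prod.mk.injEq] at hv2 hv2'
        obtain ⟨k1, k2, k3, -⟩ := hT v hv1
        obtain ⟨k1', k2', k3', -⟩ := hT v' hv1'
        have d1 : ((a * R a : ℕ) : ℤ) ∣ v := by
          have := ddR_dvd k1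
          rw [hv2.1] at this
          exact Int.natCast_dvd.2 this
        have d2 : ((b * R b : ℕ) : ℤ) ∣ s - v := by
          have := ddR_dvd k2
          rw [hv2.2] at this
          exact Int.natCast_dvd.2 this
        have d1' : ((a * R a : ℕ) : ℤ) ∣ v' := by
          have := ddR_dvd k1'
          rw [hv2'.1] at this
          exact Int.natCast_dvd.2 this
        have d2' : ((b * R b : ℕ) : ℤ) ∣ s - v' := by
          have := ddR_dvd k2'
          rw [hv2'.2] at this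
          exact Int.natCast_dvd.2 this
        have hcop : IsCoprime ((a * R a : ℕ) : ℤ) ((b * R b : ℕ) : ℤ) :=
          (k3.of_isCoprime_of_dvd_left d1).of_isCoprime_of_dvd_right d2
        have e1 : ((a * R a : ℕ) : ℤ) ∣ v - v' := dvd_sub d1 d1'
        have e2 : ((b * R b : ℕ) : ℤ) ∣ v - v' := by
          have := dvd_sub d2' d2
          have e3 : s - v' - (s - v) = v - v' := by ring
          rwa [e3] at this
        have := hcop.mul_dvd e1 e2
        push_cast at this ⊢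
        exact this)
    refine h1.trans ?_
    push_cast
    have hab : (0 : ℝ) < a * b := by positivity
    have h2 : (1 : ℝ) ≤ P / (R a * R b) := by
      rw [le_div_iff₀ (by positivity), one_mul]
      have r1 : (R a : ℝ) ≤ a := by exact_mod_cast R_le (by omega : a ≠ 0)
      have r2 : (R b : ℝ) ≤ b := by exact_mod_cast R_le (by omega : b ≠ 0)
      exact (mul_le_mul r1 r2 hRb.le ha0.le).trans g1
    have h3 : 2 * (N : ℝ) / (a * R a * (b * R b)) ≤ P * (2 * N / Δ) / (R a * R b) := by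
      have h4 : 1 / ((a : ℝ) * b) ≤ P / Δ := by
        rw [div_le_div_iff₀ hab hΔ]
        linarith
      calc 2 * (N : ℝ) / (a * R a * (b * R b)) = 2 * N / (R a * R b) * (1 / (a * b)) := by
            field_simp
        _ ≤ 2 * N / (R a * R b) * (P / Δ) := mul_le_mul_of_nonneg_left h4 (by positivity)
        _ = P * (2 * N / Δ) / (R a * R b) := by
            field_simp
    calc 1 + 2 * (N : ℝ) / (a * R a * (b * R b)) ≤ P / (R a * R b) +
          P * (2 * N / Δ) / (R a * R b) := add_le_add h2 h3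
      _ = P * (1 + 2 * N / Δ) * (1 / R a * (1 / R b)) := by
          field_simp

/-- part (c) -/
theorem half (k N : ℕ) (Δ : ℝ) (hΔ : 0 < Δ) (E : Finset (Fin (k + 2) → ℤ))
    (hE : ∀ x ∈ E, ∑ i, x i = 0 ∧ (∀ i j, i ≠ j → IsCoprime (x i) (x j)) ∧
      (∀ i, x i ≠ 0 ∧ (x i).natAbs ≤ N) ∧ Δ ≤ ∏ i, (dd (x i) : ℝ) ∧
      dd (x 0) * dd (x 1) ≤ ∏ l : Fin k, dd (x l.succ.succ)) :
    (E.card : ℝ) ≤ (2 * N * SS N) ^ k * ((1 + 2 * N / Δ) * SS N ^ 2) := by
  have hprod : ∑ y ∈ Fintype.piFinset (fun _ : Fin k => ZZ N), ∏ l, (dd (y l) : ℝ) =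
      (∑ z ∈ ZZ N, (dd z : ℝ)) ^ k := by
    rw [← Finset.prod_univ_sum (fun _ : Fin k => ZZ N) (fun _ z => (dd z : ℝ)), Finset.prod_const,
      Finset.card_univ, Fintype.card_fin]
  have h0 : E.card = ∑ y ∈ Fintype.piFinset (fun _ : Fin k => ZZ N),
      (E.filter fun x => (fun l : Fin k => x l.succ.succ) = y).card :=
    Finset.card_eq_sum_card_fiberwise fun x hx => by
      refine Finset.mem_coe.2 (Fintype.mem_piFinset.2 fun l => mem_ZZ.2 ?_)
      exact (hE x hx).2.2.1 _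
  have hpos : 0 ≤ (1 + 2 * N / Δ) * SS N ^ 2 := by positivity
  have h1 : (E.card : ℝ) ≤ ∑ y ∈ Fintype.piFinset (fun _ : Fin k => ZZ N),
      (∏ l, (dd (y l) : ℝ)) * ((1 + 2 * N / Δ) * SS N ^ 2) := by
    rw [h0]
    push_cast
    refine Finset.sum_le_sum fun y hy => ?_
    have hy' := fun l => mem_ZZ.1 (Fintype.mem_piFinset.1 hy l)
    have hP : 0 < ∏ l, (dd (y l) : ℝ) :=
      Finset.prod_pos fun l _ => by exact_mod_cast dd_pos (hy' l).1
    have hcoord : ∀ x ∈ E.filter (fun x => (fun l : Fin k => x l.succ.succ) = y),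
        x 1 = (-∑ l, y l) - x 0 := by
      intro x hx
      obtain ⟨hx1, hx2⟩ := Finset.mem_filter.1 hx
      have h2 := (hE x hx1).1
      rw [Fin.sum_univ_succ, Fin.sum_univ_succ] at h2
      rw [← hx2]
      have e1 : x (Fin.succ 0) = x 1 := rfl
      rw [e1] at h2
      linarith
    have hinj : Set.InjOn (fun x : Fin (k + 2) → ℤ => x 0)
        (E.filter fun x => (fun l : Fin k => x l.succ.succ) = y) := by
      intro x hx x' hx' hxx
      have hx := Finset.mem_coe.1 hx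
      have hx' := Finset.mem_coe.1 hx'
      have c1 := hcoord x hx
      have c2 := hcoord x' hx'
      have hxx0 : x 0 = x' 0 := hxx
      have t1 := (Finset.mem_filter.1 hx).2
      have t2 := (Finset.mem_filter.1 hx').2
      funext i
      refine Fin.cases hxx0 (fun i => ?_) i
      refine Fin.cases ?_ (fun l => ?_) i
      · change x 1 = x' 1
        rw [c1, c2, hxx0]
      · exact congrFun (t1.trans t2.symm) l
    have h3 := pair_card N (-∑ l, y l) (∏ l, (dd (y l) : ℝ)) Δ hP hΔ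
      ((E.filter fun x => (fun l : Fin k => x l.succ.succ) = y).image fun x => x 0) (fun u hu => by
        obtain ⟨x, hx, rfl⟩ := Finset.mem_image.1 hu
        have c1 := hcoord x hx
        obtain ⟨hx1, hx2⟩ := Finset.mem_filter.1 hx
        obtain ⟨-, g2, g3, g4, g5⟩ := hE x hx1
        rw [← c1]
        have hy2 : ∀ l, y l = x l.succ.succ := fun l => (congrFun hx2 l).symm
        have e1 : ∀ f : ℤ → ℝ, ∏ i, f (x i) = f (x 0) * (f (x 1) * ∏ l : Fin k, f (x l.succ.succ)) :=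
          fun f => by
            rw [Fin.prod_univ_succ, Fin.prod_univ_succ]
            rfl
        refine ⟨(g3 0).1, (g3 1).1, g2 0 1 (by simp), (g3 0).2, (g3 1).2, ?_, ?_⟩
        · simp only [hy2]
          exact_mod_cast g5
        · rw [e1 fun z => (dd z : ℝ)] at g4
          simp only [hy2]
          linarith)
    rw [Finset.card_image_of_injOn hinj] at h3
    linarith
  refine h1.trans ?_
  rw [← Finset.sum_mul, hprod]
  refine mul_le_mul_of_nonneg_right ?_ hpos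
  exact pow_le_pow_left₀ (Finset.sum_nonneg fun _ _ => by positivity) (sum_dd N) k

end CntP

open CntP in
/-- **CNT** -/
theorem cnt : S_CNT := by
  intro k hk η hη
  obtain ⟨j, rfl⟩ : ∃ j, k = j + 2 := ⟨k - 2, by omega⟩
  obtain ⟨D, hD, hS⟩ := SS_le (η := η / ((j + 2 : ℕ) + 2 : ℝ)) (by positivity)
  refine ⟨2 ^ (j + 4) * D ^ (j + 4), by positivity, fun Y Δ hY hΔ E hE => ?_⟩
  set N : ℕ := ⌊Y⌋₊ with hN
  have hY0 : 0 ≤ Y := by linarith
  have hNY : (N : ℝ) ≤ Y := Nat.floor_le hY0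
  -- the facts
  have hfacts : ∀ x ∈ E, ∑ i, x i = 0 ∧ (∀ i j, i ≠ j → IsCoprime (x i) (x j)) ∧
      (∀ i, x i ≠ 0 ∧ (x i).natAbs ≤ N) ∧ Δ ≤ ∏ i, (dd (x i) : ℝ) := by
    intro x hx
    obtain ⟨h1, h2, h3, h4⟩ := hE x hx
    refine ⟨h1, h2, fun i => ⟨(h3 i).1, ?_⟩, ?_⟩
    · rw [hN, Nat.le_floor_iff hY0]
      have := (h3 i).2
      rwa [Nat.cast_natAbs, Int.cast_abs]
    · have hR : 0 < ∏ i, (R (x i).natAbs : ℝ) :=
        Finset.prod_pos fun i _ => by exact_mod_cast R_pos _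
      have h5 : ∏ i, |(x i : ℝ)| = (∏ i, (dd (x i) : ℝ)) * ∏ i, (R (x i).natAbs : ℝ) := by
        rw [← Finset.prod_mul_distrib]
        refine Finset.prod_congr rfl fun i _ => ?_
        rw [← Int.cast_abs, ← Nat.cast_natAbs]
        exact_mod_cast (dd_mul (x i)).symm
      rw [h5] at h4
      exact le_of_mul_le_mul_right h4 hR
  -- the permutation
  set a2 : Fin (j + 2 + 2) := ⟨2, by omega⟩ with ha2
  set a3 : Fin (j + 2 + 2) := ⟨3, by omega⟩ with ha3
  set σ : Equiv.Perm (Fin (j + 2 + 2)) := Equiv.swap 0 a2 * Equiv.swap 1 a3 with hσ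
  have h01 : (0 : Fin (j + 2 + 2)) ≠ 1 := by simp
  have h0a3 : (0 : Fin (j + 2 + 2)) ≠ a3 := by
    rw [ha3, Ne, Fin.ext_iff]
    simp
  have ha30 : a3 ≠ 0 := h0a3.symm
  have ha32 : a3 ≠ a2 := by
    rw [ha3, ha2, Ne, Fin.ext_iff]
    simp
  have hσ0 : σ 0 = a2 := by
    rw [hσ, Equiv.Perm.mul_apply, Equiv.swap_apply_of_ne_of_ne h01 h0a3, Equiv.swap_apply_left]
  have hσ1 : σ 1 = a3 := by
    rw [hσ, Equiv.Perm.mul_apply, Equiv.swap_apply_left, Equiv.swap_apply_of_ne_of_ne ha30 ha32]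
  have hsplit : ∀ f : Fin (j + 2 + 2) → ℕ, ∏ i, f i =
      f 0 * (f 1 * ∏ l : Fin (j + 2), f l.succ.succ) := fun f => by
    rw [Fin.prod_univ_succ, Fin.prod_univ_succ]
    rfl
  have hsplit2 : ∀ f : Fin (j + 2 + 2) → ℕ, ∏ l : Fin (j + 2), f l.succ.succ =
      f a2 * (f a3 * ∏ l : Fin j, f l.succ.succ.succ.succ) := fun f => by
    rw [Fin.prod_univ_succ, Fin.prod_univ_succ]
    rfl
  -- the two halves
  set E₁ := E.filter fun x => dd (x 0) * dd (x 1) ≤ ∏ l : Fin (j + 2), dd (x l.succ.succ) with hE₁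
  set E₂ := E.filter fun x => ¬ dd (x 0) * dd (x 1) ≤ ∏ l : Fin (j + 2), dd (x l.succ.succ)
    with hE₂
  have hcard : E.card = E₁.card + E₂.card := (Finset.card_filter_add_card_filter_not _).symm
  have b1 := half (j + 2) N Δ hΔ E₁ fun x hx => by
    obtain ⟨h1, h2⟩ := Finset.mem_filter.1 hx
    obtain ⟨g1, g2, g3, g4⟩ := hfacts x h1
    exact ⟨g1, g2, g3, g4, h2⟩
  have b2 := half (j + 2) N Δ hΔ (E₂.image fun x => fun i => x (σ i)) fun x' hx' => by
    obtain ⟨x, hx, rfl⟩ := Finset.mem_image.1 hx'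
    obtain ⟨h1, h2⟩ := Finset.mem_filter.1 hx
    obtain ⟨g1, g2, g3, g4⟩ := hfacts x h1
    refine ⟨?_, fun i i' hi => g2 _ _ fun h => hi (σ.injective h), fun i => g3 _, ?_, ?_⟩
    · rw [← g1]
      exact Equiv.sum_comp σ x
    · rw [Equiv.prod_comp σ fun i => (dd (x i) : ℝ)]
      exact g4
    · simp only [hσ0, hσ1]
      push Not at h2
      have k1 : ∏ i, dd (x (σ i)) = ∏ i, dd (x i) := Equiv.prod_comp σ fun i => dd (x i)
      rw [hsplit fun i => dd (x (σ i)), hsplit fun i => dd (x i)] at k1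
      simp only [hσ0, hσ1] at k1
      have k2 := hsplit2 fun i => dd (x i)
      have k3 : 0 < ∏ l : Fin j, dd (x l.succ.succ.succ.succ) :=
        Finset.prod_pos fun l _ => dd_pos (g3 _).1
      have k4 : 0 < dd (x a2) := dd_pos (g3 _).1
      have k5 : 0 < dd (x a3) := dd_pos (g3 _).1
      have k6 : dd (x a2) * dd (x a3) ≤ ∏ l : Fin (j + 2), dd (x l.succ.succ) := by
        rw [k2, ← mul_assoc]
        exact Nat.le_mul_of_pos_right _ k3
      by_contra hcon
      push Not at hcon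
      have k7 : (dd (x a2) * dd (x a3)) * ∏ l : Fin (j + 2), dd (x (σ l.succ.succ)) <
          (dd (x a2) * dd (x a3)) * (dd (x a2) * dd (x a3)) :=
        Nat.mul_lt_mul_of_pos_left hcon (Nat.mul_pos k4 k5)
      have k8 : (dd (x a2) * dd (x a3)) * (dd (x a2) * dd (x a3)) ≤
          (dd (x 0) * dd (x 1)) * ∏ l : Fin (j + 2), dd (x l.succ.succ) :=
        Nat.mul_le_mul (k6.trans h2.le) k6
      have k9 : (dd (x a2) * dd (x a3)) * ∏ l : Fin (j + 2), dd (x (σ l.succ.succ)) =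
          (dd (x 0) * dd (x 1)) * ∏ l : Fin (j + 2), dd (x l.succ.succ) := by
        rw [mul_assoc, mul_assoc]
        exact k1
      omega
  have hinj : Set.InjOn (fun (x : Fin (j + 2 + 2) → ℤ) => fun i => x (σ i)) E₂ := by
    intro x _ x' _ h
    funext i
    have := congrFun h (σ.symm i)
    simpa using this
  rw [Finset.card_image_of_injOn hinj] at b2
  -- the final estimate
  have hSN := hS N Y hY hNY
  have hS0 := SS_nonneg N
  have e1 : (2 * N * SS N) ^ (j + 2) * ((1 + 2 * N / Δ) * SS N ^ 2) ≤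
      2 ^ (j + 3) * (D ^ (j + 4) * Y ^ η) * (Y ^ (j + 2) + Y ^ (j + 2 + 1) / Δ) := by
    have f1 : SS N ^ (j + 4) ≤ D ^ (j + 4) * Y ^ η := by
      refine (pow_le_pow_left₀ hS0 hSN (j + 4)).trans (le_of_eq ?_)
      rw [mul_pow, ← Real.rpow_natCast (Y ^ _), ← Real.rpow_mul hY0]
      congr 2
      push_cast
      field_simp
      ring
    have f2 : (1 + 2 * N / Δ) ≤ 2 * (1 + Y / Δ) := by
      have : 2 * (N : ℝ) / Δ ≤ 2 * Y / Δ := by gcongr
      have h2 : 2 * Y / Δ = 2 * (Y / Δ) := by ring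
      linarith
    have f3 : (0 : ℝ) ≤ 1 + 2 * N / Δ := by positivity
    calc (2 * N * SS N) ^ (j + 2) * ((1 + 2 * N / Δ) * SS N ^ 2) =
          2 ^ (j + 2) * (N : ℝ) ^ (j + 2) * ((1 + 2 * N / Δ) * SS N ^ (j + 4)) := by
          rw [mul_pow, mul_pow]
          ring
      _ ≤ 2 ^ (j + 2) * Y ^ (j + 2) * ((2 * (1 + Y / Δ)) * (D ^ (j + 4) * Y ^ η)) := by
          gcongr
      _ = _ := by ring
  rw [hcard]
  push_cast
  calc (E₁.card : ℝ) + E₂.card ≤
        2 ^ (j + 3) * (D ^ (j + 4) * Y ^ η) * (Y ^ (j + 2) + Y ^ (j + 2 + 1) / Δ) +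
        2 ^ (j + 3) * (D ^ (j + 4) * Y ^ η) * (Y ^ (j + 2) + Y ^ (j + 2 + 1) / Δ) :=
        add_le_add (b1.trans e1) (b2.trans e1)
    _ = _ := by ring

end Pool.Agent.H65NT
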