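import Pool.Agent.H34x.NT.Point

/-!
# Zero sum vectors near a real one: the coefficients
-/

set_option autoImplicit false

namespace Pool.Agent.H65NT

open Finset Filter Pool.Agent.H34x.NT

open scoped Classical in
/-- **Zero sum vectors with pairwise coprime coordinates near a real point.** -/
theorem exists_point' {m : ℕ} (hm : 2 ≤ m) {P0 : ℕ} (hP0 : 16 * (m + 1) ^ 2 ≤ P0)
    (b : Fin (m + 1) → ℕ) (hbp : ∀ i, (b i).Prime) (hbi : ∀ i j, i ≠ j → b i ≠ b j)
    (hbP : ∀ i, P0 < b i) (w : ℤ) (hw : w = (P0.factorial : ℤ) * ∏ i, (b i : ℤ))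
    (e : Fin (m + 1) → ℕ) (he : ∀ i, 1 ≤ e i)
    (Z : Matrix (Fin m) (Fin m) ℤ)
    (hZd : ∀ j i, (b i : ℤ) ^ (e i) ∣ ∑ l, PP m i l * Z j l) {U : ℝ} (hU0 : 0 ≤ U)
    (hU : ∀ j l, |(Z j l : ℝ)| ≤ U) (hZ0 : Z.det ≠ 0)
    (hZp : ∀ p : ℕ, p.Prime → P0 < p → (∀ i, ¬ p ∣ b i) → ¬ (p : ℤ) ∣ Z.det)
    {K : ℕ} (hK : 1 ≤ K) {Y : ℝ} (y : Fin (m + 1) → ℝ) (hy : ∑ i, y i = 0)
    (hyY : ∀ i, |y i| ≤ Y) {X ω : ℕ} (hX1 : w * (m * U) ≤ X)
    (hX2 : 2 * (w * (m * U)) * (Y + m * K * (w * (m * U))) ≤ X) (hω : X < K ^ (ω + 1))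
    (hbig : 4 * ((m + 1) ^ 2 * (1 + 2 * ω) + 2 ^ (m + 1)) ≤ K) :
    ∃ x : Fin (m + 1) → ℤ, ∑ i, x i = 0 ∧ (∀ i, (b i : ℤ) ^ (e i) ∣ x i) ∧
      (∀ i j, i ≠ j → IsCoprime (x i) (x j)) ∧
      (∀ I : Finset (Fin (m + 1)), I.Nonempty → I ≠ univ → ∑ i ∈ I, x i ≠ 0) ∧
      ∃ s : Fin m → ℝ, (∀ l, |s l| ≤ K) ∧ ∀ i, (x i : ℝ) - y i = ∑ l, s l * (GA w Z i l : ℝ) := by
  have hmP : m < P0 := by nlinarith
  have hP00 : 0 < P0 := by omega
  have hfac : ∀ p : ℕ, p.Prime → P0 < p → ¬ (p : ℤ) ∣ (P0.factorial : ℤ) := by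
    intro p hp hlt hd
    have h1 : p ∣ P0.factorial := by exact_mod_cast hd
    exact absurd ((hp.dvd_factorial).1 h1) (by omega)
  have hbpos : ∀ i, (0 : ℤ) < b i := fun i => by exact_mod_cast (hbp i).pos
  have hw0 : 0 < w := by
    rw [hw]
    have : (0 : ℤ) < P0.factorial := by exact_mod_cast Nat.factorial_pos _
    have h2 : 0 < ∏ i, (b i : ℤ) := Finset.prod_pos fun i _ => hbpos i
    positivity
  have hwR : (0 : ℝ) < w := by exact_mod_cast hw0
  -- the base point
  obtain ⟨r, hr1, hr2, hr3⟩ := base hm (P0.factorial : ℤ) (fun j => (b j : ℤ) ^ (e j)) (by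
      intro j
      apply IsCoprime.pow_right
      apply Nat.isCoprime_iff_coprime.2
      apply Nat.Coprime.symm
      rw [Nat.Prime.coprime_iff_not_dvd (hbp j)]
      intro hd
      exact absurd (((hbp j).dvd_factorial).1 hd) (by have := hbP j; omega)) (by
      intro i j hij
      apply IsCoprime.pow
      apply Nat.isCoprime_iff_coprime.2
      exact (Nat.coprime_primes (hbp i) (hbp j)).2 (hbi i j hij))
  obtain ⟨t, ht⟩ := real_coord hw0.ne' Z hZ0 (fun i => y i - r i) (by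
    rw [Finset.sum_sub_distrib, hy]
    have : ((∑ i, r i : ℤ) : ℝ) = 0 := by rw [hr1]; simp
    push_cast at this
    rw [this, sub_zero])
  set c : Fin m → ℤ := fun l => ⌊t l⌋ with hc
  set α : Fin (m + 1) → ℤ := fun i => r i + ∑ l, c l * GA w Z i l with hα
  set x : (Fin m → ℕ) → Fin (m + 1) → ℤ := fun k i => α i + ∑ l, (k l : ℤ) * GA w Z i l with hx
  have hGU : ∀ i l, |(GA w Z i l : ℝ)| ≤ w * (m * U) := GA_bound hw0 Z hU0 hU
  have hV0 : (0 : ℝ) ≤ w * (m * U) := by positivity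
  have hKR : (1 : ℝ) ≤ K := by exact_mod_cast hK
  have hcoef : ∀ k ∈ Om m K, (∀ l, |(c l : ℝ) + k l - t l| ≤ K) ∧
      ∀ i, (x k i : ℝ) - y i = ∑ l, ((c l : ℝ) + k l - t l) * (GA w Z i l : ℝ) := by
    intro k hk
    constructor
    · intro l
      have h3 : ((k l : ℕ) : ℝ) + 1 ≤ K := by exact_mod_cast (mem_Om.1 hk l)
      have h4 : (0 : ℝ) ≤ (k l : ℕ) := Nat.cast_nonneg _
      have h5 := Int.floor_le (t l)
      have h6 := Int.lt_floor_add_one (t l)
      rw [abs_le]
      simp only [hc]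
      constructor <;> linarith
    · intro i
      have h2 := ht i
      simp only [hx, hα]
      push_cast
      have h3 : ∑ l, ((c l : ℝ) + k l - t l) * (GA w Z i l : ℝ) =
          ∑ l, (c l : ℝ) * (GA w Z i l : ℝ) + ∑ l, (k l : ℝ) * (GA w Z i l : ℝ) -
            ∑ l, t l * (GA w Z i l : ℝ) := by
        rw [← Finset.sum_add_distrib, ← Finset.sum_sub_distrib]
        refine Finset.sum_congr rfl fun l _ => by ring
      rw [h3, h2]
      ring
  -- the distance
  have hdist : ∀ k ∈ Om m K, ∀ i, |(x k i : ℝ) - y i| ≤ m * K * (w * (m * U)) := by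
    intro k hk i
    have h1 : (x k i : ℝ) - y i = ∑ l, ((c l : ℝ) + k l - t l) * (GA w Z i l : ℝ) := by
      have h2 := ht i
      simp only [hx, hα]
      push_cast
      have h3 : ∑ l, ((c l : ℝ) + k l - t l) * (GA w Z i l : ℝ) =
          ∑ l, (c l : ℝ) * (GA w Z i l : ℝ) + ∑ l, (k l : ℝ) * (GA w Z i l : ℝ) -
            ∑ l, t l * (GA w Z i l : ℝ) := by
        rw [← Finset.sum_add_distrib, ← Finset.sum_sub_distrib]
        refine Finset.sum_congr rfl fun l _ => by ring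
      rw [h3, h2]
      ring
    rw [h1]
    refine (Finset.abs_sum_le_sum_abs _ _).trans ?_
    have h2 : ∀ l ∈ (univ : Finset (Fin m)), |((c l : ℝ) + k l - t l) * (GA w Z i l : ℝ)| ≤
        K * (w * (m * U)) := by
      intro l _
      rw [abs_mul]
      apply mul_le_mul _ (hGU i l) (abs_nonneg _) (by positivity)
      have h3 : ((k l : ℕ) : ℝ) + 1 ≤ K := by exact_mod_cast (mem_Om.1 hk l)
      have h4 : (0 : ℝ) ≤ (k l : ℕ) := Nat.cast_nonneg _
      have h5 := Int.floor_le (t l)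
      have h6 := Int.lt_floor_add_one (t l)
      rw [abs_le]
      simp only [hc]
      constructor <;> linarith
    refine (Finset.sum_le_card_nsmul _ _ _ h2).trans ?_
    rw [Finset.card_univ, Fintype.card_fin, nsmul_eq_mul]
    linarith
  -- the bad sets
  set good : ℕ → Prop := fun p => ¬ (p : ℤ) ∣ w with hgood
  have hgood1 : ∀ p, p.Prime → good p → P0 < p ∧ ∀ i, ¬ p ∣ b i := by
    intro p hp hg
    constructor
    · by_contra hle
      push Not at hle
      apply hg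
      rw [hw]
      apply Dvd.dvd.mul_right
      exact_mod_cast Nat.dvd_factorial hp.pos hle
    · intro i hi
      apply hg
      rw [hw]
      apply Dvd.dvd.mul_left
      exact Dvd.dvd.trans (by exact_mod_cast hi) (Finset.dvd_prod_of_mem (fun i => (b i : ℤ)) (mem_univ i))
  have hmin : ∀ i i' : Fin (m + 1), i ≠ i' → ∀ p, p.Prime → good p →
      ∃ l l', ¬ (p : ℤ) ∣ GA w Z i l * GA w Z i' l' - GA w Z i l' * GA w Z i' l := by
    intro i i' hii p hp hg
    obtain ⟨h1, h2⟩ := hgood1 p hp hg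
    exact GA_mod hm Z hp hg (hZp p hp h1 h2) hii
  have hxb : ∀ k ∈ Om m K, ∀ i, |(x k i : ℝ)| ≤ Y + m * K * (w * (m * U)) := by
    intro k hk i
    have h1 := hdist k hk i
    have h2 := hyY i
    have h3 : (x k i : ℝ) = (x k i - y i) + y i := by ring
    rw [h3]
    exact (abs_add_le _ _).trans (by linarith)
  set S : Fin (m + 1) × Fin (m + 1) → Finset (Fin m → ℕ) := fun q =>
    ((Om m K).filter fun k => ∃ p : ℕ, p.Prime ∧ K < p ∧ good p ∧
      (p : ℤ) ∣ x k q.1 ∧ (p : ℤ) ∣ x k q.2) ∪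
    ((Om m K).filter fun k => ∃ p : ℕ, p.Prime ∧ P0 < p ∧ p ≤ K ∧ good p ∧
      (p : ℤ) ∣ x k q.1 ∧ (p : ℤ) ∣ x k q.2) with hS
  set T : Finset (Fin (m + 1)) → Finset (Fin m → ℕ) := fun I =>
    (Om m K).filter fun k => ∑ i ∈ I, x k i = 0 with hT
  set PR : Finset (Fin (m + 1) × Fin (m + 1)) := univ.filter fun q => q.1 ≠ q.2 with hPR
  set SS : Finset (Finset (Fin (m + 1))) := univ.filter fun I => I.Nonempty ∧ I ≠ univ with hSS
  have cS : ∀ q ∈ PR, ((S q).card : ℝ) ≤ (1 + 2 * ω) * (K : ℝ) ^ (m - 1) + 4 / P0 * (K : ℝ) ^ m := by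
    intro q hq
    rw [hPR, mem_filter] at hq
    obtain ⟨l, hl, l', hl'⟩ := GA_zero hm hw0.ne' Z hZ0 hq.2
    have h1 := big_primes hm (by omega : 0 < K) hω (GA w Z q.1) (GA w Z q.2) (α q.1) (α q.2)
      (i0 := l') (j0 := l) hl hl' good (hmin q.1 q.2 hq.2) (by
        have h2 := hGU q.1 l
        have h3 : ((GA w Z q.1 l).natAbs : ℝ) ≤ X := by
          rw [Nat.cast_natAbs, Int.cast_abs]
          exact h2.trans hX1
        exact_mod_cast h3) (by
        intro k hk
        have h2 : ((GA w Z q.1 l * (α q.2 + ∑ l, (k l : ℤ) * GA w Z q.2 l) -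
            GA w Z q.2 l * (α q.1 + ∑ l, (k l : ℤ) * GA w Z q.1 l)).natAbs : ℝ) ≤ X := by
          rw [Nat.cast_natAbs, Int.cast_abs]
          have h3 := hxb k hk q.1
          have h4 := hxb k hk q.2
          simp only [hx] at h3 h4
          rw [Int.cast_sub, Int.cast_mul, Int.cast_mul]
          refine (abs_sub _ _).trans ?_
          rw [abs_mul, abs_mul]
          have h5 := mul_le_mul (hGU q.1 l) h4 (abs_nonneg _) hV0
          have h6 := mul_le_mul (hGU q.2 l) h3 (abs_nonneg _) hV0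
          linarith
        exact_mod_cast h2)
    have h2 := small_primes hm (by omega : 0 < K) hP00 (GA w Z q.1) (GA w Z q.2) (α q.1) (α q.2)
      good (hmin q.1 q.2 hq.2)
    have h3 : ((S q).card : ℝ) ≤ (((Om m K).filter fun k => ∃ p : ℕ, p.Prime ∧ K < p ∧ good p ∧
      (p : ℤ) ∣ x k q.1 ∧ (p : ℤ) ∣ x k q.2).card : ℝ) +
      (((Om m K).filter fun k => ∃ p : ℕ, p.Prime ∧ P0 < p ∧ p ≤ K ∧ good p ∧
      (p : ℤ) ∣ x k q.1 ∧ (p : ℤ) ∣ x k q.2).card : ℝ) := by
      exact_mod_cast Finset.card_union_le _ _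
    have h4 : (((Om m K).filter fun k => ∃ p : ℕ, p.Prime ∧ K < p ∧ good p ∧
      (p : ℤ) ∣ x k q.1 ∧ (p : ℤ) ∣ x k q.2).card : ℝ) ≤ (1 + 2 * ω) * (K : ℝ) ^ (m - 1) := by
      exact_mod_cast h1
    have h5 : (((Om m K).filter fun k => ∃ p : ℕ, p.Prime ∧ P0 < p ∧ p ≤ K ∧ good p ∧
      (p : ℤ) ∣ x k q.1 ∧ (p : ℤ) ∣ x k q.2).card : ℝ) ≤ 4 / P0 * (K : ℝ) ^ m := h2
    linarith
  have cT : ∀ I ∈ SS, (T I).card ≤ K ^ (m - 1) := by
    intro I hI
    rw [hSS, mem_filter] at hI
    obtain ⟨l, hl⟩ := GA_sub hw0.ne' Z hZ0 hI.2.1 hI.2.2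
    have h1 := one_zero (by omega : 0 < K) (fun l => ∑ i ∈ I, GA w Z i l) (∑ i ∈ I, α i) hl
    have h2 : T I = (Om m K).filter fun k =>
        ∑ i ∈ I, α i + ∑ l, (k l : ℤ) * (∑ i ∈ I, GA w Z i l) = 0 := by
      simp only [hT]
      apply Finset.filter_congr
      intro k _
      have h3 : ∑ i ∈ I, x k i = ∑ i ∈ I, α i + ∑ l, (k l : ℤ) * (∑ i ∈ I, GA w Z i l) := by
        simp only [hx]
        rw [Finset.sum_add_distrib, Finset.sum_comm]
        congr 1
        refine Finset.sum_congr rfl fun l _ => ?_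
        rw [Finset.mul_sum]
      rw [h3]
    rw [h2]
    exact h1
  set Bad := PR.biUnion S ∪ SS.biUnion T with hBad
  have hBadcard : (Bad.card : ℝ) < (K : ℝ) ^ m := by
    have h1 : (Bad.card : ℝ) ≤ ∑ q ∈ PR, ((S q).card : ℝ) + ∑ I ∈ SS, ((T I).card : ℝ) := by
      have h2 : Bad.card ≤ ∑ q ∈ PR, (S q).card + ∑ I ∈ SS, (T I).card :=
        (Finset.card_union_le _ _).trans (Nat.add_le_add Finset.card_biUnion_le
          Finset.card_biUnion_le)
      exact_mod_cast h2
    have h2 : ∑ q ∈ PR, ((S q).card : ℝ) ≤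
        ((m : ℝ) + 1) ^ 2 * ((1 + 2 * ω) * (K : ℝ) ^ (m - 1) + 4 / P0 * (K : ℝ) ^ m) := by
      refine (Finset.sum_le_card_nsmul _ _ _ cS).trans ?_
      rw [nsmul_eq_mul]
      apply mul_le_mul_of_nonneg_right _ (by positivity)
      have h3 : PR.card ≤ (m + 1) ^ 2 := by
        refine (Finset.card_filter_le _ _).trans ?_
        rw [Finset.card_univ, Fintype.card_prod, Fintype.card_fin, sq]
      exact_mod_cast h3
    have h3 : ∑ I ∈ SS, ((T I).card : ℝ) ≤ 2 ^ (m + 1) * (K : ℝ) ^ (m - 1) := by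
      have h4 : ∑ I ∈ SS, (T I).card ≤ 2 ^ (m + 1) * K ^ (m - 1) := by
        refine (Finset.sum_le_card_nsmul _ _ _ cT).trans ?_
        rw [smul_eq_mul]
        apply Nat.mul_le_mul_right
        refine (Finset.card_filter_le _ _).trans ?_
        rw [Finset.card_univ, Fintype.card_finset, Fintype.card_fin]
      exact_mod_cast h4
    have h4 : (K : ℝ) ^ m = K * (K : ℝ) ^ (m - 1) := by
      rw [← pow_succ']
      congr 1
      omega
    have h5 : 0 < (K : ℝ) ^ (m - 1) := by positivity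
    have h6 : 4 * (((m : ℝ) + 1) ^ 2 * (1 + 2 * ω) + 2 ^ (m + 1)) ≤ K := by exact_mod_cast hbig
    have h7 : ((m : ℝ) + 1) ^ 2 * (4 / P0) ≤ 1 / 4 := by
      have h8 : (16 : ℝ) * ((m : ℝ) + 1) ^ 2 ≤ P0 := by exact_mod_cast hP0
      have h9 : (0 : ℝ) < P0 := by exact_mod_cast hP00
      rw [mul_div_assoc', div_le_div_iff₀ h9 (by norm_num)]
      linarith
    have h8 : 0 < (K : ℝ) ^ m := by positivity
    have h9 : ((m : ℝ) + 1) ^ 2 * (4 / P0 * (K : ℝ) ^ m) ≤ 1 / 4 * (K : ℝ) ^ m := by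
      rw [← mul_assoc]
      exact mul_le_mul_of_nonneg_right h7 h8.le
    have h10 : (((m : ℝ) + 1) ^ 2 * (1 + 2 * ω) + 2 ^ (m + 1)) * (K : ℝ) ^ (m - 1) ≤
        1 / 4 * (K : ℝ) ^ m := by
      rw [h4, ← mul_assoc]
      apply mul_le_mul_of_nonneg_right _ h5.le
      linarith
    nlinarith
  obtain ⟨k, hk, hkB⟩ : ∃ k ∈ Om m K, k ∉ Bad := by
    by_contra hcon
    push Not at hcon
    have h1 : (Om m K).card ≤ Bad.card := Finset.card_le_card hcon
    rw [card_Om] at h1
    have h2 : ((K ^ m : ℕ) : ℝ) ≤ (Bad.card : ℝ) := by exact_mod_cast h1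
    push_cast at h2
    linarith
  have hwmod : ∀ i, w ∣ x k i - r i := by
    intro i
    simp only [hx, hα]
    have h1 : r i + ∑ l, c l * GA w Z i l + ∑ l, (k l : ℤ) * GA w Z i l - r i =
        ∑ l, c l * GA w Z i l + ∑ l, (k l : ℤ) * GA w Z i l := by ring
    rw [h1]
    have h2 : ∀ l, w ∣ GA w Z i l := fun l => Dvd.intro _ rfl
    exact dvd_add (Finset.dvd_sum fun l _ => (h2 l).mul_left _)
      (Finset.dvd_sum fun l _ => (h2 l).mul_left _)
  refine ⟨x k, ?_, ?_, ?_, ?_, fun l => (c l : ℝ) + k l - t l, (hcoef k hk).1, (hcoef k hk).2⟩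
  · simp only [hx, hα]
    rw [Finset.sum_add_distrib, Finset.sum_add_distrib, hr1, zero_add, Finset.sum_comm,
      Finset.sum_comm (f := fun i l => (k l : ℤ) * GA w Z i l)]
    simp only [← Finset.mul_sum, GA_sum, mul_zero, Finset.sum_const_zero, add_zero]
  · intro i
    have h1 : ∀ l, (b i : ℤ) ^ (e i) ∣ GA w Z i l := by
      intro l
      unfold GA
      exact (hZd l i).mul_left _
    have h2 : (b i : ℤ) ^ (e i) ∣ r i := by
      have h3 := hr3 i i
      rw [rj_self, sub_zero] at h3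
      exact h3
    simp only [hx, hα]
    exact dvd_add (dvd_add h2 (Finset.dvd_sum fun l _ => (h1 l).mul_left _))
      (Finset.dvd_sum fun l _ => (h1 l).mul_left _)
  · intro i j hij
    rw [Int.isCoprime_iff_gcd_eq_one]
    by_contra hne
    obtain ⟨p, hp, hpd⟩ := Nat.exists_prime_and_dvd hne
    have h1 : (p : ℤ) ∣ x k i := (Int.natCast_dvd_natCast.2 hpd).trans (Int.gcd_dvd_left ..)
    have h2 : (p : ℤ) ∣ x k j := (Int.natCast_dvd_natCast.2 hpd).trans (Int.gcd_dvd_right ..)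
    by_cases hpP : p ≤ P0
    · -- small primes
      have h3 : (p : ℤ) ∣ (P0.factorial : ℤ) := by exact_mod_cast Nat.dvd_factorial hp.pos hpP
      have h4 : ∀ i, (p : ℤ) ∣ x k i → (p : ℤ) ∣ rz m i := by
        intro i hi
        have h5 : (p : ℤ) ∣ x k i - r i := by
          refine Dvd.dvd.trans (h3.trans ?_) (hwmod i)
          rw [hw]
          exact Dvd.intro _ rfl
        have h6 : (p : ℤ) ∣ r i - rz m i := h3.trans (hr2 i)
        have h7 := dvd_sub (dvd_sub hi h5) h6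
        have h8 : x k i - (x k i - r i) - (r i - rz m i) = rz m i := by ring
        rwa [h8] at h7
      have h5 := h4 i h1
      have h6 := h4 j h2
      unfold rz at h5 h6
      have hone : ¬ (p : ℤ) ∣ 1 := by
        intro h7
        have := Int.le_of_dvd one_pos h7
        have := hp.two_le
        omega
      by_cases hi : i = Fin.last m
      · have hj : j ≠ Fin.last m := fun h => hij (hi.trans h.symm)
        rw [if_neg hj] at h6
        exact hone h6
      · rw [if_neg hi] at h5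
        exact hone h5
    · push Not at hpP
      by_cases hpb : ∃ j', p ∣ b j'
      · obtain ⟨j', hj'⟩ := hpb
        have hpe : p = b j' := (Nat.prime_dvd_prime_iff_eq hp (hbp j')).1 hj'
        have h4 : ∀ i, (p : ℤ) ∣ x k i → (p : ℤ) ∣ rj hm j' i := by
          intro i hi
          have h3 : (p : ℤ) ∣ w := by
            rw [hw]
            apply Dvd.dvd.mul_left
            rw [hpe]
            exact Finset.dvd_prod_of_mem (fun i => (b i : ℤ)) (mem_univ j')
          have h5 : (p : ℤ) ∣ x k i - r i := h3.trans (hwmod i)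
          have h6 : (p : ℤ) ∣ r i - rj hm j' i := by
            refine Dvd.dvd.trans ?_ (hr3 j' i)
            rw [hpe]
            exact dvd_pow_self _ (by have := he j'; omega)
          have h7 := dvd_sub (dvd_sub hi h5) h6
          have h8 : x k i - (x k i - r i) - (r i - rj hm j' i) = rj hm j' i := by ring
          rwa [h8] at h7
        by_cases hi : i = j'
        · have hj : j ≠ j' := fun h => hij (hi.trans h.symm)
          exact rj_ne hm hj (by omega) (h4 j h2)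
        · exact rj_ne hm hi (by omega) (h4 i h1)
      · push Not at hpb
        have hg : good p := by
          simp only [hgood]
          rw [hw]
          intro h3
          have hpZ : Prime (p : ℤ) := Nat.prime_iff_prime_int.1 hp
          rcases hpZ.dvd_or_dvd h3 with h4 | h4
          · exact hfac p hp hpP h4
          · rw [Prime.dvd_finsetProd_iff hpZ] at h4
            obtain ⟨j', -, h5⟩ := h4
            exact hpb j' (by exact_mod_cast h5)
        apply hkB
        rw [hBad, mem_union, mem_biUnion]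
        left
        refine ⟨(i, j), ?_, ?_⟩
        · rw [hPR, mem_filter]
          exact ⟨mem_univ _, hij⟩
        · simp only [hS]
          rw [mem_union, mem_filter, mem_filter]
          rcases lt_or_ge K p with h3 | h3
          · left
            exact ⟨hk, p, hp, h3, hg, h1, h2⟩
          · right
            exact ⟨hk, p, hp, hpP, h3, hg, h1, h2⟩
  · intro I hI1 hI2 h0
    apply hkB
    rw [hBad, mem_union, mem_biUnion, mem_biUnion]
    right
    refine ⟨I, ?_, ?_⟩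
    · rw [hSS, mem_filter]
      exact ⟨mem_univ _, hI1, hI2⟩
    · simp only [hT]
      rw [mem_filter]
      exact ⟨hk, h0⟩

end Pool.Agent.H65NT
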