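import Pool.Agent.H65NT.Min
import Pool.Agent.H65NT.Pt
import Pool.Agent.H34x.NT.Main

/-!
# Coprime zero sum vectors with prescribed divisors near a direction
-/

set_option autoImplicit false

namespace Pool.Agent.H65NT

open Finset Filter Topology
open Pool.Agent.H34x.NT (GA PP_castSucc ev_le)

/-- a zero sum vector with pairwise coprime coordinates and without vanishing subsums -/
def Adm {n : ℕ} (x : Fin n → ℤ) : Prop :=
  ∑ i, x i = 0 ∧ (∀ i j, i ≠ j → IsCoprime (x i) (x j)) ∧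
    ∀ I : Finset (Fin n), I.Nonempty → I ≠ univ → ∑ i ∈ I, x i ≠ 0

/-- the point on the line with direction `ξ` -/
noncomputable def ln {k : ℕ} (ξ : Fin k → ℝ) (T : ℝ) : Fin (k + 2) → ℝ :=
  Fin.snoc (α := fun _ => ℝ) (Fin.cons T fun i => T * ξ i) (-(T + ∑ i, T * ξ i))

theorem ln_zero {k : ℕ} (ξ : Fin k → ℝ) (T : ℝ) : ln ξ T 0 = T := by
  unfold ln
  rw [← Fin.castSucc_zero, Fin.snoc_castSucc, Fin.cons_zero]

theorem ln_succ {k : ℕ} (ξ : Fin k → ℝ) (T : ℝ) (i : Fin k) :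
    ln ξ T i.succ.castSucc = T * ξ i := by
  unfold ln
  rw [Fin.snoc_castSucc, Fin.cons_succ]

theorem ln_last {k : ℕ} (ξ : Fin k → ℝ) (T : ℝ) :
    ln ξ T (Fin.last (k + 1)) = -(T + ∑ i, T * ξ i) := by
  unfold ln
  rw [Fin.snoc_last]

theorem ln_sum {k : ℕ} (ξ : Fin k → ℝ) (T : ℝ) : ∑ i, ln ξ T i = 0 := by
  rw [Fin.sum_univ_castSucc, Fin.sum_univ_succ, ln_last, Fin.castSucc_zero, ln_zero]
  simp only [ln_succ]
  ring

theorem ln_le {k : ℕ} (ξ : Fin k → ℝ) {T : ℝ} (hT : 0 < T) (i : Fin (k + 2)) :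
    |ln ξ T i| ≤ (1 + ∑ i, |ξ i|) * T := by
  have h0 : ∀ i, |ξ i| ≤ ∑ i, |ξ i| := fun i =>
    Finset.single_le_sum (f := fun i => |ξ i|) (fun _ _ => abs_nonneg _) (mem_univ i)
  have h1 : 0 ≤ ∑ i, |ξ i| := Finset.sum_nonneg fun _ _ => abs_nonneg _
  refine Fin.lastCases ?_ (fun i => ?_) i
  · rw [ln_last, abs_neg]
    refine (abs_add_le _ _).trans ?_
    rw [abs_of_pos hT, add_mul, one_mul, ← Finset.mul_sum, abs_mul, abs_of_pos hT, mul_comm]
    have := Finset.abs_sum_le_sum_abs ξ univ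
    nlinarith
  · refine Fin.cases ?_ (fun i => ?_) i
    · rw [Fin.castSucc_zero, ln_zero, abs_of_pos hT]
      nlinarith
    · rw [ln_succ, abs_mul, abs_of_pos hT]
      have := h0 i
      nlinarith

theorem core {k : ℕ} (hk : 2 ≤ k) {C : ℝ} (hC : 0 < C) {Q0 P0 : ℕ}
    (hP1 : 16 * (k + 1 + 1) ^ 2 ≤ P0) (hP2 : Q0 ≤ P0)
    (b : Fin (k + 2) → ℕ) (hbp : ∀ i, (b i).Prime) (hbi : ∀ i j, i ≠ j → b i ≠ b j)
    (hbP : ∀ i, P0 < b i)
    (hmin : ∀ (e : Fin (k + 2) → ℕ) (ξ : Fin k → ℝ) (H ρ θ : ℝ),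
      0 < H → 0 < ρ → 0 < θ → ((∏ i, (b i) ^ (e i) : ℕ) : ℝ) ≤ H * ρ ^ k →
      (∀ z : Fin (k + 1) → ℤ, z ≠ 0 → (∀ i, (b i : ℤ) ^ (e i) ∣ ∑ l, PP (k + 1) i l * z l) →
        |(z 0 : ℝ)| ≤ θ * H → ∃ i : Fin k, θ * ρ < |(z 0 : ℝ) * ξ i - z i.succ|) →
      ∃ Z : Matrix (Fin (k + 1)) (Fin (k + 1)) ℤ,
        (∀ j i, (b i : ℤ) ^ (e i) ∣ ∑ l, PP (k + 1) i l * Z j l) ∧
        (∀ j, |(Z j 0 : ℝ)| ≤ C / θ ^ k * H) ∧
        (∀ j (i : Fin k), |(Z j 0 : ℝ) * ξ i - Z j i.succ| ≤ C / θ ^ k * ρ) ∧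
        Z.det ≠ 0 ∧ ∀ p : ℕ, p.Prime → Q0 < p → (∀ i, ¬ p ∣ b i) → ¬ (p : ℤ) ∣ Z.det)
    (ξ : Fin k → ℝ)
    (hξ : ∀ η : ℝ, 0 < η → ∀ᶠ j : ℕ in atTop, ∀ e : Fin (k + 2) → ℕ,
      ((∏ i, (b i) ^ (e i) : ℕ) : ℝ) ≤ 2 ^ j →
      ∀ z : Fin (k + 1) → ℤ, z ≠ 0 → (∀ i, (b i : ℤ) ^ (e i) ∣ ∑ l, PP (k + 1) i l * z l) →
        |(z 0 : ℝ)| ≤ ((2 : ℝ) ^ j) ^ (1 - η) →
        ∃ i : Fin k, ((2 : ℝ) ^ j) ^ (-η) * (((∏ i, (b i) ^ (e i) : ℕ) : ℝ) / 2 ^ j) ^ (1 / (k : ℝ)) <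
          |(z 0 : ℝ) * ξ i - z i.succ|)
    (κ : Fin (k + 2) → ℝ) (hκ : ∀ i, 0 < κ i) {τ : ℝ} (hτ : ∑ i, κ i = k + 1 - k * τ)
    (hτ1 : 1 < τ) {η : ℝ} (hη : 0 < η) (hη1 : (2 * k + 3) * η < 1) :
    ∀ᶠ j : ℕ in atTop, ∃ x : Fin (k + 2) → ℤ, Adm x ∧
      |(x 0 : ℝ) - ((2 : ℝ) ^ j) ^ (1 + (k + 3) * η)| ≤ ((2 : ℝ) ^ j) ^ (1 + (k + 3) * η) / 2 ∧
      (∀ i : Fin k, |(x 0 : ℝ) * ξ i - x i.succ.castSucc| ≤
        ((2 : ℝ) ^ j) ^ (1 - τ + (k + 2) * η)) ∧
      ∀ i, ∃ e : ℕ, ((2 : ℝ) ^ j) ^ (κ i) ≤ b i * (b i : ℝ) ^ e ∧ (b i : ℤ) ^ e ∣ x i := by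
  classical
  have hkR : (2 : ℝ) ≤ k := by exact_mod_cast hk
  have hkR0 : (0 : ℝ) < k := by linarith
  set A : ℝ := 1 + ∑ i, |ξ i| with hA
  have hA1 : 1 ≤ A := by
    have : 0 ≤ ∑ i, |ξ i| := Finset.sum_nonneg fun _ _ => abs_nonneg _
    rw [hA]; linarith
  have hξA : ∀ i, |ξ i| ≤ A := fun i => by
    have := Finset.single_le_sum (f := fun i => |ξ i|) (fun _ _ => abs_nonneg _) (mem_univ i)
    rw [hA]
    linarith
  set w : ℤ := (P0.factorial : ℤ) * ∏ i, (b i : ℤ) with hw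
  have hw0 : 0 < w := by
    have h1 : (0 : ℤ) < P0.factorial := by exact_mod_cast Nat.factorial_pos _
    have h2 : 0 < ∏ i, (b i : ℤ) := Finset.prod_pos fun i _ => by
      exact_mod_cast (hbp i).pos
    rw [hw]
    positivity
  have hwR : (0 : ℝ) < w := by exact_mod_cast hw0
  set m : ℕ := k + 1 with hm
  have hmR : (m : ℝ) = k + 1 := by rw [hm]; push_cast; ring
  set C3 : ℝ := w * (m * (2 * A * C)) with hC3
  have hC30 : 0 < C3 := by positivity
  set ω : ℕ := ⌈3 / η⌉₊ with hω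
  have hωη : 3 < η * ((ω : ℝ) + 1) := by
    have h1 : 3 / η ≤ ω := Nat.le_ceil _
    rw [div_le_iff₀ hη] at h1
    nlinarith
  set β : ℝ := 1 + (k + 3) * η with hβ
  have h2 : Tendsto (fun j : ℕ => (2 : ℝ) ^ j) atTop atTop :=
    tendsto_pow_atTop_atTop_of_one_lt one_lt_two
  -- largeness
  have e1 := h2.eventually (ev_le C3 (show 1 + k * η < 3 by nlinarith))
  have e2 := h2.eventually (ev_le (2 * C3 * (A + 2 * m * C3)) (show 2 + (2 * k + 3) * η < 3 by linarith))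
  have e3 := h2.eventually ((tendsto_rpow_atTop hη).eventually_ge_atTop
    (4 * (((m : ℝ) + 1) ^ 2 * (1 + 2 * ω) + 2 ^ (m + 1))))
  have e4 : ∀ᶠ j : ℕ in atTop, ∀ i, (b i : ℝ) ≤ ((2 : ℝ) ^ j) ^ (κ i) :=
    eventually_all.2 fun i => h2.eventually ((tendsto_rpow_atTop (hκ i)).eventually_ge_atTop _)
  have e5 := h2.eventually (ev_le (2 * (2 * m * w * C)) (show 1 + (k + 1) * η < β by
    rw [hβ]; nlinarith))
  have e6 := h2.eventually (ev_le (2 * m * w * C) (show 1 - τ + (k + 1) * η < 1 - τ + (k + 2) * η by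
    nlinarith))
  filter_upwards [e1, e2, e3, e4, e5, e6, hξ η hη, eventually_ge_atTop 1] with j h1 h2 h3 h4 h5 h6 h7 hj
  set H : ℝ := (2 : ℝ) ^ j with hH
  have hH1 : 1 < H := one_lt_pow₀ one_lt_two (by omega)
  have hH0 : 0 < H := by linarith
  -- the exponents
  have hex : ∀ i, ∃ e : ℕ, 1 ≤ e ∧ (b i : ℝ) ^ e ≤ H ^ (κ i) ∧ H ^ (κ i) ≤ b i * (b i : ℝ) ^ e := by
    intro i
    have hb1 : (1 : ℝ) < b i := by exact_mod_cast (hbp i).one_lt
    have hy : (1 : ℝ) ≤ H ^ (κ i) := Real.one_le_rpow hH1.le (hκ i).le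
    obtain ⟨e, he1, he2⟩ := exists_nat_pow_near hy hb1
    refine ⟨e, ?_, he1, ?_⟩
    · by_contra h0
      have h0' : e = 0 := by omega
      rw [h0', zero_add, pow_one] at he2
      have := h4 i
      linarith
    · rw [pow_succ] at he2
      linarith
  choose e he1 he2 he3 using hex
  set Q : ℕ := ∏ i, (b i) ^ (e i) with hQ
  have hQ0 : 0 < Q := Finset.prod_pos fun i _ => pow_pos (hbp i).pos _
  have hQR0 : (0 : ℝ) < Q := by exact_mod_cast hQ0
  have hQle : (Q : ℝ) ≤ H ^ ((k : ℝ) + 1 - k * τ) := by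
    rw [← hτ, Real.rpow_sum_of_pos hH0, hQ]
    push_cast
    exact Finset.prod_le_prod (fun i _ => by positivity) fun i _ => he2 i
  have hQH : (Q : ℝ) ≤ H := by
    refine hQle.trans ?_
    calc H ^ ((k : ℝ) + 1 - k * τ) ≤ H ^ (1 : ℝ) :=
          Real.rpow_le_rpow_of_exponent_le hH1.le (by nlinarith)
      _ = H := Real.rpow_one _
  set ρ : ℝ := ((Q : ℝ) / H) ^ (1 / (k : ℝ)) with hρ
  have hρ0 : 0 < ρ := by positivity
  have hρk : ρ ^ k = Q / H := by
    rw [hρ, ← Real.rpow_natCast, ← Real.rpow_mul (by positivity), one_div_mul_cancel hkR0.ne',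
      Real.rpow_one]
  have hρ1 : ρ ≤ 1 := by
    rw [hρ]
    exact Real.rpow_le_one (by positivity) (by rw [div_le_one hH0]; exact hQH) (by positivity)
  have hρτ : ρ ≤ H ^ (1 - τ) := by
    rw [hρ]
    calc ((Q : ℝ) / H) ^ (1 / (k : ℝ)) ≤ (H ^ ((k : ℝ) - k * τ)) ^ (1 / (k : ℝ)) := by
          apply Real.rpow_le_rpow (by positivity) _ (by positivity)
          rw [div_le_iff₀ hH0]
          refine hQle.trans (le_of_eq ?_)
          rw [← Real.rpow_add_one hH0.ne']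
          congr 1
          ring
      _ = H ^ (1 - τ) := by
          rw [← Real.rpow_mul hH0.le]
          congr 1
          field_simp
  set θ : ℝ := H ^ (-η) with hθ
  have hθ0 : 0 < θ := Real.rpow_pos_of_pos hH0 _
  have hθk : C / θ ^ k = C * H ^ (k * η) := by
    rw [hθ, ← Real.rpow_natCast, ← Real.rpow_mul hH0.le, div_eq_mul_inv, ← Real.rpow_neg hH0.le]
    congr 2
    ring
  obtain ⟨Z, hZ1, hZ2, hZ3, hZ4, hZ5⟩ := hmin e ξ H ρ θ hH0 hρ0 hθ0 (by
      rw [hρk, mul_div_cancel₀ _ hH0.ne']) (by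
      intro z hz hd hz0
      refine h7 e hQH z hz hd ?_
      refine hz0.trans (le_of_eq ?_)
      rw [hθ, ← Real.rpow_add_one hH0.ne']
      congr 1
      ring)
  rw [hθk] at hZ2 hZ3
  have hHk : 0 < H ^ (k * η) := Real.rpow_pos_of_pos hH0 _
  have hHk1 : H ^ (1 + k * η) = H ^ (k * η) * H := by
    rw [add_comm, Real.rpow_add_one hH0.ne']
  set U : ℝ := 2 * A * C * H ^ (1 + k * η) with hU
  have hU0 : 0 ≤ U := by positivity
  have hZU : ∀ j l, |(Z j l : ℝ)| ≤ U := by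
    intro j l
    have g1 := hZ2 j
    have g2 : C * H ^ (k * η) * H ≤ U := by
      rw [hU, hHk1]
      have : 0 < C * (H ^ (k * η) * H) := by positivity
      nlinarith
    refine Fin.cases (g1.trans g2) (fun i => ?_) l
    have g3 := hZ3 j i
    have g4 : |(Z j i.succ : ℝ)| ≤ |(Z j 0 : ℝ) * ξ i| + |(Z j 0 : ℝ) * ξ i - Z j i.succ| := by
      have : (Z j i.succ : ℝ) = (Z j 0 : ℝ) * ξ i - ((Z j 0 : ℝ) * ξ i - Z j i.succ) := by ring
      rw [this]
      refine (abs_sub _ _).trans ?_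
      rw [← this]
    rw [abs_mul] at g4
    have g5 : |(Z j 0 : ℝ)| * |ξ i| ≤ C * H ^ (k * η) * H * A :=
      mul_le_mul g1 (hξA i) (abs_nonneg _) (by positivity)
    have g6 : C * H ^ (k * η) * ρ ≤ C * H ^ (k * η) * H * A := by
      have : ρ ≤ H * A := by nlinarith
      calc C * H ^ (k * η) * ρ ≤ C * H ^ (k * η) * (H * A) :=
            mul_le_mul_of_nonneg_left this (by positivity)
        _ = _ := by ring
    rw [hU, hHk1]
    linarith
  have hwU : (w : ℝ) * (m * U) = C3 * H ^ (1 + k * η) := by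
    rw [hC3, hU]
    ring
  -- K
  set K : ℕ := ⌈H ^ η⌉₊ with hK
  have hHη1 : 1 ≤ H ^ η := Real.one_le_rpow hH1.le hη.le
  have hK1 : H ^ η ≤ K := Nat.le_ceil _
  have hK2 : (K : ℝ) ≤ 2 * H ^ η := by
    have := Nat.ceil_lt_add_one (zero_le_one.trans hHη1)
    rw [hK]
    linarith
  have hKpos : 1 ≤ K := by
    have : (1 : ℝ) ≤ K := hHη1.trans hK1
    exact_mod_cast this
  set T' : ℝ := H ^ β with hT'
  have hT'0 : 0 < T' := Real.rpow_pos_of_pos hH0 _
  have hKH : (K : ℝ) * H ^ (1 + k * η) ≤ 2 * H ^ (1 + (k + 1) * η) := by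
    calc (K : ℝ) * H ^ (1 + k * η) ≤ 2 * H ^ η * H ^ (1 + k * η) :=
          mul_le_mul_of_nonneg_right hK2 (Real.rpow_nonneg hH0.le _)
      _ = 2 * H ^ (1 + (k + 1) * η) := by
          rw [mul_assoc, ← Real.rpow_add hH0]
          congr 2
          ring
  obtain ⟨x, hx1, hx2, hx3, hx4, s, hs1, hs2⟩ := exists_point' (m := m) (by omega) (P0 := P0) hP1 b
    hbp hbi hbP w hw e he1 Z (fun j i => hZ1 j i) hU0 hZU hZ4 (fun p hp hlt hpb =>
      hZ5 p hp (by omega) hpb) (K := K) hKpos (Y := A * T') (ln ξ T') (ln_sum ξ T')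
      (fun i => ln_le ξ hT'0 i) (X := (2 ^ j) ^ 3) (ω := ω) (by
        rw [hwU]
        push_cast
        rw [← hH]
        refine h1.trans (le_of_eq ?_)
        rw [← Real.rpow_natCast]
        norm_num) (by
        rw [hwU]
        push_cast
        rw [← hH]
        have g1 : (m : ℝ) * K * (C3 * H ^ (1 + k * η)) ≤ 2 * m * C3 * T' := by
          calc (m : ℝ) * K * (C3 * H ^ (1 + k * η)) = m * C3 * (K * H ^ (1 + k * η)) := by ring
            _ ≤ m * C3 * (2 * H ^ (1 + (k + 1) * η)) :=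
                mul_le_mul_of_nonneg_left hKH (by positivity)
            _ ≤ m * C3 * (2 * T') := by
                apply mul_le_mul_of_nonneg_left _ (by positivity)
                apply mul_le_mul_of_nonneg_left _ (by norm_num)
                exact Real.rpow_le_rpow_of_exponent_le hH1.le (by rw [hβ]; nlinarith)
            _ = _ := by ring
        calc 2 * (C3 * H ^ (1 + k * η)) * (A * T' + m * K * (C3 * H ^ (1 + k * η))) ≤
              2 * (C3 * H ^ (1 + k * η)) * (A * T' + 2 * m * C3 * T') :=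
              mul_le_mul_of_nonneg_left (by linarith) (by positivity)
          _ = 2 * C3 * (A + 2 * m * C3) * (H ^ (1 + k * η) * T') := by ring
          _ = 2 * C3 * (A + 2 * m * C3) * H ^ (2 + (2 * k + 3) * η) := by
              rw [hT', ← Real.rpow_add hH0]
              congr 2
              rw [hβ]
              ring
          _ ≤ H ^ (3 : ℝ) := h2
          _ = H ^ 3 := by
              rw [← Real.rpow_natCast]
              norm_num) (by
        have g1 : H ^ (3 : ℝ) < (K : ℝ) ^ (ω + 1) := by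
          calc H ^ (3 : ℝ) < H ^ (η * ((ω : ℝ) + 1)) := Real.rpow_lt_rpow_of_exponent_lt hH1 hωη
            _ = (H ^ η) ^ (ω + 1) := by
                rw [← Real.rpow_natCast (H ^ η), ← Real.rpow_mul hH0.le]
                push_cast
                rfl
            _ ≤ (K : ℝ) ^ (ω + 1) := pow_le_pow_left₀ (by positivity) hK1 _
        have g2 : H ^ (3 : ℝ) = H ^ 3 := by
          rw [← Real.rpow_natCast]
          norm_num
        rw [g2, hH] at g1
        exact_mod_cast g1) (by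
        have g1 := h3.trans hK1
        exact_mod_cast g1)
  have hGA : ∀ (a : Fin (k + 1)) (l : Fin m), (GA w Z a.castSucc l : ℝ) = w * Z l a := by
    intro a l
    unfold GA
    rw [PP_castSucc]
    push_cast
    rfl
  refine ⟨x, ⟨hx1, hx3, hx4⟩, ?_, fun i => ?_, fun i => ⟨e i, he3 i, hx2 i⟩⟩
  · have g1 := hs2 0
    rw [ln_zero] at g1
    rw [g1]
    refine (Finset.abs_sum_le_sum_abs _ _).trans ?_
    have g2 : ∀ l ∈ (univ : Finset (Fin m)), |s l * (GA w Z 0 l : ℝ)| ≤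
        K * (w * (C * H ^ (k * η) * H)) := by
      intro l _
      have g3 := hGA 0 l
      rw [Fin.castSucc_zero] at g3
      rw [g3, abs_mul, abs_mul, abs_of_pos hwR]
      exact mul_le_mul (hs1 l) (mul_le_mul_of_nonneg_left (hZ2 l) hwR.le) (by positivity)
        (by positivity)
    refine (Finset.sum_le_card_nsmul _ _ _ g2).trans ?_
    rw [Finset.card_univ, Fintype.card_fin, nsmul_eq_mul]
    calc (m : ℝ) * (K * (w * (C * H ^ (k * η) * H))) = m * w * C * (K * H ^ (1 + k * η)) := by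
          rw [hHk1]; ring
      _ ≤ m * w * C * (2 * H ^ (1 + (k + 1) * η)) :=
          mul_le_mul_of_nonneg_left hKH (by positivity)
      _ = (2 * (2 * m * w * C) * H ^ (1 + (k + 1) * η)) / 2 := by ring
      _ ≤ T' / 2 := by linarith
  · have g1 := hs2 0
    have g2 := hs2 i.succ.castSucc
    rw [ln_zero] at g1
    rw [ln_succ] at g2
    have g3 : (x 0 : ℝ) * ξ i - x i.succ.castSucc =
        ∑ l, s l * (w * ((Z l 0 : ℝ) * ξ i - Z l i.succ)) := by
      have g4 : (x 0 : ℝ) * ξ i - x i.succ.castSucc =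
          ((x 0 : ℝ) - T') * ξ i - ((x i.succ.castSucc : ℝ) - T' * ξ i) := by ring
      rw [g4, g1, g2, Finset.sum_mul, ← Finset.sum_sub_distrib]
      refine Finset.sum_congr rfl fun l _ => ?_
      have g5 := hGA 0 l
      rw [Fin.castSucc_zero] at g5
      rw [g5, hGA i.succ l]
      ring
    rw [g3]
    refine (Finset.abs_sum_le_sum_abs _ _).trans ?_
    have g2 : ∀ l ∈ (univ : Finset (Fin m)), |s l * (w * ((Z l 0 : ℝ) * ξ i - Z l i.succ))| ≤
        K * (w * (C * H ^ (k * η) * H ^ (1 - τ))) := by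
      intro l _
      rw [abs_mul, abs_mul, abs_of_pos hwR]
      refine mul_le_mul (hs1 l) (mul_le_mul_of_nonneg_left ((hZ3 l i).trans ?_) hwR.le)
        (by positivity) (by positivity)
      exact mul_le_mul_of_nonneg_left hρτ (by positivity)
    refine (Finset.sum_le_card_nsmul _ _ _ g2).trans ?_
    rw [Finset.card_univ, Fintype.card_fin, nsmul_eq_mul]
    calc (m : ℝ) * (K * (w * (C * H ^ (k * η) * H ^ (1 - τ)))) =
          m * w * C * (H ^ (k * η) * H ^ (1 - τ)) * K := by ring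
      _ ≤ m * w * C * (H ^ (k * η) * H ^ (1 - τ)) * (2 * H ^ η) :=
          mul_le_mul_of_nonneg_left hK2 (by positivity)
      _ = 2 * m * w * C * (H ^ (k * η) * H ^ (1 - τ) * H ^ η) := by ring
      _ = 2 * m * w * C * H ^ (1 - τ + (k + 1) * η) := by
          rw [← Real.rpow_add hH0, ← Real.rpow_add hH0]
          congr 2
          ring
      _ ≤ _ := h6

end Pool.Agent.H65NT
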