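import Pool.Agent.H65NT.Stm2
import Pool.Agent.H438R2.Nest

/-!
# Mass transference for countably many targets
-/

set_option autoImplicit false

namespace Pool.Agent.H65NT

open Finset Filter Topology MeasureTheory Metric
open scoped ENNReal

/-- a separated set of points of `E` that is large if `E` has large measure -/
theorem sep_set {k : ℕ} (E : Set (Fin k → ℝ)) (x : Fin k → ℝ) {R r : ℝ}
    (hR : 0 < R) (hr : 0 < r) (hE : E ⊆ closedBall x R)
    (hvol : ENNReal.ofReal (R ^ k) ≤ volume E) :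
    ∃ S : Finset (Fin k → ℝ), (∀ y ∈ S, y ∈ E) ∧ (∀ y ∈ S, ∀ y' ∈ S, y ≠ y' → r < dist y y') ∧
      R ^ k ≤ S.card * (2 * r) ^ k := by
  classical
  -- bounded size of the separated sets
  obtain ⟨N, hN⟩ : ∃ N : ℕ, ∀ S : Finset (Fin k → ℝ), (∀ y ∈ S, y ∈ E) →
      (∀ y ∈ S, ∀ y' ∈ S, y ≠ y' → r < dist y y') → S.card ≤ N := by
    obtain ⟨N, hN⟩ := exists_nat_ge (((2 * (R + r)) / r) ^ k)
    refine ⟨N, fun S hS1 hS2 => ?_⟩
    have h1 : (S.card : ℝ) * r ^ k ≤ (2 * (R + r)) ^ k := by
      have h2 : volume (⋃ y ∈ S, closedBall y (r / 2)) ≤ volume (closedBall x (R + r)) := by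
        apply measure_mono
        intro z hz
        simp only [Set.mem_iUnion] at hz
        obtain ⟨y, hy, hz⟩ := hz
        rw [mem_closedBall] at hz ⊢
        have h3 := mem_closedBall.1 (hE (hS1 y hy))
        have := dist_triangle z y x
        linarith
      rw [measure_biUnion_finset] at h2
      · have h3 : ∀ y ∈ S, volume (closedBall y (r / 2)) = ENNReal.ofReal (r ^ k) := by
          intro y _
          rw [Real.volume_pi_closedBall _ (by positivity), Fintype.card_fin]
          congr 2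
          ring
        rw [Finset.sum_congr rfl h3, Finset.sum_const, nsmul_eq_mul,
          Real.volume_pi_closedBall _ (by positivity), Fintype.card_fin] at h2
        rw [← ENNReal.ofReal_natCast, ← ENNReal.ofReal_mul (by positivity)] at h2
        exact (ENNReal.ofReal_le_ofReal_iff (by positivity)).1 h2
      · intro y hy y' hy' hne
        rw [Function.onFun, Set.disjoint_left]
        intro z hz hz'
        rw [mem_closedBall] at hz hz'
        have h3 := hS2 y hy y' hy' hne
        have h4 := dist_triangle y z y'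
        rw [dist_comm y z] at h4
        linarith
      · intro y _
        exact measurableSet_closedBall
    have h2 : (S.card : ℝ) ≤ ((2 * (R + r)) / r) ^ k := by
      rw [div_pow, le_div_iff₀ (by positivity)]
      exact h1
    exact_mod_cast h2.trans hN
  -- a maximal one
  have hex : ∃ n : ℕ, ∃ S : Finset (Fin k → ℝ), (∀ y ∈ S, y ∈ E) ∧
      (∀ y ∈ S, ∀ y' ∈ S, y ≠ y' → r < dist y y') ∧ S.card = n := ⟨0, ∅, by simp, by simp, rfl⟩
  set n := Nat.findGreatest (fun n => ∃ S : Finset (Fin k → ℝ), (∀ y ∈ S, y ∈ E) ∧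
      (∀ y ∈ S, ∀ y' ∈ S, y ≠ y' → r < dist y y') ∧ S.card = n) N with hn
  obtain ⟨S, hS1, hS2, hS3⟩ := Nat.findGreatest_spec (P := fun n => ∃ S : Finset (Fin k → ℝ),
    (∀ y ∈ S, y ∈ E) ∧ (∀ y ∈ S, ∀ y' ∈ S, y ≠ y' → r < dist y y') ∧ S.card = n)
    (Nat.zero_le N) ⟨∅, by simp, by simp, rfl⟩
  rw [← hn] at hS3
  refine ⟨S, hS1, hS2, ?_⟩
  have hcov : E ⊆ ⋃ y ∈ S, closedBall y r := by
    intro z hz
    by_contra hcon
    simp only [Set.mem_iUnion, not_exists] at hcon
    have hzS : z ∉ S := by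
      intro h
      exact hcon z h (mem_closedBall_self hr.le)
    have h1 : (insert z S).card = n + 1 := by
      rw [Finset.card_insert_of_notMem hzS, hS3]
    have h2 : ∀ y ∈ insert z S, y ∈ E := by
      intro y hy
      rcases Finset.mem_insert.1 hy with rfl | hy
      · exact hz
      · exact hS1 y hy
    have h3 : ∀ y ∈ insert z S, ∀ y' ∈ insert z S, y ≠ y' → r < dist y y' := by
      intro y hy y' hy' hne
      rcases Finset.mem_insert.1 hy with h5 | h5
      · rcases Finset.mem_insert.1 hy' with h6 | h6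
        · exact absurd (h5.trans h6.symm) hne
        · have := hcon y' h6
          rw [mem_closedBall, not_le] at this
          rw [h5]
          exact this
      · rcases Finset.mem_insert.1 hy' with h6 | h6
        · have := hcon y h5
          rw [mem_closedBall, not_le, dist_comm] at this
          rw [h6]
          exact this
        · exact hS2 y h5 y' h6 hne
    have h4 : n + 1 ≤ N := by rw [← h1]; exact hN _ h2 h3
    have h5 := Nat.le_findGreatest (P := fun n => ∃ S : Finset (Fin k → ℝ),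
      (∀ y ∈ S, y ∈ E) ∧ (∀ y ∈ S, ∀ y' ∈ S, y ≠ y' → r < dist y y') ∧ S.card = n) h4
      ⟨insert z S, h2, h3, h1⟩
    rw [← hn] at h5
    omega
  have h1 := hvol.trans ((measure_mono hcov).trans (measure_biUnion_finset_le S _))
  have h3 : ∀ y ∈ S, volume (closedBall y r) = ENNReal.ofReal ((2 * r) ^ k) := by
    intro y _
    rw [Real.volume_pi_closedBall _ hr.le, Fintype.card_fin]
  rw [Finset.sum_congr rfl h3, Finset.sum_const, nsmul_eq_mul, ← ENNReal.ofReal_natCast,
    ← ENNReal.ofReal_mul (by positivity)] at h1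
  exact (ENNReal.ofReal_le_ofReal_iff (by positivity)).1 h1

/-- packing: few separated points in a ball -/
theorem pack {k : ℕ} (S : Finset (Fin k → ℝ)) (x : Fin k → ℝ) {R r : ℝ} (hR : 0 < R) (hr : 0 < r)
    (hS : ∀ y ∈ S, dist y x ≤ R) (hsep : ∀ y ∈ S, ∀ y' ∈ S, y ≠ y' → 2 * r < dist y y') :
    (S.card : ℝ) * (2 * r) ^ k ≤ (2 * (R + r)) ^ k := by
  classical
  have h2 : volume (⋃ y ∈ S, closedBall y r) ≤ volume (closedBall x (R + r)) := by
    apply measure_mono
    intro z hz
    simp only [Set.mem_iUnion] at hz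
    obtain ⟨y, hy, hz⟩ := hz
    rw [mem_closedBall] at hz ⊢
    have h3 := hS y hy
    have := dist_triangle z y x
    linarith
  rw [measure_biUnion_finset] at h2
  · have h3 : ∀ y ∈ S, volume (closedBall y r) = ENNReal.ofReal ((2 * r) ^ k) := by
      intro y _
      rw [Real.volume_pi_closedBall _ hr.le, Fintype.card_fin]
    rw [Finset.sum_congr rfl h3, Finset.sum_const, nsmul_eq_mul,
      Real.volume_pi_closedBall _ (by positivity), Fintype.card_fin] at h2
    rw [← ENNReal.ofReal_natCast, ← ENNReal.ofReal_mul (by positivity)] at h2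
    exact (ENNReal.ofReal_le_ofReal_iff (by positivity)).1 h2
  · intro y hy y' hy' hne
    rw [Function.onFun, Set.disjoint_left]
    intro z hz hz'
    rw [mem_closedBall] at hz hz'
    have h3 := hsep y hy y' hy' hne
    have h4 := dist_triangle y z y'
    rw [dist_comm y z] at h4
    linarith
  · intro y _
    exact measurableSet_closedBall

theorem step {k : ℕ} (hk : 1 ≤ k) {s : ℝ} (hs0 : 0 < s) (hsk : s ≤ k) (V : Set (Fin k → ℝ))
    (ρ q : ℕ → ℝ) (hq : ∀ j, 0 < q j) (hqρ : ∀ j, q j ≤ ρ j) (hρ : Tendsto ρ atTop (𝓝 0))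
    (hbig : Tendsto (fun j => (q j) ^ s / (ρ j) ^ k) atTop atTop)
    (hae : ∀ᵐ ξ : Fin k → ℝ, ∀ᶠ j in atTop, ∃ c : Fin k → ℝ, (∀ i, |ξ i - c i| ≤ ρ j) ∧
      closedBall c (q j) ⊆ V) (x : Fin k → ℝ) {R : ℝ} (hR : 0 < R) {δ : ℝ} (hδ : 0 < δ) :
    ∃ (r : ℝ) (F : Finset (Fin k → ℝ)), 0 < r ∧ r ≤ δ ∧
      (∀ y ∈ F, closedBall y r ⊆ closedBall x R ∧ closedBall y r ⊆ V) ∧
      4 * (R / r) ^ s ≤ F.card ∧
      ∀ (U : Set (Fin k → ℝ)) (u : ℝ), 0 < u → (∀ x ∈ U, ∀ y ∈ U, dist x y ≤ u) →
        ∀ (G : Finset (Fin k → ℝ)), G ⊆ F → (∀ y ∈ G, (U ∩ closedBall y r).Nonempty) →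
          (u < r → G.card ≤ 1) ∧
          (r ≤ u → u ≤ R → (G.card : ℝ) ≤ F.card / (4 * (1 / (8 * 64 ^ k))) * (u / R) ^ s) := by
  classical
  -- a uniform scale
  set E : ℕ → Set (Fin k → ℝ) := fun J => {ξ | ξ ∈ closedBall x (R / 2) ∧ ∀ j, J ≤ j →
    ∃ c : Fin k → ℝ, (∀ i, |ξ i - c i| ≤ ρ j) ∧ closedBall c (q j) ⊆ V} with hE
  have hmono : Monotone E := by
    intro J J' hJ ξ hξ
    exact ⟨hξ.1, fun j hj => hξ.2 j (hJ.trans hj)⟩
  have hvol : volume (⋃ J, E J) = volume (closedBall x (R / 2)) := by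
    apply measure_congr
    filter_upwards [hae] with ξ hξ
    apply propext
    constructor
    · intro h
      obtain ⟨J, hJ⟩ := Set.mem_iUnion.1 h
      exact hJ.1
    · intro h
      obtain ⟨J, hJ⟩ := eventually_atTop.1 hξ
      exact Set.mem_iUnion.2 ⟨J, h, hJ⟩
  have hRk : (0 : ℝ) < R ^ k := by positivity
  have hvol' : volume (closedBall x (R / 2)) = ENNReal.ofReal (R ^ k) := by
    rw [Real.volume_pi_closedBall _ (by positivity), Fintype.card_fin]
    congr 2
    ring
  obtain ⟨J, hJ⟩ : ∃ J, ENNReal.ofReal ((R / 2) ^ k) ≤ volume (E J) := by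
    by_contra hcon
    push Not at hcon
    have h1 : volume (⋃ J, E J) ≤ ENNReal.ofReal ((R / 2) ^ k) := by
      rw [hmono.measure_iUnion]
      exact iSup_le fun J => (hcon J).le
    rw [hvol, hvol'] at h1
    have h2 := (ENNReal.ofReal_le_ofReal_iff (by positivity)).1 h1
    rw [div_pow] at h2
    have h3 : (2 : ℝ) ≤ 2 ^ k := by
      calc (2 : ℝ) = 2 ^ 1 := (pow_one _).symm
        _ ≤ 2 ^ k := pow_le_pow_right₀ (by norm_num) hk
    rw [le_div_iff₀ (by positivity)] at h2
    nlinarith
  -- the scale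
  have e1 : ∀ᶠ j in atTop, ρ j < min (R / 8) δ :=
    hρ.eventually_lt_const (lt_min (by positivity) hδ)
  have e2 : ∀ᶠ j in atTop, 4 * R ^ s * 32 ^ k / R ^ k ≤ (q j) ^ s / (ρ j) ^ k :=
    hbig.eventually_ge_atTop _
  obtain ⟨j, hj1, hj2, hjJ⟩ := (e1.and (e2.and (eventually_ge_atTop J))).exists
  have hq0 := hq j
  have hqj := hqρ j
  set r : ℝ := q j with hr
  set P : ℝ := ρ j with hP
  have hP0 : 0 < P := hq0.trans_le hqj
  have hPR : P < R / 8 := hj1.trans_le (min_le_left _ _)
  have hPδ : P < δ := hj1.trans_le (min_le_right _ _)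
  obtain ⟨S, hS1, hS2, hS3⟩ := sep_set (E J) x (R := R / 2) (r := 8 * P) (by positivity)
    (by positivity) (fun ξ hξ => hξ.1) hJ
  have hcen : ∀ y ∈ S, ∃ c : Fin k → ℝ, dist y c ≤ P ∧ closedBall c r ⊆ V := by
    intro y hy
    obtain ⟨c, hc1, hc2⟩ := (hS1 y hy).2 j hjJ
    refine ⟨c, ?_, hc2⟩
    rw [dist_pi_le_iff hP0.le]
    intro i
    rw [Real.dist_eq]
    exact hc1 i
  choose! c hc1 hc2 using hcen
  have hsep : ∀ y ∈ S, ∀ y' ∈ S, y ≠ y' → 6 * P < dist (c y) (c y') := by
    intro y hy y' hy' hne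
    have h1 := hS2 y hy y' hy' hne
    have h2 := hc1 y hy
    have h3 := hc1 y' hy'
    have h4 := dist_triangle4 y (c y) (c y') y'
    rw [dist_comm (c y') y'] at h4
    linarith
  have hinj : Set.InjOn c S := by
    intro y hy y' hy' he
    by_contra hne
    have := hsep y hy y' hy' hne
    rw [he, dist_self] at this
    linarith
  have hcard : (S.image c).card = S.card := Finset.card_image_of_injOn hinj
  have hsep' : ∀ z ∈ S.image c, ∀ z' ∈ S.image c, z ≠ z' → 6 * P < dist z z' := by
    intro z hz z' hz' hne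
    obtain ⟨y, hy, rfl⟩ := Finset.mem_image.1 hz
    obtain ⟨y', hy', rfl⟩ := Finset.mem_image.1 hz'
    exact hsep y hy y' hy' fun h => hne (by rw [h])
  -- the number of the points
  have hN : R ^ k ≤ S.card * (32 * P) ^ k := by
    have h1 : (R / 2) ^ k * 2 ^ k ≤ S.card * (2 * (8 * P)) ^ k * 2 ^ k :=
      mul_le_mul_of_nonneg_right hS3 (by positivity)
    rw [← mul_pow, mul_assoc, ← mul_pow] at h1
    have e1 : R / 2 * 2 = R := by ring
    have e2 : 2 * (8 * P) * 2 = 32 * P := by ring
    rwa [e1, e2] at h1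
  have hPk : 0 < P ^ k := by positivity
  have hrs : 0 < r ^ s := Real.rpow_pos_of_pos hq0 _
  have hRs : 0 < R ^ s := Real.rpow_pos_of_pos hR _
  have hN4 : 4 * (R / r) ^ s ≤ S.card := by
    rw [div_le_div_iff₀ hRk hPk] at hj2
    rw [Real.div_rpow hR.le hq0.le, mul_pow] at *
    have h1 : 4 * R ^ s * (32 ^ k * P ^ k) ≤ r ^ s * (S.card * (32 ^ k * P ^ k)) := by
      calc 4 * R ^ s * (32 ^ k * P ^ k) = 4 * R ^ s * 32 ^ k * P ^ k := by ring
        _ ≤ r ^ s * R ^ k := hj2
        _ ≤ _ := mul_le_mul_of_nonneg_left hN hrs.le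
    have h2 : 4 * R ^ s ≤ r ^ s * S.card := by
      have h3 : (0 : ℝ) < 32 ^ k * P ^ k := by positivity
      have h4 : 4 * R ^ s * (32 ^ k * P ^ k) ≤ (r ^ s * S.card) * (32 ^ k * P ^ k) := by
        rw [mul_assoc (r ^ s)]
        exact h1
      exact le_of_mul_le_mul_right h4 h3
    rw [← mul_div_assoc, div_le_iff₀ hrs]
    linarith
  refine ⟨r, S.image c, hq0, by linarith, ?_, by rw [hcard]; exact hN4, ?_⟩
  · intro z hz
    obtain ⟨y, hy, rfl⟩ := Finset.mem_image.1 hz
    refine ⟨?_, hc2 y hy⟩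
    intro w hw
    rw [mem_closedBall] at hw ⊢
    have h1 := mem_closedBall.1 (hS1 y hy).1
    have h2 := hc1 y hy
    have h3 := dist_triangle4 w (c y) y x
    rw [dist_comm (c y) y] at h3
    linarith
  · intro U u hu hU G hG hGU
    rw [hcard]
    have hdist : ∀ y ∈ G, ∀ y' ∈ G, dist y y' ≤ 2 * r + u := by
      intro y hy y' hy'
      obtain ⟨w, hw1, hw2⟩ := hGU y hy
      obtain ⟨w', hw1', hw2'⟩ := hGU y' hy'
      rw [mem_closedBall] at hw2 hw2'
      have h1 := hU w hw1 w' hw1'
      have h2 := dist_triangle4 y w w' y'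
      rw [dist_comm y w] at h2
      linarith
    have hone : u ≤ P → G.card ≤ 1 := by
      intro huP
      rw [Finset.card_le_one]
      intro y hy y' hy'
      by_contra hne
      have h1 := hsep' y (hG hy) y' (hG hy') hne
      have h2 := hdist y hy y' hy'
      linarith
    refine ⟨fun hur => hone (by linarith), fun hru huR => ?_⟩
    have hus : 0 < (u / R) ^ s := Real.rpow_pos_of_pos (by positivity) _
    have hc0 : (S.card : ℝ) / (4 * (1 / (8 * 64 ^ k))) * (u / R) ^ s =
        2 * 64 ^ k * (S.card * (u / R) ^ s) := by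
      field_simp
      ring
    rw [hc0]
    have h32 : (1 : ℝ) ≤ 64 ^ k := one_le_pow₀ (by norm_num)
    rcases le_or_gt u P with huP | huP
    · have h1 : (G.card : ℝ) ≤ 1 := by exact_mod_cast hone huP
      have h2 : (4 : ℝ) ≤ S.card * (u / R) ^ s := by
        have h3 : (R / r) ^ s * (u / R) ^ s = (u / r) ^ s := by
          rw [← Real.mul_rpow (by positivity) (by positivity)]
          congr 1
          field_simp
        have h4 : (1 : ℝ) ≤ (u / r) ^ s :=
          Real.one_le_rpow ((one_le_div hq0).2 hru) hs0.le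
        have h5 := mul_le_mul_of_nonneg_right hN4 hus.le
        rw [mul_assoc, h3] at h5
        linarith
      nlinarith
    · rcases G.eq_empty_or_nonempty with rfl | ⟨y0, hy0⟩
      · rw [Finset.card_empty]
        push_cast
        positivity
      · have h1 := pack G y0 (R := 3 * u) (r := 3 * P) (by positivity) (by positivity)
          (fun y hy => by
            have := hdist y hy y0 hy0
            linarith) (fun y hy y' hy' hne => by
            have := hsep' y (hG hy) y' (hG hy') hne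
            linarith)
        have h2 : (G.card : ℝ) * (6 * P) ^ k ≤ (12 * u) ^ k := by
          have h3 : (2 * (3 * u + 3 * P)) ^ k ≤ (12 * u) ^ k :=
            pow_le_pow_left₀ (by positivity) (by linarith) _
          have h4 : 2 * (3 * P) = 6 * P := by ring
          rw [h4] at h1
          exact h1.trans h3
        have h3 : (u / R) ^ k ≤ (u / R) ^ s := by
          rw [← Real.rpow_natCast (u / R) k]
          exact Real.rpow_le_rpow_of_exponent_ge (by positivity) ((div_le_one hR).2 huR) hsk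
        have h4 : (u : ℝ) ^ k ≤ S.card * (32 * P) ^ k * (u / R) ^ s := by
          calc u ^ k = R ^ k * (u / R) ^ k := by
                rw [← mul_pow]
                congr 1
                field_simp
            _ ≤ R ^ k * (u / R) ^ s := mul_le_mul_of_nonneg_left h3 hRk.le
            _ ≤ _ := mul_le_mul_of_nonneg_right hN hus.le
        have h5 : (G.card : ℝ) * (6 * P) ^ k ≤
            (32 ^ k * (S.card * (u / R) ^ s) * 2) * (6 * P) ^ k * 2 ^ k / 2 := by
          calc (G.card : ℝ) * (6 * P) ^ k ≤ (12 * u) ^ k := h2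
            _ = 12 ^ k * u ^ k := mul_pow _ _ _
            _ ≤ 12 ^ k * (S.card * (32 * P) ^ k * (u / R) ^ s) :=
                mul_le_mul_of_nonneg_left h4 (by positivity)
            _ = _ := by
                rw [mul_pow, mul_pow]
                have : (12 : ℝ) ^ k = 6 ^ k * 2 ^ k := by rw [← mul_pow]; norm_num
                rw [this]
                ring
        have h6 : (G.card : ℝ) ≤ 2 ^ k * (32 ^ k * (S.card * (u / R) ^ s)) := by
          have h7 : (0 : ℝ) < (6 * P) ^ k := by positivity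
          refine le_of_mul_le_mul_right (h5.trans (le_of_eq ?_)) h7
          ring
        refine h6.trans ?_
        have h8 : (2 : ℝ) ^ k * 32 ^ k = 64 ^ k := by rw [← mul_pow]; norm_num
        rw [← mul_assoc, h8]
        have h9 : (0 : ℝ) ≤ 64 ^ k * (S.card * (u / R) ^ s) := by positivity
        linarith

theorem low : S_LOW := by
  classical
  intro k s V hk hs0 hsk hV
  have hκ : (1 : ℝ) / (8 * 64 ^ k) < 1 := by
    rw [div_lt_one (by positivity)]
    have : (1 : ℝ) ≤ 64 ^ k := one_le_pow₀ (by norm_num)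
    linarith
  have hnest := Pool.Agent.H438R2.nest (X := Fin k → ℝ) s (1 / (8 * 64 ^ k)) hs0 (by positivity) hκ
    {b | 0 < b.2} V (fun b hb => hb)
    (fun b hb j δ hδ => by
      obtain ⟨ρ, q, h1, h2, h3, h4, h5⟩ := hV j
      obtain ⟨r, F, hr, hrδ, hF, hN, hG⟩ := step hk hs0 hsk (V j) ρ q h1 h2 h3 h4 h5 b.1 hb hδ
      exact ⟨r, F, hr, hrδ, fun y hy => ⟨hr, (hF y hy).1, (hF y hy).2⟩, hN, hG⟩)
    (0, 1) (by norm_num)
  have hne : μH[s] {ξ : Fin k → ℝ | ∀ n, ξ ∈ V n} ≠ 0 := by
    intro h0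
    exact hnest (measure_mono_null Set.inter_subset_left h0)
  have hcoe : ((Real.toNNReal s : NNReal) : ℝ) = s := Real.coe_toNNReal _ hs0.le
  exact le_dimH_of_hausdorffMeasure_ne_zero (d := Real.toNNReal s) (by rw [hcoe]; exact hne)

end Pool.Agent.H65NT
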