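import Pool.Agent.H65NT.Exp
import Pool.Agent.H65NT.Low

/-!
# The Hausdorff dimension of the directions with given exponents of the radicals
-/

set_option autoImplicit false

namespace Pool.Agent.H65NT

open Finset Filter Topology MeasureTheory
open scoped ENNReal
open Pool.Agent.H34x.NT (ev_le)

/-- the exponent used for the mass transference -/
theorem choose_t {k : ℕ} (hk : 2 ≤ k) {t S s : ℝ} (ht : 1 < t) (hS1 : (k : ℝ) + 1 ≤ S)
    (hS2 : S ≤ k + 2) (hsk : s < k) (hst : s * t < S - 1) :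
    ∃ t0 : ℝ, 1 ≤ t0 ∧ t0 < 1 + 1 / k ∧ 1 + k * t0 ≤ S ∧ s * t < k * t0 ∧ t0 ≤ t := by
  have hkR : (2 : ℝ) ≤ k := by exact_mod_cast hk
  have hk0 : (0 : ℝ) < k := by linarith
  obtain ⟨v, hv⟩ : ∃ v : ℝ, v = (s * t / k + (S - 1) / k) / 2 := ⟨_, rfl⟩
  have h1 : s * t / k < (S - 1) / k := by gcongr
  have hv1 : v < (S - 1) / k := by rw [hv]; linarith
  have hv2 : s * t / k < v := by rw [hv]; linarith
  have hv1' : k * v < S - 1 := by
    rw [lt_div_iff₀ hk0] at hv1
    linarith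
  have hv2' : s * t < k * v := by
    rw [div_lt_iff₀ hk0] at hv2
    linarith
  have hk1 : k * (1 + 1 / k) = (k : ℝ) + 1 := by field_simp
  have ha1 : k * max 1 v ≤ S - 1 := by
    rcases max_choice 1 v with h | h <;> rw [h] <;> linarith
  have ha2 : s * t < k * max 1 v := by
    have : v ≤ max 1 v := le_max_right _ _
    nlinarith
  have ha3 : max 1 v < 1 + 1 / k := by
    have h2 : (0 : ℝ) < 1 / k := by positivity
    refine max_lt (by linarith) ?_
    have h3 : k * v < k * (1 + 1 / k) := by rw [hk1]; linarith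
    exact lt_of_mul_lt_mul_left h3 hk0.le
  refine ⟨min (max 1 v) t, le_min (le_max_left _ _) ht.le, (min_le_left _ _).trans_lt ha3, ?_, ?_,
    min_le_right _ _⟩
  · have : k * min (max 1 v) t ≤ k * max 1 v := mul_le_mul_of_nonneg_left (min_le_left _ _) hk0.le
    linarith
  · rcases min_choice (max 1 v) t with h | h <;> rw [h]
    · exact ha2
    · exact mul_lt_mul_of_pos_right hsk (by linarith)

/-- **Lower bound for the dimension.** -/
theorem dim_lower (hN : S_NEC) (hTu : S_TUBE) {k : ℕ} (hk : 2 ≤ k) {t : ℝ} (ht : 1 < t)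
    (z : Fin (k + 2) → ℝ) (hz1 : ∀ j, z j ≤ 1) (hz2 : (k : ℝ) + 1 ≤ ∑ j, z j) {s : ℝ}
    (hs0 : 0 < s) (hsk : s < k) (hst : s < (∑ j, z j - 1) / t) :
    ENNReal.ofReal s ≤ dimH {ξ : Fin k → ℝ | LimPt ξ t z} := by
  have ht0 : 0 < t := by linarith
  have hS2 : ∑ j, z j ≤ k + 2 := by
    have h1 : ∑ j, z j ≤ ∑ _j : Fin (k + 2), (1 : ℝ) := Finset.sum_le_sum fun j _ => hz1 j
    simpa using h1
  rw [lt_div_iff₀ ht0] at hst
  obtain ⟨t0, h1, h2, h3, h4, h5⟩ := choose_t hk ht hz2 hS2 hsk hst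
  obtain ⟨b, hbp, hae⟩ := typ_ae hN hTu k hk
  set V : ℕ → Set (Fin k → ℝ) := fun n => {ξ | ∃ x : Fin (k + 2) → ℤ, Adm x ∧ Near ξ t x ∧
    (n : ℝ) ≤ x 0 ∧ ∀ i, |ex x i - z i| ≤ 1 / (n + 1)} with hV
  have hmain := low k s V (by omega) hs0 hsk.le (fun n => by
    obtain ⟨β, hβ0, hsuff⟩ := suff hk h1 h2 z hz1 h3 (ε := 1 / ((n : ℝ) + 1)) (by positivity)
    obtain ⟨T, hT⟩ : ∃ T : ℕ → ℝ, T = fun j => ((2 : ℝ) ^ j) ^ β := ⟨_, rfl⟩
    have hT1 : ∀ j, 1 ≤ T j := by
      intro j
      rw [hT]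
      exact Real.one_le_rpow (one_le_pow₀ one_le_two) hβ0.le
    have hT0 : ∀ j, 0 < T j := fun j => by have := hT1 j; linarith
    have hTt : Tendsto T atTop atTop := by
      rw [hT]
      exact (tendsto_rpow_atTop hβ0).comp (tendsto_pow_atTop_atTop_of_one_lt one_lt_two)
    refine ⟨fun j => (T j / 2) ^ (-t0), fun j => (2 * T j) ^ (-t), fun j => ?_, fun j => ?_, ?_, ?_,
      ?_⟩
    · have := hT0 j
      positivity
    · have h6 := hT1 j
      calc (2 * T j) ^ (-t) ≤ (2 * T j) ^ (-t0) :=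
            Real.rpow_le_rpow_of_exponent_le (by linarith) (by linarith)
        _ ≤ (T j / 2) ^ (-t0) :=
            Real.rpow_le_rpow_of_nonpos (by linarith) (by linarith) (by linarith)
    · exact (tendsto_rpow_neg_atTop (by linarith)).comp (hTt.atTop_div_const (by norm_num))
    · have h6 : ∀ j, ((2 * T j) ^ (-t)) ^ s / ((T j / 2) ^ (-t0)) ^ k =
          (2 ^ (-(t * s)) * 2 ^ (-(t0 * k)) : ℝ) * (T j) ^ (k * t0 - s * t) := by
        intro j
        have h7 := hT0 j
        rw [← Real.rpow_mul (by positivity), ← Real.rpow_natCast ((T j / 2) ^ (-t0)) k,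
          ← Real.rpow_mul (by positivity), Real.mul_rpow (by norm_num) h7.le,
          Real.div_rpow h7.le (by norm_num), Real.rpow_sub h7]
        have e1 : -t * s = -(t * s) := by ring
        have e2 : -t0 * (k : ℝ) = -(t0 * k) := by ring
        have e3 : k * t0 = t0 * k := by ring
        have e4 : s * t = t * s := by ring
        rw [e1, e2, e3, e4, Real.rpow_neg h7.le (t * s), Real.rpow_neg h7.le (t0 * k)]
        have g1 : (0 : ℝ) < T j ^ (t * s) := Real.rpow_pos_of_pos h7 _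
        have g2 : (0 : ℝ) < T j ^ (t0 * k) := Real.rpow_pos_of_pos h7 _
        have g3 : (0 : ℝ) < 2 ^ (-(t0 * k)) := by positivity
        field_simp
      simp_rw [h6]
      apply Tendsto.const_mul_atTop (by positivity)
      exact (tendsto_rpow_atTop (by linarith)).comp hTt
    · filter_upwards [hae] with ξ hξ
      have hTn : ∀ᶠ j in atTop, 2 * (n : ℝ) ≤ T j := hTt.eventually_ge_atTop _
      filter_upwards [hsuff ξ b hbp hξ, hTn] with j hj hn
      obtain ⟨x, hx, hnear, hx0, hex⟩ := hj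
      have hTj : T j = ((2 : ℝ) ^ j) ^ β := by rw [hT]
      rw [← hTj] at hx0
      have h7 := hT0 j
      have hx0' := abs_le.1 hx0
      have hX1 : T j / 2 ≤ (x 0 : ℝ) := by linarith [hx0'.1]
      have hX2 : (x 0 : ℝ) ≤ 2 * T j := by linarith [hx0'.2]
      have hX0 : (0 : ℝ) < x 0 := by linarith
      refine ⟨fun i => (x i.succ.castSucc : ℝ) / x 0, fun i => (hnear.2 i).trans ?_, ?_⟩
      · exact Real.rpow_le_rpow_of_nonpos (by linarith) hX1 (by linarith)
      · intro ξ' hξ'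
        refine ⟨x, hx, ⟨hnear.1, fun i => ?_⟩, by linarith, hex⟩
        have h8 := (dist_le_pi_dist ξ' _ i).trans (Metric.mem_closedBall.1 hξ')
        rw [Real.dist_eq] at h8
        refine h8.trans ?_
        exact Real.rpow_le_rpow_of_nonpos hX0 hX2 (by linarith))
  refine hmain.trans (dimH_mono ?_)
  intro ξ hξ ε hε B
  obtain ⟨n1, hn1⟩ := exists_nat_ge B
  obtain ⟨n2, hn2⟩ := exists_nat_ge (1 / ε)
  obtain ⟨x, hx, hn, hxn, hex⟩ := hξ (max n1 n2)
  refine ⟨x, hx, hn, ?_, fun i => (hex i).trans ?_⟩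
  · have : (n1 : ℝ) ≤ ((max n1 n2 : ℕ) : ℝ) := by exact_mod_cast le_max_left _ _
    linarith
  · have h6 : (n2 : ℝ) ≤ ((max n1 n2 : ℕ) : ℝ) := by exact_mod_cast le_max_right _ _
    rw [div_le_iff₀ (by positivity)]
    rw [div_le_iff₀ hε] at hn2
    nlinarith

/-- many tuples with a small radical -/
theorem inf_of_lim {k : ℕ} {ξ : Fin k → ℝ} {t : ℝ} {z : Fin (k + 2) → ℝ} (h : LimPt ξ t z)
    {s : ℝ} (hs : ∑ j, z j < s) : {x : Fin (k + 2) → ℤ | ∑ i, x i = 0 ∧
      (∀ i j, i ≠ j → IsCoprime (x i) (x j)) ∧ (∀ i, x i ≠ 0) ∧ Near ξ t x ∧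
      ∏ i, (R (x i).natAbs : ℝ) ≤ (x 0 : ℝ) ^ s}.Infinite := by
  intro hfin
  obtain ⟨B, hB⟩ := (hfin.image (fun x : Fin (k + 2) → ℤ => (x 0 : ℝ))).bddAbove
  have hk2 : (0 : ℝ) < k + 2 := by positivity
  obtain ⟨x, hx, hn, hxB, hex⟩ := h ((s - ∑ j, z j) / (k + 2)) (div_pos (by linarith) hk2)
    (max (B + 1) 2)
  have h1 : B + 1 ≤ x 0 := (le_max_left _ _).trans hxB
  have h2 : (2 : ℝ) ≤ x 0 := (le_max_right _ _).trans hxB
  have hx0 : (0 : ℝ) < x 0 := by linarith
  have hl : 0 < Real.log (x 0) := Real.log_pos (by linarith)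
  have h3 : ∏ i, (R (x i).natAbs : ℝ) ≤ (x 0 : ℝ) ^ s := by
    have hp : 0 < ∏ i, (R (x i).natAbs : ℝ) :=
      Finset.prod_pos fun i _ => by exact_mod_cast R_pos _
    rw [← Real.log_le_log_iff hp (Real.rpow_pos_of_pos hx0 _), Real.log_rpow hx0,
      Real.log_prod (fun i _ => by exact_mod_cast (R_pos _).ne')]
    have h4 : ∑ i, Real.log (R (x i).natAbs) ≤
        ∑ i, (z i + (s - ∑ j, z j) / (k + 2)) * Real.log (x 0) := by
      refine Finset.sum_le_sum fun i _ => ?_
      have h5 := (abs_le.1 (hex i)).2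
      have h6 : ex x i * Real.log (x 0) = Real.log (R (x i).natAbs) := by
        unfold ex
        rw [div_mul_cancel₀ _ hl.ne']
      rw [← h6]
      exact mul_le_mul_of_nonneg_right (by linarith) hl.le
    refine h4.trans (le_of_eq ?_)
    rw [← Finset.sum_mul, Finset.sum_add_distrib, Finset.sum_const, Finset.card_univ,
      Fintype.card_fin, nsmul_eq_mul]
    push_cast
    field_simp
    ring
  have h8 := hB ⟨x, ⟨hx.1, hx.2.1, fun i => hx.ne (by omega) i, hn, h3⟩, rfl⟩
  simp only at h8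
  linarith

/-- limits of upper bounds -/
theorem dim_le_of {k : ℕ} {E : Set (Fin k → ℝ)} {S t : ℝ}
    (h : ∀ ε : ℝ, 0 < ε → dimH E ≤ ENNReal.ofReal ((S + ε - 1) / t)) :
    dimH E ≤ ENNReal.ofReal (min k ((S - 1) / t)) := by
  rw [ENNReal.ofReal_min]
  refine le_min ?_ ?_
  · rw [ENNReal.ofReal_natCast]
    refine (dimH_mono (Set.subset_univ E)).trans (le_of_eq ?_)
    exact Real.dimH_univ_pi_fin k
  · have h1 : Tendsto (fun n : ℕ => (S + 1 / ((n : ℝ) + 1) - 1) / t) atTop (𝓝 ((S - 1) / t)) := by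
      have h2 := (tendsto_one_div_add_atTop_nhds_zero_nat (𝕜 := ℝ)).const_add S
      rw [add_zero] at h2
      exact (h2.sub_const 1).div_const t
    exact ge_of_tendsto' (ENNReal.tendsto_ofReal h1) fun n => h _ (by positivity)

/-- limits of lower bounds -/
theorem le_dim_of {k : ℕ} {E : Set (Fin k → ℝ)} {v : ℝ}
    (h : ∀ s : ℝ, 0 < s → s < v → ENNReal.ofReal s ≤ dimH E) : ENNReal.ofReal v ≤ dimH E := by
  by_contra hcon
  push Not at hcon
  obtain ⟨s, hs0, hs1, hs2⟩ := ENNReal.lt_iff_exists_real_btwn.1 hcon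
  have hspos : 0 < s := by
    by_contra hle
    push Not at hle
    rw [ENNReal.ofReal_of_nonpos hle] at hs1
    exact not_lt_bot hs1
  have hsv : s < v := by
    by_contra hle
    push Not at hle
    exact absurd hs2 (not_lt.2 (ENNReal.ofReal_le_ofReal hle))
  exact absurd hs1 (not_lt.2 (h s hspos hsv))

/-- **The dimension of the directions with given exponents.** -/
theorem dim_lim (hN : S_NEC) (hTu : S_TUBE) (hU : S_UP) {k : ℕ} (hk : 2 ≤ k) {t : ℝ} (ht : 1 < t)
    (z : Fin (k + 2) → ℝ) (hz1 : ∀ j, z j ≤ 1) (hz2 : (k : ℝ) + 1 ≤ ∑ j, z j) :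
    dimH {ξ : Fin k → ℝ | LimPt ξ t z} = ENNReal.ofReal (min k ((∑ j, z j - 1) / t)) := by
  apply le_antisymm
  · refine dim_le_of fun ε hε => ?_
    refine (dimH_mono ?_).trans (hU k hk t (∑ j, z j + ε) ht (by linarith))
    intro ξ hξ
    exact inf_of_lim hξ (by linarith)
  · refine le_dim_of fun s hs0 hs => ?_
    exact dim_lower hN hTu hk ht z hz1 hz2 hs0 (hs.trans_le (min_le_left _ _))
      (hs.trans_le (min_le_right _ _))

/-- **The dimension of the directions with many violations of the inequality.** -/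
theorem dim_abc (hN : S_NEC) (hTu : S_TUBE) (hU : S_UP) {k : ℕ} (hk : 2 ≤ k) {t : ℝ} (ht : 1 < t)
    {M : ℝ} (hM1 : 1 / (k + 2) < M) (hM2 : M < 1 / (k + 1)) :
    dimH {ξ : Fin k → ℝ | {x : Fin (k + 2) → ℤ | Adm x ∧ Near ξ t x ∧
      ¬ height x ≤ (R (∏ i, x i).natAbs : ℝ) ^ M}.Infinite} =
      ENNReal.ofReal (min k ((1 / M - 1) / t)) := by
  have hk0 : (0 : ℝ) ≤ k := Nat.cast_nonneg _
  have hk1 : (0 : ℝ) < k + 1 := by positivity
  have hk2 : (0 : ℝ) < k + 2 := by positivity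
  have hM0 : 0 < M := lt_trans (by positivity) hM1
  have ht0 : 0 < t := by linarith
  have hMa : 1 / M < k + 2 := by
    rw [div_lt_iff₀ hM0]
    rw [div_lt_iff₀ hk2] at hM1
    linarith
  have hMb : (k : ℝ) + 1 < 1 / M := by
    rw [lt_div_iff₀ hM0]
    rw [lt_div_iff₀ hk1] at hM2
    linarith
  apply le_antisymm
  · refine dim_le_of fun ε hε => ?_
    refine (dimH_mono ?_).trans (hU k hk t (1 / M + ε) ht (by linarith))
    intro ξ hξ hfin
    apply hξ
    set B : ℝ := Real.exp (Real.log (c0 ξ) / (M * ε)) with hB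
    refine (hfin.union (fin_bdd (ξ := ξ) ht0 B)).subset ?_
    rintro x ⟨hx, hn, hh⟩
    by_cases hxB : (x 0 : ℝ) ≤ B
    · exact Or.inr ⟨hx.1, hn, hxB⟩
    · left
      push Not at hxB hh
      have hx0 : (0 : ℝ) < x 0 := by exact_mod_cast hn.1
      refine ⟨hx.1, hx.2.1, fun i => hx.ne (by omega) i, hn, ?_⟩
      have hc := c0_ge ξ
      have hR0 : (0 : ℝ) < R (∏ i, x i).natAbs := by exact_mod_cast R_pos _
      have h1 := hh.le.trans (height_le ht0 hx.1 hn)
      have h2 := Real.log_le_log (Real.rpow_pos_of_pos hR0 _) h1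
      rw [Real.log_rpow hR0, Real.log_mul (by linarith) hx0.ne'] at h2
      have h3 : Real.log (c0 ξ) < M * ε * Real.log (x 0) := by
        have h4 : Real.log (c0 ξ) / (M * ε) < Real.log (x 0) := by
          rw [Real.lt_log_iff_exp_lt hx0]
          exact hxB
        rw [div_lt_iff₀ (by positivity)] at h4
        linarith
      have hp : 0 < ∏ i, (R (x i).natAbs : ℝ) :=
        Finset.prod_pos fun i _ => by exact_mod_cast R_pos _
      rw [← Real.log_le_log_iff hp (Real.rpow_pos_of_pos hx0 _), Real.log_rpow hx0,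
        Real.log_prod (fun i _ => by exact_mod_cast (R_pos _).ne'), ← log_R hx]
      have h5 : M * Real.log (R (∏ i, x i).natAbs) ≤ M * ((1 / M + ε) * Real.log (x 0)) := by
        have h6 : M * ((1 / M + ε) * Real.log (x 0)) =
            Real.log (x 0) + M * ε * Real.log (x 0) := by
          field_simp
        rw [h6]
        linarith
      exact le_of_mul_le_mul_left h5 hM0
  · refine le_dim_of fun s hs0 hs => ?_
    have hsk : s < k := hs.trans_le (min_le_left _ _)
    have hst : s < (1 / M - 1) / t := hs.trans_le (min_le_right _ _)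
    rw [lt_div_iff₀ ht0] at hst
    obtain ⟨S, hS1, hS2⟩ := exists_between (show max ((k : ℝ) + 1) (s * t + 1) < 1 / M from
      max_lt hMb (by linarith))
    have hS3 : (k : ℝ) + 1 < S := (le_max_left _ _).trans_lt hS1
    have hS4 : s * t + 1 < S := (le_max_right _ _).trans_lt hS1
    have hz : ∑ _j : Fin (k + 2), S / (k + 2) = S := by
      rw [Finset.sum_const, Finset.card_univ, Fintype.card_fin, nsmul_eq_mul]
      push_cast
      field_simp
    have h1 := dim_lower hN hTu hk ht (fun _ => S / (k + 2)) (fun _ => by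
      rw [div_le_one hk2]
      linarith) (by rw [hz]; exact hS3.le) hs0 hsk (by
      rw [hz, lt_div_iff₀ ht0]
      linarith)
    refine h1.trans (dimH_mono ?_)
    intro ξ hξ
    have hS0 : 0 < S := by linarith
    exact abc_lower hS0 (fun _ => S / (k + 2)) hz hξ (by
      rw [lt_div_iff₀ hS0]
      rw [lt_div_iff₀ hM0] at hS2
      linarith)

end Pool.Agent.H65NT
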