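import Pool.Agent.H65NT.Final

/-!
# The exponent in the n-term abc inequality near almost every direction
-/

set_option autoImplicit false

namespace Pool.Agent.H65NT

open Finset Filter Topology MeasureTheory

theorem R_prod {n : ℕ} {x : Fin n → ℤ} (h0 : ∀ i, x i ≠ 0)
    (hc : ∀ i j, i ≠ j → IsCoprime (x i) (x j)) :
    R (∏ i, x i).natAbs = ∏ i, R (x i).natAbs := by
  classical
  have h1 : (∏ i, x i).natAbs.primeFactors =
      univ.biUnion (fun i => (x i).natAbs.primeFactors) := by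
    ext p
    rw [Finset.mem_biUnion, Nat.mem_primeFactors]
    constructor
    · rintro ⟨hp, hd, _⟩
      have hd' : (p : ℤ) ∣ ∏ i, x i := Int.natCast_dvd.2 hd
      rw [Prime.dvd_finsetProd_iff (Nat.prime_iff_prime_int.1 hp)] at hd'
      obtain ⟨i, -, hi⟩ := hd'
      refine ⟨i, mem_univ i, ?_⟩
      rw [Nat.mem_primeFactors]
      exact ⟨hp, Int.natCast_dvd.1 hi, Int.natAbs_ne_zero.2 (h0 i)⟩
    · rintro ⟨i, -, hi⟩
      rw [Nat.mem_primeFactors] at hi
      refine ⟨hi.1, ?_, Int.natAbs_ne_zero.2 (Finset.prod_ne_zero_iff.2 fun i _ => h0 i)⟩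
      exact hi.2.1.trans (Int.natAbs_dvd_natAbs.2 (Finset.dvd_prod_of_mem x (mem_univ i)))
  unfold R
  rw [h1, Finset.prod_biUnion]
  intro i _ j _ hij
  have h2 := Int.isCoprime_iff_gcd_eq_one.1 (hc i j hij)
  exact Nat.Coprime.disjoint_primeFactors h2

/-- the height -/
noncomputable def height {n : ℕ} (x : Fin n → ℤ) : ℝ := ⨆ i, |(x i : ℝ)|

theorem le_height {n : ℕ} (x : Fin n → ℤ) (i : Fin n) : |(x i : ℝ)| ≤ height x :=
  le_ciSup (f := fun i => |(x i : ℝ)|) (Set.finite_range _).bddAbove i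

theorem height_le {k : ℕ} {ξ : Fin k → ℝ} {t : ℝ} (ht : 0 < t) {x : Fin (k + 2) → ℤ}
    (hx : ∑ i, x i = 0) (hn : Near ξ t x) : height x ≤ c0 ξ * x 0 :=
  ciSup_le fun i => near_le ht hx hn i

/-- finitely many tuples near `ξ` have bounded first coordinate -/
theorem fin_bdd {k : ℕ} {ξ : Fin k → ℝ} {t : ℝ} (ht : 0 < t) (B : ℝ) :
    {x : Fin (k + 2) → ℤ | ∑ i, x i = 0 ∧ Near ξ t x ∧ (x 0 : ℝ) ≤ B}.Finite := by
  classical
  obtain ⟨N, hN⟩ := exists_nat_ge (c0 ξ * B)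
  refine ((Fintype.piFinset fun _ : Fin (k + 2) => Finset.Icc (-(N : ℤ)) N).finite_toSet).subset ?_
  rintro x ⟨hx, hn, hB⟩
  simp only [Finset.mem_coe, Fintype.mem_piFinset, Finset.mem_Icc]
  intro i
  have h1 := near_le ht hx hn i
  have h2 : |(x i : ℝ)| ≤ N := by
    have hc := c0_ge ξ
    have : c0 ξ * x 0 ≤ c0 ξ * B := mul_le_mul_of_nonneg_left hB (by linarith)
    linarith
  have h3 : |x i| ≤ (N : ℤ) := by exact_mod_cast h2
  exact abs_le.1 h3

/-- the logarithm of the radical -/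
theorem log_R {k : ℕ} {x : Fin (k + 2) → ℤ} (hx : Adm x) :
    Real.log (R (∏ i, x i).natAbs) = ∑ i, Real.log (R (x i).natAbs) := by
  rw [R_prod (fun i => hx.ne (by omega) i) hx.2.1]
  push_cast
  rw [Real.log_prod]
  intro i _
  exact_mod_cast (R_pos _).ne'

/-- the inequality with a large exponent -/
theorem abc_upper {k : ℕ} {ξ : Fin k → ℝ} {t θ M : ℝ} (ht : 0 < t) (hθ : 0 < θ)
    (hlow : ∀ δ : ℝ, 0 < δ → ∃ B : ℝ, ∀ x : Fin (k + 2) → ℤ, Adm x → Near ξ t x → B < x 0 →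
      (θ - δ) * Real.log (x 0) ≤ ∑ i, Real.log (R (x i).natAbs)) (hM : 1 / θ < M) :
    {x : Fin (k + 2) → ℤ | Adm x ∧ Near ξ t x ∧
      ¬ height x ≤ (R (∏ i, x i).natAbs : ℝ) ^ M}.Finite := by
  have hM0 : 0 < M := lt_trans (by positivity) hM
  have hMθ : 1 < M * θ := by rwa [div_lt_iff₀ hθ] at hM
  set δ : ℝ := (M * θ - 1) / (2 * M) with hδ
  have hδ0 : 0 < δ := div_pos (by linarith) (by linarith)
  have hMδ : M * (θ - δ) = (M * θ + 1) / 2 := by
    rw [hδ]
    field_simp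
    ring
  obtain ⟨B, hB⟩ := hlow δ hδ0
  set B' : ℝ := Real.exp (2 * Real.log (c0 ξ) / (M * θ - 1)) with hB'
  refine (fin_bdd (ξ := ξ) ht (max B B')).subset ?_
  rintro x ⟨hx, hn, hh⟩
  refine ⟨hx.1, hn, ?_⟩
  by_contra hcon
  push Not at hcon
  have h1 : B < x 0 := (le_max_left _ _).trans_lt hcon
  have h2 : B' < x 0 := (le_max_right _ _).trans_lt hcon
  have hx0 : (0 : ℝ) < x 0 := by exact_mod_cast hn.1
  apply hh
  have hc := c0_ge ξ
  have hR0 : (0 : ℝ) < R (∏ i, x i).natAbs := by exact_mod_cast R_pos _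
  refine (height_le ht hx.1 hn).trans ?_
  rw [← Real.log_le_log_iff (by positivity) (Real.rpow_pos_of_pos hR0 _), Real.log_rpow hR0,
    Real.log_mul (by linarith) hx0.ne', log_R hx]
  have h3 := mul_le_mul_of_nonneg_left (hB x hx hn h1) hM0.le
  rw [← mul_assoc, hMδ] at h3
  have h4 : 2 * Real.log (c0 ξ) / (M * θ - 1) < Real.log (x 0) := by
    rw [hB'] at h2
    rwa [Real.lt_log_iff_exp_lt hx0]
  rw [div_lt_iff₀ (by linarith)] at h4
  linarith

/-- the inequality with a small exponent fails for infinitely many tuples -/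
theorem abc_lower {k : ℕ} {ξ : Fin k → ℝ} {t θ M : ℝ} (hθ : 0 < θ)
    (z : Fin (k + 2) → ℝ) (hz : ∑ i, z i = θ) (hlim : LimPt ξ t z) (hM : M < 1 / θ) :
    {x : Fin (k + 2) → ℤ | Adm x ∧ Near ξ t x ∧
      ¬ height x ≤ (R (∏ i, x i).natAbs : ℝ) ^ M}.Infinite := by
  intro hfin
  set M' : ℝ := max M 0 with hM'
  have hM'0 : 0 ≤ M' := le_max_right _ _
  have hM'M : M ≤ M' := le_max_left _ _
  have hM'θ : M' * θ < 1 := by
    have : M' < 1 / θ := max_lt hM (by positivity)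
    rwa [lt_div_iff₀ hθ] at this
  obtain ⟨B, hB⟩ := (hfin.image (fun x : Fin (k + 2) → ℤ => (x 0 : ℝ))).bddAbove
  have hk2 : (0 : ℝ) < k + 2 := by positivity
  set ε : ℝ := (1 - M' * θ) / (2 * (M' + 1) * (k + 2)) with hε
  have hε0 : 0 < ε := div_pos (by linarith) (by positivity)
  have hMε : M' * (θ + (k + 2) * ε) < 1 := by
    have h1 : M' * ((k + 2) * ε) ≤ (1 - M' * θ) / 2 := by
      have h2 : (k + 2) * ε = (1 - M' * θ) / (2 * (M' + 1)) := by
        rw [hε]
        field_simp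
      rw [h2, ← mul_div_assoc, div_le_iff₀ (by positivity)]
      nlinarith
    linarith
  obtain ⟨x, hx, hn, hxB, hex⟩ := hlim ε hε0 (max (B + 1) 2)
  have h1 : B + 1 ≤ x 0 := (le_max_left _ _).trans hxB
  have h2 : (2 : ℝ) ≤ x 0 := (le_max_right _ _).trans hxB
  have hx0 : (0 : ℝ) < x 0 := by linarith
  have hl : 0 < Real.log (x 0) := Real.log_pos (by linarith)
  have hR1 : (1 : ℝ) ≤ R (∏ i, x i).natAbs := by exact_mod_cast R_pos _
  have hR0 : (0 : ℝ) < R (∏ i, x i).natAbs := by linarith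
  have h3 : Real.log (R (∏ i, x i).natAbs) ≤ (θ + (k + 2) * ε) * Real.log (x 0) := by
    rw [log_R hx, ← hz]
    have h4 : ∑ i, Real.log (R (x i).natAbs) ≤ ∑ i, (z i + ε) * Real.log (x 0) := by
      refine Finset.sum_le_sum fun i _ => ?_
      have h5 := (abs_le.1 (hex i)).2
      have h6 : ex x i * Real.log (x 0) = Real.log (R (x i).natAbs) := by
        unfold ex
        rw [div_mul_cancel₀ _ hl.ne']
      rw [← h6]
      exact mul_le_mul_of_nonneg_right (by linarith) hl.le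
    refine h4.trans (le_of_eq ?_)
    rw [← Finset.sum_mul, Finset.sum_add_distrib, Finset.sum_const, Finset.card_univ,
      Fintype.card_fin, nsmul_eq_mul]
    push_cast
    ring
  have h7 : (R (∏ i, x i).natAbs : ℝ) ^ M < height x := by
    have h8 : (x 0 : ℝ) ≤ height x := (le_abs_self _).trans (le_height x 0)
    refine lt_of_lt_of_le ?_ h8
    refine lt_of_le_of_lt (Real.rpow_le_rpow_of_exponent_le hR1 hM'M) ?_
    rw [← Real.log_lt_log_iff (Real.rpow_pos_of_pos hR0 _) hx0, Real.log_rpow hR0]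
    have h9 := mul_le_mul_of_nonneg_left h3 hM'0
    have h10 : M' * ((θ + (k + 2) * ε) * Real.log (x 0)) < 1 * Real.log (x 0) := by
      rw [← mul_assoc]
      exact mul_lt_mul_of_pos_right hMε hl
    linarith
  have h8 := hB ⟨x, ⟨hx, hn, not_le.2 h7⟩, rfl⟩
  simp only at h8
  linarith

end Pool.Agent.H65NT
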