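import Pool.Agent.H65NT.Suff

/-!
# The exponents of the radicals near almost every direction
-/

set_option autoImplicit false

namespace Pool.Agent.H65NT

open Finset Filter Topology MeasureTheory
open Pool.Agent.H34x.NT (ev_le primes)

theorem scale {k : ℕ} {P : (Fin (k + 2) → ℤ) → Prop} {β : ℝ} (hβ : 0 < β)
    (h : ∀ᶠ j : ℕ in atTop, ∃ x : Fin (k + 2) → ℤ, P x ∧
      |(x 0 : ℝ) - ((2 : ℝ) ^ j) ^ β| ≤ ((2 : ℝ) ^ j) ^ β / 2) {ε : ℝ} (hε : 0 < ε) :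
    ∃ T0 : ℝ, ∀ T : ℝ, T0 ≤ T → ∃ x : Fin (k + 2) → ℤ, P x ∧ T ^ (1 - ε) ≤ x 0 ∧ (x 0 : ℝ) ≤ T := by
  obtain ⟨j0, hj0⟩ := eventually_atTop.1 h
  have hy : (1 : ℝ) < 2 ^ β := Real.one_lt_rpow one_lt_two hβ
  obtain ⟨T1, hT1⟩ := eventually_atTop.1 (ev_le (4 * 2 ^ β) (show 1 - ε < 1 by linarith))
  refine ⟨max (max T1 2) (2 * ((2 : ℝ) ^ β) ^ j0), fun T hT => ?_⟩
  have h1 : T1 ≤ T := (le_max_left _ _).trans ((le_max_left _ _).trans hT)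
  have h2 : 2 ≤ T := (le_max_right _ _).trans ((le_max_left _ _).trans hT)
  have h3 : 2 * ((2 : ℝ) ^ β) ^ j0 ≤ T := (le_max_right _ _).trans hT
  obtain ⟨n, hn1, hn2⟩ := exists_nat_pow_near (show (1 : ℝ) ≤ T / 2 by linarith) hy
  have hnj : j0 ≤ n := by
    by_contra hcon
    push Not at hcon
    have h4 : ((2 : ℝ) ^ β) ^ (n + 1) ≤ ((2 : ℝ) ^ β) ^ j0 := pow_le_pow_right₀ hy.le hcon
    linarith
  obtain ⟨x, hx, hx0⟩ := hj0 n hnj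
  have h5 : ((2 : ℝ) ^ n) ^ β = ((2 : ℝ) ^ β) ^ n := by
    rw [← Real.rpow_natCast, ← Real.rpow_natCast, ← Real.rpow_mul (by norm_num),
      ← Real.rpow_mul (by norm_num), mul_comm]
  rw [h5] at hx0
  have hx0' := abs_le.1 hx0
  have h6 := hT1 T h1
  rw [Real.rpow_one] at h6
  rw [pow_succ] at hn2
  have h7 : 0 < ((2 : ℝ) ^ β) ^ n := by positivity
  refine ⟨x, hx, ?_, by linarith [hx0'.2]⟩
  have h8 : (0 : ℝ) < 2 ^ β := by positivity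
  have h9 : 4 * 2 ^ β * T ^ (1 - ε) ≤ 4 * 2 ^ β * (x 0 : ℝ) := by
    have h10 : ((2 : ℝ) ^ β) ^ n ≤ 2 * x 0 := by linarith [hx0'.1]
    calc 4 * 2 ^ β * T ^ (1 - ε) ≤ T := h6
      _ ≤ 2 * (((2 : ℝ) ^ β) ^ n * 2 ^ β) := by linarith
      _ ≤ 2 * (2 * x 0 * 2 ^ β) := by
          apply mul_le_mul_of_nonneg_left _ (by norm_num)
          exact mul_le_mul_of_nonneg_right h10 h8.le
      _ = _ := by ring
  exact le_of_mul_le_mul_left h9 (by positivity)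

/-- `z` is a limit point of the exponents of the tuples near `ξ` -/
def LimPt {k : ℕ} (ξ : Fin k → ℝ) (t : ℝ) (z : Fin (k + 2) → ℝ) : Prop :=
  ∀ ε : ℝ, 0 < ε → ∀ B : ℝ, ∃ x : Fin (k + 2) → ℤ, Adm x ∧ Near ξ t x ∧ B ≤ x 0 ∧
    ∀ i, |ex x i - z i| ≤ ε

theorem nec_lim {k : ℕ} {ξ : Fin k → ℝ} {b : Fin (k + 2) → ℕ}
    (hT : Typ k ξ b) {t : ℝ} (ht : 1 < t) (z : Fin (k + 2) → ℝ) (h : LimPt ξ t z) :
    (∀ j, z j ≤ 1) ∧ 1 + k * t ≤ ∑ j, z j := by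
  have hc0 := c0_ge ξ
  constructor
  · intro j
    by_contra hcon
    push Not at hcon
    set ε : ℝ := (z j - 1) / 2 with hε
    have hε0 : 0 < ε := by rw [hε]; linarith
    obtain ⟨x, hx, hn, hB, hz⟩ := h (ε / 2) (by linarith) (Real.exp (2 * (Real.log (c0 ξ) + 1) / ε))
    have hx0 : (0 : ℝ) < x 0 := by exact_mod_cast hn.1
    have h1 := Real.log_le_log (Real.exp_pos _) hB
    rw [Real.log_exp] at h1
    have hl : 0 ≤ Real.log (c0 ξ) := Real.log_nonneg hc0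
    have h2 : 0 < Real.log (x 0) := lt_of_lt_of_le (by positivity) h1
    rw [div_le_iff₀ hε0] at h1
    have h3 := ex_le (by linarith) hx hn j
    have h4 : ex x j ≤ 1 + ε / 2 := by
      unfold ex
      rw [div_le_iff₀ h2]
      nlinarith
    have h5 := abs_le.1 (hz j)
    rw [hε] at h4 h5
    linarith [h5.1]
  · by_contra hcon
    push Not at hcon
    set δ : ℝ := (1 + k * t - ∑ j, z j) / 2 with hδ
    have hδ0 : 0 < δ := by rw [hδ]; linarith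
    obtain ⟨B, hB⟩ := lower hT.nec ht hδ0
    have hk2 : (0 : ℝ) < k + 2 := by positivity
    obtain ⟨x, hx, hn, hB2, hz⟩ := h (δ / (2 * (k + 2))) (by positivity) (max (B + 1) 2)
    have hx2 : (2 : ℝ) ≤ x 0 := (le_max_right _ _).trans hB2
    have hxB : B + 1 ≤ x 0 := (le_max_left _ _).trans hB2
    have h1 := hB x hx hn (by linarith)
    have h2 : 0 < Real.log (x 0) := Real.log_pos (by linarith)
    have h3 : 1 + k * t - δ ≤ ∑ i, ex x i := by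
      have g1 : (1 + k * t - δ) * Real.log (x 0) ≤ (∑ i, ex x i) * Real.log (x 0) := by
        rw [Finset.sum_mul]
        refine h1.trans (le_of_eq ?_)
        refine Finset.sum_congr rfl fun i _ => ?_
        unfold ex
        rw [div_mul_cancel₀ _ h2.ne']
      exact le_of_mul_le_mul_right g1 h2
    have h4 : ∑ i, ex x i ≤ ∑ i, z i + δ / 2 := by
      have g1 : ∑ i, ex x i ≤ ∑ i, (z i + δ / (2 * (k + 2))) :=
        Finset.sum_le_sum fun i _ => by linarith [(abs_le.1 (hz i)).2]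
      rw [Finset.sum_add_distrib, Finset.sum_const, Finset.card_univ, Fintype.card_fin,
        nsmul_eq_mul] at g1
      push_cast at g1
      have g2 : ((k : ℝ) + 2) * (δ / (2 * (k + 2))) = δ / 2 := by field_simp
      linarith
    have h5 : ∑ j, z j = 1 + k * t - 2 * δ := by rw [hδ]; ring
    linarith

/-- almost every point is typical -/
theorem typ_ae (hN : S_NEC) (hTu : S_TUBE) (k : ℕ) (hk : 2 ≤ k) :
    ∃ b : Fin (k + 2) → ℕ, (∀ i, (b i).Prime) ∧ ∀ᵐ ξ : Fin k → ℝ, Typ k ξ b := by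
  obtain ⟨C, Q0, hC, hmin⟩ := minv k (by omega)
  set P0 : ℕ := max Q0 (16 * (k + 1 + 1) ^ 2) with hP0
  obtain ⟨b, hbp, hbi, hbP⟩ := primes P0 (k + 2)
  refine ⟨b, hbp, ?_⟩
  filter_upwards [hN k hk, hTu k hk b hbp hbi] with ξ h1 h2
  exact ⟨h1, fun κ hκ τ hτ hτ1 η hη hη1 => core hk hC (le_max_right _ _)
    (le_max_left _ _) b hbp hbi hbP (hmin b fun i => (hbp i).two_le) ξ h2 κ hκ hτ hτ1 hη hη1⟩

theorem final (hN : S_NEC) (hTu : S_TUBE) (k : ℕ) (hk : 2 ≤ k) : ∀ᵐ ξ : Fin k → ℝ, ∀ t : ℝ, 1 < t →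
    (∀ δ : ℝ, 0 < δ → {x : Fin (k + 2) → ℤ | Adm x ∧ Near ξ t x ∧
      ∏ i, (R (x i).natAbs : ℝ) ≤ (x 0 : ℝ) ^ (1 + k * t - δ)}.Finite) ∧
    (t < 1 + 1 / k → ∀ z : Fin (k + 2) → ℝ,
      (LimPt ξ t z ↔ (∀ j, z j ≤ 1) ∧ 1 + k * t ≤ ∑ j, z j) ∧
      ((∀ j, z j ≤ 1) → 1 + k * t ≤ ∑ j, z j → ∀ ε : ℝ, 0 < ε → ∃ T0 : ℝ, ∀ T : ℝ, T0 ≤ T →
        ∃ x : Fin (k + 2) → ℤ, Adm x ∧ Near ξ t x ∧ T ^ (1 - ε) ≤ x 0 ∧ (x 0 : ℝ) ≤ T ∧
          ∀ i, |ex x i - z i| ≤ ε)) := by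
  obtain ⟨b, hbp, hae⟩ := typ_ae hN hTu k hk
  filter_upwards [hae] with ξ hT t ht
  refine ⟨fun δ hδ => ?_, fun ht1 z => ?_⟩
  · refine (hT.nec t δ ht hδ).subset ?_
    rintro x ⟨hx, hn, hp⟩
    exact ⟨hx.1, hx.2.1, fun i => hx.ne (by omega) i, hn, hp⟩
  · have hmain : (∀ j, z j ≤ 1) → 1 + k * t ≤ ∑ j, z j → ∀ ε : ℝ, 0 < ε → ∃ T0 : ℝ, ∀ T : ℝ,
        T0 ≤ T → ∃ x : Fin (k + 2) → ℤ, Adm x ∧ Near ξ t x ∧ T ^ (1 - ε) ≤ x 0 ∧ (x 0 : ℝ) ≤ T ∧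
          ∀ i, |ex x i - z i| ≤ ε := by
      intro hz1 hz2 ε hε
      obtain ⟨β, hβ, hev⟩ := suff hk ht.le ht1 z hz1 hz2 hε
      obtain ⟨T0, hT0⟩ := scale (P := fun x => Adm x ∧ Near ξ t x ∧ ∀ i, |ex x i - z i| ≤ ε) hβ
        ((hev ξ b hbp hT).mono fun j ⟨x, g1, g2, g3, g4⟩ => ⟨x, ⟨g1, g2, g4⟩, g3⟩) hε
      refine ⟨T0, fun T hT => ?_⟩
      obtain ⟨x, ⟨g1, g2, g3⟩, g4, g5⟩ := hT0 T hT
      exact ⟨x, g1, g2, g4, g5, g3⟩
    refine ⟨⟨fun h => nec_lim hT ht z h, fun h => ?_⟩, hmain⟩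
    intro ε hε B
    obtain ⟨T0, hT0⟩ := hmain h.1 h.2 (min ε (1 / 2)) (by positivity)
    set T : ℝ := max T0 (max 1 (B ^ 2)) with hTT
    have hT1 : 1 ≤ T := (le_max_left _ _).trans (le_max_right _ _)
    have hTB : B ^ 2 ≤ T := (le_max_right _ _).trans (le_max_right _ _)
    obtain ⟨x, g1, g2, g3, _, g5⟩ := hT0 T (le_max_left _ _)
    refine ⟨x, g1, g2, ?_, fun i => (g5 i).trans (min_le_left _ _)⟩
    refine le_trans ?_ g3
    have g6 : T ^ ((1 : ℝ) / 2) ≤ T ^ (1 - min ε (1 / 2)) := by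
      apply Real.rpow_le_rpow_of_exponent_le hT1
      have := min_le_right ε (1 / 2)
      linarith
    refine le_trans ?_ g6
    rw [← Real.sqrt_eq_rpow]
    exact Real.le_sqrt_of_sq_le hTB

end Pool.Agent.H65NT
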