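import Pool.Agent.H65NT.Stm2
import Pool.Agent.R425.MK.Lim

/-!
# Hausdorff dimension of limsup sets of cubes in blocks
-/

set_option autoImplicit false

namespace Pool.Agent.H65NT

open Finset Filter Topology MeasureTheory
open scoped ENNReal

theorem hbc : S_HBC := by
  classical
  intro k α _ F c r u d hd hu hr hsum
  have hu0 : ∀ j, 0 ≤ u j := by
    intro j
    have := hsum j ∅ (by simp)
    simpa using this
  have hs : Summable (fun i : {p : ℕ × α // p.2 ∈ F p.1 ∧ 0 < r p.1 p.2} =>
      (2 * r i.1.1 i.1.2) ^ d) := by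
    refine summable_of_sum_le (c := 2 ^ d * ∑' j, u j) (fun i => by
      have := i.2.2
      positivity) fun S => ?_
    have h1 : ∀ i ∈ S, (2 * r i.1.1 i.1.2) ^ d = 2 ^ d * (r i.1.1 i.1.2) ^ d := fun i _ =>
      Real.mul_rpow (by norm_num) i.2.2.le
    rw [Finset.sum_congr rfl h1, ← Finset.mul_sum]
    apply mul_le_mul_of_nonneg_left _ (by positivity)
    rw [← Finset.sum_fiberwise_of_maps_to (s := S) (t := S.image fun i => i.1.1)
      (g := fun i => i.1.1) (fun i hi => Finset.mem_image_of_mem _ hi)]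
    refine le_trans (Finset.sum_le_sum fun j _ => ?_) (hu.sum_le_tsum _ fun j _ => hu0 j)
    have h2 := hsum j ((S.filter fun i => i.1.1 = j).image fun i => i.1.2) (by
      intro a ha
      rw [Finset.mem_image] at ha
      obtain ⟨i, hi, rfl⟩ := ha
      rw [Finset.mem_filter] at hi
      rw [← hi.2]
      exact i.2.1)
    rw [Finset.sum_image] at h2
    · refine le_trans (le_of_eq ?_) h2
      refine Finset.sum_congr rfl fun i hi => ?_
      rw [Finset.mem_filter] at hi
      rw [hi.2]
    · intro i hi i' hi' he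
      rw [Finset.mem_coe, Finset.mem_filter] at hi hi'
      apply Subtype.ext
      exact Prod.ext (hi.2.trans hi'.2.symm) he
  have hmain := Pool.Agent.R425.MK.dimH_limsup
    (ι := {p : ℕ × α // p.2 ∈ F p.1 ∧ 0 < r p.1 p.2})
    (fun i => {ξ : Fin k → ℝ | ∀ l, |ξ l - c i.1.1 i.1.2 l| ≤ r i.1.1 i.1.2})
    (fun i => 2 * r i.1.1 i.1.2) (fun i => by have := i.2.2; positivity) (fun i => by
      have h0 := i.2.2
      apply Metric.ediam_le
      intro x hx y hy
      rw [edist_dist]
      apply ENNReal.ofReal_le_ofReal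
      rw [dist_pi_le_iff (by positivity)]
      intro l
      rw [Real.dist_eq]
      have h1 := abs_le.1 (hx l)
      have h2 := abs_le.1 (hy l)
      rw [abs_le]
      constructor <;> linarith [h1.1, h1.2, h2.1, h2.2]) hd hs
  set Z : Set (Fin k → ℝ) := Set.range (fun p : ℕ × α => c p.1 p.2) with hZ
  have hZ0 : dimH Z = 0 := (Set.countable_range _).dimH_zero
  have hsub : {ξ : Fin k → ℝ | ∃ᶠ j in atTop, ∃ a ∈ F j, ∀ i, |ξ i - c j a i| ≤ r j a} ⊆
      {x | {i : {p : ℕ × α // p.2 ∈ F p.1 ∧ 0 < r p.1 p.2} |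
        x ∈ {ξ : Fin k → ℝ | ∀ l, |ξ l - c i.1.1 i.1.2 l| ≤ r i.1.1 i.1.2}}.Infinite} ∪ Z := by
    intro ξ hξ
    by_cases hξZ : ξ ∈ Z
    · exact Or.inr hξZ
    left
    intro hfin
    obtain ⟨N, hN⟩ := (hfin.image fun i => i.1.1).bddAbove
    obtain ⟨j, hj, a, ha, hc⟩ := (frequently_atTop.1 hξ) (N + 1)
    have hrj : 0 < r j a := by
      rcases (hr j a ha).lt_or_eq with h | h
      · exact h
      · exfalso
        apply hξZ
        refine ⟨(j, a), ?_⟩
        ext i
        have := hc i
        rw [← h] at this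
        have h3 := abs_nonpos_iff.1 this
        simp only
        linarith
    have := hN ⟨⟨(j, a), ha, hrj⟩, hc, rfl⟩
    simp only at this
    omega
  refine (dimH_mono hsub).trans ?_
  rw [dimH_union, hZ0]
  exact max_le hmain bot_le

end Pool.Agent.H65NT
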