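import Pool.Agent.H65NT.Stm

/-!
# Project H65NT: piece LSUM
-/

set_option autoImplicit false

namespace Pool.Agent.H65NT

open Finset

namespace Lsum

/-- signed multiples -/
def g (q : ℕ) (w : ℕ × Bool) : ℤ := if w.2 then (q : ℤ) * w.1 else -((q : ℤ) * w.1)

/-- the nonzero multiples of `q` in `[-Y, Y]` -/
noncomputable def B (q : ℕ) (Y : ℝ) : Finset ℤ :=
  ((Finset.Icc 1 ⌊Y / q⌋₊) ×ˢ (Finset.univ : Finset Bool)).image (g q)

theorem g_inj {q : ℕ} (hq : 1 ≤ q) (N : ℕ) :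
    Set.InjOn (g q) (((Finset.Icc 1 N) ×ˢ (Finset.univ : Finset Bool) : Finset (ℕ × Bool)) :
      Set (ℕ × Bool)) := by
  rintro ⟨n, b⟩ hn ⟨n', b'⟩ hn' h
  rw [Finset.mem_coe, Finset.mem_product, Finset.mem_Icc] at hn hn'
  have h1 : (1 : ℤ) ≤ n := by exact_mod_cast hn.1.1
  have h1' : (1 : ℤ) ≤ n' := by exact_mod_cast hn'.1.1
  have hq' : (1 : ℤ) ≤ q := by exact_mod_cast hq
  have hp : 0 < (q : ℤ) * n := by positivity
  have hp' : 0 < (q : ℤ) * n' := by positivity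
  rcases b with _ | _ <;> rcases b' with _ | _ <;> simp only [g, if_true, Bool.false_eq_true,
    if_false] at h
  · have h2 : (n : ℤ) = n' := by
      have : (q : ℤ) * n = q * n' := by linarith
      exact mul_left_cancel₀ (by positivity) this
    have h3 : n = n' := by exact_mod_cast h2
    rw [h3]
  · linarith
  · linarith
  · have h2 : (n : ℤ) = n' := mul_left_cancel₀ (by positivity) h
    have h3 : n = n' := by exact_mod_cast h2
    rw [h3]

theorem mem_B {q : ℕ} (hq : 1 ≤ q) {Y : ℝ} {s : ℤ} (h0 : s ≠ 0) (hd : (q : ℤ) ∣ s)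
    (hY : |(s : ℝ)| ≤ Y) : s ∈ B q Y := by
  obtain ⟨v, hv⟩ := hd
  have hv0 : v ≠ 0 := by
    rintro rfl
    exact h0 (by rw [hv, mul_zero])
  have hqr : (0 : ℝ) < q := by exact_mod_cast hq
  unfold B
  rw [Finset.mem_image]
  refine ⟨(v.natAbs, decide (0 ≤ v)), ?_, ?_⟩
  · rw [Finset.mem_product, Finset.mem_Icc]
    refine ⟨⟨Int.natAbs_pos.2 hv0, ?_⟩, Finset.mem_univ _⟩
    apply Nat.le_floor
    rw [le_div_iff₀ hqr]
    have h1 : ((v.natAbs : ℕ) : ℝ) = |(v : ℝ)| := by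
      rw [Nat.cast_natAbs]; push_cast; rfl
    rw [h1]
    rw [hv] at hY
    push_cast at hY
    rw [abs_mul, Nat.abs_cast] at hY
    linarith
  · by_cases h : 0 ≤ v
    · simp only [g, h, decide_true, if_true]
      rw [Int.natAbs_of_nonneg h, hv]
    · simp only [g, h, decide_false, Bool.false_eq_true, if_false]
      rw [Int.ofNat_natAbs_of_nonpos (le_of_not_ge h), hv]
      ring

theorem card_B {q : ℕ} (hq : 1 ≤ q) {Y : ℝ} (hY : 0 ≤ Y) : ((B q Y).card : ℝ) ≤ 2 * Y / q := by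
  have hqr : (0 : ℝ) < q := by exact_mod_cast hq
  have h1 : (B q Y).card ≤ ⌊Y / q⌋₊ * 2 := by
    refine Finset.card_image_le.trans ?_
    rw [Finset.card_product, Nat.card_Icc]
    simp
  have h2 : ((⌊Y / q⌋₊ : ℕ) : ℝ) ≤ Y / q := Nat.floor_le (by positivity)
  calc ((B q Y).card : ℝ) ≤ ((⌊Y / q⌋₊ * 2 : ℕ) : ℝ) := by exact_mod_cast h1
    _ = 2 * (⌊Y / q⌋₊ : ℝ) := by push_cast; ring
    _ ≤ 2 * (Y / q) := by linarith
    _ = 2 * Y / q := by ring

theorem sum_B {q : ℕ} (hq : 1 ≤ q) {H : ℝ} (hH : 1 ≤ H) :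
    ∑ s ∈ B q H, 1 / |(s : ℝ)| ≤ 2 / q * (1 + Real.log H) := by
  have hqr : (0 : ℝ) < q := by exact_mod_cast hq
  unfold B
  rw [Finset.sum_image (g_inj hq _), Finset.sum_product]
  have h1 : ∀ n ∈ Finset.Icc 1 ⌊H / q⌋₊, ∑ b : Bool, 1 / |((g q (n, b) : ℤ) : ℝ)| =
      2 / q * (1 / (n : ℝ)) := by
    intro n hn
    have hn1 : (0 : ℝ) < n := by exact_mod_cast (Finset.mem_Icc.1 hn).1
    have h2 : ∀ b, |((g q (n, b) : ℤ) : ℝ)| = q * n := by
      intro b
      rcases b with _ | _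
      · simp only [g, Bool.false_eq_true, if_false]
        push_cast
        rw [abs_neg, abs_of_pos (by positivity)]
      · simp only [g, if_true]
        push_cast
        rw [abs_of_pos (by positivity)]
    rw [Finset.sum_congr rfl fun b _ => by rw [h2 b]]
    simp only [Finset.sum_const, Finset.card_univ, Fintype.card_bool, nsmul_eq_mul]
    field_simp
    norm_num
  rw [Finset.sum_congr rfl h1, ← Finset.mul_sum]
  have h3 : ∑ n ∈ Finset.Icc 1 ⌊H / q⌋₊, 1 / (n : ℝ) = ((harmonic ⌊H / q⌋₊ : ℚ) : ℝ) := by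
    rw [harmonic_eq_sum_Icc]
    push_cast
    refine Finset.sum_congr rfl fun n _ => by rw [one_div]
  have h4 := harmonic_le_one_add_log ⌊H / q⌋₊
  have h5 : Real.log ⌊H / q⌋₊ ≤ Real.log H := by
    by_cases h0 : ⌊H / q⌋₊ = 0
    · rw [h0]; simp; exact Real.log_nonneg hH
    · refine Real.log_le_log (by exact_mod_cast Nat.pos_of_ne_zero h0) ?_
      refine (Nat.floor_le (by positivity)).trans ?_
      exact div_le_self (by linarith) (by exact_mod_cast hq)
  rw [h3]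
  refine mul_le_mul_of_nonneg_left ?_ (by positivity)
  linarith

/-- integers in an interval congruent to each other -/
theorem card_ap {m : ℕ} (hm : 1 ≤ m) {Y : ℝ} (hY : 0 ≤ Y) (T : Finset ℤ)
    (hT : ∀ x ∈ T, |(x : ℝ)| ≤ Y) (hc : ∀ x ∈ T, ∀ y ∈ T, (m : ℤ) ∣ x - y) :
    (T.card : ℝ) ≤ 1 + 2 * Y / m := by
  have hmr : (0 : ℝ) < m := by exact_mod_cast hm
  rcases T.eq_empty_or_nonempty with rfl | hne
  · simp; positivity
  set a := T.min' hne with ha
  have haT : a ∈ T := T.min'_mem hne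
  have h1 : T.card ≤ (Finset.range (⌊2 * Y / m⌋₊ + 1)).card := by
    refine Finset.card_le_card_of_injOn (fun x => ((x - a) / m).toNat) ?_ ?_
    · intro x hx
      have hx' : x ∈ T := hx
      have h2 : a ≤ x := T.min'_le x hx'
      obtain ⟨c, hc'⟩ := hc x hx' a haT
      have hmz : (m : ℤ) ≠ 0 := by positivity
      have h3 : (x - a) / (m : ℤ) = c := by rw [hc', Int.mul_ediv_cancel_left _ hmz]
      have hc0 : 0 ≤ c := by
        by_contra hneg
        push Not at hneg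
        have : (m : ℤ) * c < 0 := by
          have : (0 : ℤ) < m := by exact_mod_cast hm
          nlinarith
        linarith
      simp only [Finset.coe_range, Set.mem_Iio]
      rw [h3, Nat.lt_succ_iff]
      apply Nat.le_floor
      rw [le_div_iff₀ hmr]
      have h4 : ((c.toNat : ℕ) : ℝ) = (c : ℝ) := by
        have : ((c.toNat : ℕ) : ℤ) = c := Int.toNat_of_nonneg hc0
        exact_mod_cast this
      rw [h4]
      have h5 : (c : ℝ) * m = (x : ℝ) - a := by
        have : ((x - a : ℤ) : ℝ) = ((m * c : ℤ) : ℝ) := by rw [hc']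
        push_cast at this
        linarith
      rw [h5]
      have h6 := (abs_le.1 (hT x hx')).2
      have h7 := (abs_le.1 (hT a haT)).1
      linarith
    · intro x hx y hy hxy
      have hx' : x ∈ T := hx
      have hy' : y ∈ T := hy
      have hmz : (m : ℤ) ≠ 0 := by positivity
      have hmp : (0 : ℤ) < m := by exact_mod_cast hm
      have hax : a ≤ x := T.min'_le x hx'
      have hay : a ≤ y := T.min'_le y hy'
      obtain ⟨c, hc'⟩ := hc x hx' a haT
      obtain ⟨d, hd'⟩ := hc y hy' a haT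
      have h3 : (x - a) / (m : ℤ) = c := by rw [hc', Int.mul_ediv_cancel_left _ hmz]
      have h4 : (y - a) / (m : ℤ) = d := by rw [hd', Int.mul_ediv_cancel_left _ hmz]
      have hc0 : 0 ≤ c := by
        by_contra hneg
        push Not at hneg
        nlinarith
      have hd0 : 0 ≤ d := by
        by_contra hneg
        push Not at hneg
        nlinarith
      simp only [h3, h4] at hxy
      have h5 : c = d := by
        rw [← Int.toNat_of_nonneg hc0, ← Int.toNat_of_nonneg hd0, hxy]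
      have h6 : x - a = y - a := by rw [hc', hd', h5]
      linarith
  rw [Finset.card_range] at h1
  have h2 : ((⌊2 * Y / m⌋₊ : ℕ) : ℝ) ≤ 2 * Y / m := Nat.floor_le (by positivity)
  calc (T.card : ℝ) ≤ ((⌊2 * Y / m⌋₊ + 1 : ℕ) : ℝ) := by exact_mod_cast h1
    _ = (⌊2 * Y / m⌋₊ : ℝ) + 1 := by push_cast; ring
    _ ≤ 1 + 2 * Y / m := by linarith

/-- the number of `x` with given `x 0` -/
theorem fibre {m : ℕ} (s : ℤ) {Y : ℝ} (hY : 0 ≤ Y) (q : Fin (m + 3) → ℕ) (hq : ∀ i, 1 ≤ q i)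
    (hcop : Nat.Coprime (q 1) (q 2)) (F : Finset (Fin (m + 3) → ℤ))
    (hF : ∀ x ∈ F, x 0 = s ∧ ∑ i, x i = 0 ∧ ∀ i, x i ≠ 0 ∧ (q i : ℤ) ∣ x i ∧ |(x i : ℝ)| ≤ Y) :
    (F.card : ℝ) ≤ (∏ l : Fin m, (2 * Y / q l.succ.succ.succ)) *
      (1 + 2 * Y / ((q 1 * q 2 : ℕ) : ℝ)) := by
  classical
  let rest : (Fin (m + 3) → ℤ) → (Fin m → ℤ) := fun x l => x l.succ.succ.succ
  let P : Finset (Fin m → ℤ) := Fintype.piFinset fun l => B (q l.succ.succ.succ) Y
  have hmaps : ∀ x ∈ F, rest x ∈ P := by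
    intro x hx
    rw [Fintype.mem_piFinset]
    intro l
    obtain ⟨-, -, h⟩ := hF x hx
    obtain ⟨h1, h2, h3⟩ := h l.succ.succ.succ
    exact mem_B (hq _) h1 h2 h3
  have hsum : ∀ x : Fin (m + 3) → ℤ, ∑ i, x i = x 0 + (x 1 + (x 2 + ∑ l : Fin m, rest x l)) := by
    intro x
    rw [Fin.sum_univ_succ, Fin.sum_univ_succ, Fin.sum_univ_succ]
    rfl
  have hfib : ∀ y ∈ P, (((F.filter fun x => rest x = y).card : ℕ) : ℝ) ≤
      1 + 2 * Y / ((q 1 * q 2 : ℕ) : ℝ) := by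
    intro y _
    have hinj : Set.InjOn (fun x : Fin (m + 3) → ℤ => x 1) (F.filter fun x => rest x = y) := by
      intro x hx x' hx' h
      rw [Finset.mem_coe, Finset.mem_filter] at hx hx'
      obtain ⟨hxF, hxy⟩ := hx
      obtain ⟨hxF', hxy'⟩ := hx'
      have h1 : x 1 = x' 1 := h
      have h2 : x 0 = x' 0 := by rw [(hF x hxF).1, (hF x' hxF').1]
      have h3 := (hF x hxF).2.1
      have h4 := (hF x' hxF').2.1
      rw [hsum] at h3 h4
      rw [hxy] at h3
      rw [hxy'] at h4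
      have h5 : x 2 = x' 2 := by linarith
      funext i
      refine Fin.cases h2 (fun i => ?_) i
      refine Fin.cases h1 (fun i => ?_) i
      refine Fin.cases h5 (fun i => ?_) i
      exact congrFun (hxy.trans hxy'.symm) i
    rw [← Finset.card_image_of_injOn hinj]
    refine card_ap (Nat.mul_pos (hq 1) (hq 2)) hY _ ?_ ?_
    · intro z hz
      obtain ⟨x, hx, rfl⟩ := Finset.mem_image.1 hz
      exact ((hF x (Finset.mem_filter.1 hx).1).2.2 1).2.2
    · intro z hz z' hz'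
      obtain ⟨x, hx, rfl⟩ := Finset.mem_image.1 hz
      obtain ⟨x', hx', rfl⟩ := Finset.mem_image.1 hz'
      obtain ⟨hxF, hxy⟩ := Finset.mem_filter.1 hx
      obtain ⟨hxF', hxy'⟩ := Finset.mem_filter.1 hx'
      have h3 := (hF x hxF).2.1
      have h4 := (hF x' hxF').2.1
      rw [hsum, (hF x hxF).1, hxy] at h3
      rw [hsum, (hF x' hxF').1, hxy'] at h4
      have hd1 : (q 1 : ℤ) ∣ x 1 - x' 1 :=
        dvd_sub ((hF x hxF).2.2 1).2.1 ((hF x' hxF').2.2 1).2.1
      have hd2 : (q 2 : ℤ) ∣ x 1 - x' 1 := by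
        have h5 : x 1 - x' 1 = x' 2 - x 2 := by linarith
        rw [h5]
        exact dvd_sub ((hF x' hxF').2.2 2).2.1 ((hF x hxF).2.2 2).2.1
      have hco : IsCoprime (q 1 : ℤ) (q 2 : ℤ) := Nat.isCoprime_iff_coprime.2 hcop
      push_cast
      exact hco.mul_dvd hd1 hd2
  have hpos : 0 ≤ 1 + 2 * Y / ((q 1 * q 2 : ℕ) : ℝ) := by positivity
  rw [Finset.card_eq_sum_card_fiberwise hmaps]
  push_cast
  calc ∑ y ∈ P, ((F.filter fun x => rest x = y).card : ℝ)
      ≤ ∑ _y ∈ P, (1 + 2 * Y / ((q 1 * q 2 : ℕ) : ℝ)) := Finset.sum_le_sum hfib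
    _ = (P.card : ℝ) * (1 + 2 * Y / ((q 1 * q 2 : ℕ) : ℝ)) := by
        rw [Finset.sum_const, nsmul_eq_mul]
    _ ≤ (∏ l : Fin m, (2 * Y / q l.succ.succ.succ)) * (1 + 2 * Y / ((q 1 * q 2 : ℕ) : ℝ)) := by
        refine mul_le_mul_of_nonneg_right ?_ hpos
        rw [Fintype.card_piFinset]
        push_cast
        exact Finset.prod_le_prod (fun l _ => Nat.cast_nonneg _) fun l _ => card_B (hq _) hY
    _ = _ := by push_cast; ring

end Lsum

open Lsum in
theorem lsum : S_LSUM := by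
  intro k hk A hA
  obtain ⟨m, rfl⟩ : ∃ m, k = m + 1 := ⟨k - 1, by omega⟩
  refine ⟨(2 * A) ^ m * 2 * (1 + 2 * A), by positivity, ?_⟩
  intro H q hH hq hcop hQ E hE
  classical
  have hlog : 0 ≤ Real.log H := Real.log_nonneg hH
  have hqr : ∀ i, (0 : ℝ) < q i := fun i => by exact_mod_cast hq i
  have hprod : ((∏ i, q i : ℕ) : ℝ) = q 0 * (q 1 * (q 2 * ∏ l : Fin m, (q l.succ.succ.succ : ℝ))) := by
    push_cast
    rw [Fin.prod_univ_succ, Fin.prod_univ_succ, Fin.prod_univ_succ]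
    rfl
  set Q' : ℝ := ∏ l : Fin m, (q l.succ.succ.succ : ℝ) with hQ'
  have hQ'1 : 1 ≤ Q' := by
    have h1 : 1 ≤ ∏ l : Fin m, q l.succ.succ.succ :=
      Nat.one_le_iff_ne_zero.2 (Finset.prod_ne_zero_iff.2 fun l _ =>
        Nat.one_le_iff_ne_zero.1 (hq _))
    rw [hQ']
    exact_mod_cast h1
  have hQ'0 : 0 < Q' := by linarith
  -- the sum over `x 0`
  have hmaps : ∀ x ∈ E, x 0 ∈ B (q 0) H := by
    intro x hx
    obtain ⟨-, h2, h3⟩ := hE x hx
    exact mem_B (hq 0) (h2 0).1 (h2 0).2.1 h3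
  have h1 : ∑ x ∈ E, 1 / |(x 0 : ℝ)| ^ (m + 1) =
      ∑ s ∈ B (q 0) H, ∑ x ∈ E.filter (fun x => x 0 = s), 1 / |(x 0 : ℝ)| ^ (m + 1) :=
    (Finset.sum_fiberwise_of_maps_to hmaps _).symm
  have h2 : ∀ s ∈ B (q 0) H, ∑ x ∈ E.filter (fun x => x 0 = s), 1 / |(x 0 : ℝ)| ^ (m + 1) ≤
      (2 * A) ^ m / Q' * (1 / |(s : ℝ)| + 2 * A / (q 1 * q 2)) := by
    intro s hs
    have hs0 : s ≠ 0 := by
      obtain ⟨⟨n, b⟩, hn, rfl⟩ := Finset.mem_image.1 hs
      have hn1 : (1 : ℤ) ≤ n := by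
        exact_mod_cast (Finset.mem_Icc.1 (Finset.mem_product.1 hn).1).1
      have hq' : (1 : ℤ) ≤ q 0 := by exact_mod_cast hq 0
      have hp : 0 < (q 0 : ℤ) * n := by positivity
      rcases b with _ | _
      · simp only [g, Bool.false_eq_true, if_false]; omega
      · simp only [g, if_true]; omega
    have hsp : 0 < |(s : ℝ)| := abs_pos.2 (by exact_mod_cast hs0)
    have h3 : ∑ x ∈ E.filter (fun x => x 0 = s), 1 / |(x 0 : ℝ)| ^ (m + 1) =
        ((E.filter (fun x => x 0 = s)).card : ℝ) * (1 / |(s : ℝ)| ^ (m + 1)) := by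
      rw [← nsmul_eq_mul, ← Finset.sum_const]
      refine Finset.sum_congr rfl fun x hx => ?_
      rw [(Finset.mem_filter.1 hx).2]
    rw [h3]
    have h4 := fibre s (Y := A * |(s : ℝ)|) (by positivity) q hq
      (hcop 1 2 (by
        intro h
        have := congrArg Fin.val h
        simp at this
        rw [Nat.mod_eq_of_lt (by omega)] at this
        omega)) (E.filter (fun x => x 0 = s)) (by
        intro x hx
        obtain ⟨hxE, hxs⟩ := Finset.mem_filter.1 hx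
        obtain ⟨h5, h6, -⟩ := hE x hxE
        refine ⟨hxs, h5, fun i => ⟨(h6 i).1, (h6 i).2.1, ?_⟩⟩
        have := (h6 i).2.2
        rwa [hxs] at this)
    have h5 : ∏ l : Fin m, (2 * (A * |(s : ℝ)|) / q l.succ.succ.succ) =
        (2 * A) ^ m * |(s : ℝ)| ^ m / Q' := by
      rw [Finset.prod_div_distrib, Finset.prod_const, Finset.card_univ, Fintype.card_fin, hQ']
      congr 1
      rw [← mul_pow]
      congr 1
      ring
    rw [h5] at h4
    refine (mul_le_mul_of_nonneg_right h4 (by positivity)).trans (le_of_eq ?_)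
    have hq1 := hqr 1
    have hq2 := hqr 2
    push_cast
    field_simp
    ring
  have h3 : ∑ x ∈ E, 1 / |(x 0 : ℝ)| ^ (m + 1) ≤
      (2 * A) ^ m / Q' * (2 / q 0 * (1 + Real.log H) + 2 * H / q 0 * (2 * A / (q 1 * q 2))) := by
    rw [h1]
    refine (Finset.sum_le_sum h2).trans ?_
    rw [← Finset.mul_sum, Finset.sum_add_distrib, Finset.sum_const, nsmul_eq_mul]
    have hq1 := hqr 1
    have hq2 := hqr 2
    refine mul_le_mul_of_nonneg_left ?_ (by positivity)
    refine add_le_add (sum_B (hq 0) hH) ?_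
    exact mul_le_mul_of_nonneg_right (card_B (hq 0) (by linarith)) (by positivity)
  have hq0 := hqr 0
  have hq1 := hqr 1
  have hq2 := hqr 2
  have hq12 : (q 1 : ℝ) * q 2 ≤ H := by
    have h0 : (1 : ℝ) ≤ q 0 := by exact_mod_cast hq 0
    have h4 : (q 1 : ℝ) * q 2 ≤ ((∏ i, q i : ℕ) : ℝ) := by
      rw [hprod]
      have h5 : (q 1 : ℝ) * q 2 ≤ q 0 * ((q 1 * q 2) * Q') := by
        have h6 : (q 1 : ℝ) * q 2 * 1 ≤ (q 1 * q 2) * Q' :=
          mul_le_mul_of_nonneg_left hQ'1 (by positivity)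
        have h7 : 1 * ((q 1 : ℝ) * q 2 * Q') ≤ q 0 * ((q 1 * q 2) * Q') :=
          mul_le_mul_of_nonneg_right h0 (by positivity)
        linarith
      calc (q 1 : ℝ) * q 2 ≤ q 0 * ((q 1 * q 2) * Q') := h5
        _ = q 0 * (q 1 * (q 2 * Q')) := by ring
    exact h4.trans hQ
  calc ((∏ i, q i : ℕ) : ℝ) * ∑ x ∈ E, 1 / |(x 0 : ℝ)| ^ (m + 1)
      ≤ ((∏ i, q i : ℕ) : ℝ) * ((2 * A) ^ m / Q' *
        (2 / q 0 * (1 + Real.log H) + 2 * H / q 0 * (2 * A / (q 1 * q 2)))) :=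
        mul_le_mul_of_nonneg_left h3 (Nat.cast_nonneg _)
    _ = (2 * A) ^ m * 2 * ((q 1 * q 2) * (1 + Real.log H) + 2 * A * H) := by
        rw [hprod]
        field_simp
    _ ≤ (2 * A) ^ m * 2 * (H * (1 + Real.log H) + 2 * A * H * (1 + Real.log H)) := by
        refine mul_le_mul_of_nonneg_left ?_ (by positivity)
        refine add_le_add (mul_le_mul_of_nonneg_right hq12 (by positivity)) ?_
        have : 0 ≤ 2 * A * H := by positivity
        nlinarith
    _ = (2 * A) ^ m * 2 * (1 + 2 * A) * H * (1 + Real.log H) := by ring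

end Pool.Agent.H65NT
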