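import Pool.Agent.H65NT.Stm
import Pool.Agent.H34x.NT.Short

/-!
# Short independent vectors in thin tubes
-/

set_option autoImplicit false

namespace Pool.Agent.H65NT

open Finset Filter Topology
open Pool.Agent.TH461.SST
open Pool.Agent.H393R2.Geom (app app_apply)

/-- the forms `z_0 / H`, `(z_0 ξ_i - z_(i+1)) / ρ` -/
noncomputable def AA {k : ℕ} (ξ : Fin k → ℝ) (H ρ : ℝ) : Matrix (Fin (k + 1)) (Fin (k + 1)) ℝ :=
  Matrix.of (Fin.cons (fun j => if j = 0 then 1 / H else 0)
    (fun i j => if j = 0 then ξ i / ρ else if j = i.succ then -1 / ρ else 0))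

theorem AA_zero {k : ℕ} (ξ : Fin k → ℝ) (H ρ : ℝ) (z : Fin (k + 1) → ℝ) :
    (AA ξ H ρ).mulVec z 0 = z 0 / H := by
  unfold AA
  rw [Matrix.mulVec, dotProduct]
  simp only [Matrix.of_apply, Fin.cons_zero, ite_mul, zero_mul, Finset.sum_ite_eq', mem_univ,
    if_true]
  ring

theorem AA_succ {k : ℕ} (ξ : Fin k → ℝ) (H ρ : ℝ) (z : Fin (k + 1) → ℝ) (i : Fin k) :
    (AA ξ H ρ).mulVec z i.succ = (z 0 * ξ i - z i.succ) / ρ := by
  unfold AA
  rw [Matrix.mulVec, dotProduct, Fin.sum_univ_succ]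
  simp only [Matrix.of_apply, Fin.cons_succ, if_true, Fin.succ_ne_zero, if_false,
    Fin.succ_inj, ite_mul, zero_mul, Finset.sum_ite_eq', mem_univ]
  ring

theorem AA_det {k : ℕ} (ξ : Fin k → ℝ) {H ρ : ℝ} (hH : 0 < H) (hρ : 0 < ρ) :
    |(AA ξ H ρ).det| = 1 / (H * ρ ^ k) := by
  have h1 : (AA ξ H ρ).BlockTriangular OrderDual.toDual := by
    intro i j hij
    have hij' : i < j := hij
    refine Fin.cases ?_ (fun i' => ?_) i (motive := fun i => i < j → AA ξ H ρ i j = 0) hij'
    · intro h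
      unfold AA
      simp only [Matrix.of_apply, Fin.cons_zero]
      rw [if_neg h.ne']
    · intro h
      unfold AA
      simp only [Matrix.of_apply, Fin.cons_succ]
      rw [if_neg, if_neg h.ne']
      intro h0
      rw [h0] at h
      exact absurd h (Fin.not_lt_zero _)
  rw [Matrix.det_of_isLowerTriangular _ h1, Fin.prod_univ_succ]
  have h2 : AA ξ H ρ 0 0 = 1 / H := by
    unfold AA
    simp
  have h3 : ∀ i : Fin k, AA ξ H ρ i.succ i.succ = -1 / ρ := by
    intro i
    unfold AA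
    simp only [Matrix.of_apply, Fin.cons_succ]
    rw [if_neg (Fin.succ_ne_zero i)]
    simp
  rw [h2, Finset.prod_congr rfl fun i _ => h3 i, Finset.prod_const, Finset.card_univ,
    Fintype.card_fin, abs_mul, abs_pow, abs_of_pos (by positivity : 0 < 1 / H),
    neg_div, abs_neg, abs_of_pos (by positivity : 0 < 1 / ρ)]
  rw [one_div_pow, one_div_mul_one_div]

theorem PP_eq (m : ℕ) : PP m = Pool.Agent.H34x.NT.PP m := rfl

theorem minv : S_MIN := by
  classical
  intro k hk
  set m : ℕ := k + 1 with hmk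
  have hm : 0 < m := by omega
  set K : ℝ := 2 * (m : ℝ) ^ m with hK
  have hm1 : (1 : ℝ) ≤ m := by exact_mod_cast hm
  have hm0 : (0 : ℝ) < m := by linarith
  have hK1 : 1 ≤ K := by
    have : (1 : ℝ) ≤ (m : ℝ) ^ m := one_le_pow₀ hm1
    rw [hK]; linarith
  refine ⟨K ^ m, ⌈(m.factorial : ℝ) * K ^ m⌉₊, by positivity, ?_⟩
  intro b hb e ξ H ρ θ hH hρ hθ hQ hno
  -- a basis of the lattice
  set l0 : Fin m := ⟨0, hm⟩ with hl0
  obtain ⟨B, hB0, hB1, hB2⟩ := Pool.Agent.TH461.SST.Basis.basis m (m + 1)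
    (fun v l j => if l = l0 then PP m v j else 0) b
    hb (fun v l => if l = l0 then e v else 0)
  have hBiff : ∀ y : Fin m → ℤ, (∀ i, (b i : ℤ) ^ (e i) ∣ ∑ l, PP m i l * y l) ↔
      ∃ z : Fin m → ℤ, y = B.mulVec z := by
    intro y
    rw [← hB2 y]
    constructor
    · intro h v l
      by_cases hl : l = l0
      · simp only [hl, if_true]
        exact h v
      · simp [hl]
    · intro h i
      have := h i l0
      simpa using this
  set dB : ℝ := |(B.det : ℝ)| with hdB
  have hdB0 : 0 < dB := by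
    rw [hdB, abs_pos]
    exact_mod_cast hB0
  have hdBle : dB ≤ H * ρ ^ k := by
    refine le_trans ?_ hQ
    have h1 : |B.det| ≤ ∏ i, (b i : ℤ) ^ (e i) := by
      refine hB1.trans (le_of_eq ?_)
      refine Finset.prod_congr rfl fun i _ => ?_
      rw [Finset.prod_eq_single l0]
      · simp
      · intro l _ hl
        simp [hl]
      · intro h
        exact absurd (mem_univ _) h
    have h2 : ((|B.det| : ℤ) : ℝ) ≤ ((∏ i, (b i : ℤ) ^ (e i) : ℤ) : ℝ) := by exact_mod_cast h1
    rw [Int.cast_abs] at h2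
    refine h2.trans (le_of_eq ?_)
    push_cast
    rfl
  -- the normalised matrix
  set BR : Matrix (Fin m) (Fin m) ℝ := B.map (fun z : ℤ => (z : ℝ)) with hBR
  have hBRdet : BR.det = (B.det : ℝ) := by
    have := (Int.castRingHom ℝ).map_det B
    simpa using this.symm
  set AM : Matrix (Fin m) (Fin m) ℝ := AA ξ H ρ with hAM
  have hAdet : |AM.det| = 1 / (H * ρ ^ k) := AA_det ξ hH hρ
  set dA : ℝ := dB / (H * ρ ^ k) with hdA
  have hHρ : 0 < H * ρ ^ k := by positivity
  have hdA0 : 0 < dA := div_pos hdB0 hHρ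
  have hdA1 : dA ≤ 1 := by rw [hdA, div_le_one hHρ]; exact hdBle
  set s : ℝ := dA ^ (-(1 : ℝ) / m) with hs
  have hs0 : 0 < s := by positivity
  have hs1 : 1 ≤ s := by
    rw [hs]
    apply Real.one_le_rpow_of_pos_of_le_one_of_nonpos hdA0 hdA1
    rw [neg_div]
    have : (0 : ℝ) ≤ 1 / m := by positivity
    linarith
  have hsm : s ^ m * dA = 1 := by
    rw [hs, ← Real.rpow_natCast, ← Real.rpow_mul hdA0.le]
    have h1 : -(1 : ℝ) / m * (m : ℕ) = -1 := by field_simp
    rw [h1, Real.rpow_neg_one, inv_mul_cancel₀ hdA0.ne']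
  set L : Matrix (Fin m) (Fin m) ℝ := s • (AM * BR) with hL
  have hLdet : |L.det| = 1 := by
    rw [hL, Matrix.det_smul, Fintype.card_fin, Matrix.det_mul, abs_mul, abs_mul, hBRdet, hAdet,
      abs_of_pos (by positivity), ← hdB]
    calc s ^ m * (1 / (H * ρ ^ k) * dB) = s ^ m * dA := by rw [hdA]; ring
      _ = 1 := hsm
  have hLdet0 : L.det ≠ 0 := by
    intro h
    rw [h] at hLdet
    simp at hLdet
  have hLunit : IsUnit L.det := isUnit_iff_ne_zero.2 hLdet0
  have hLs : (L⁻¹.transpose).transpose * L = 1 := by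
    rw [Matrix.transpose_transpose]
    exact Matrix.nonsing_inv_mul L hLunit
  obtain ⟨G, hG0, hGmono, hGmin⟩ := Pool.Agent.H393R2.Geom.minima L _ hLs
  have hprod := Pool.Agent.H393R2.Geom.prod_upper L G hm hLdet hG0 hGmono hGmin
  -- the vectors
  set Z : Fin m → Fin m → ℤ := fun j => B.mulVec (G j) with hZ
  have happ : ∀ j, app L (G j) = s • AM.mulVec (fun l => (Z j l : ℝ)) := by
    intro j
    ext l
    rw [app_apply, hL, Matrix.smul_mulVec, Pi.smul_apply, Pi.smul_apply, ← Matrix.mulVec_mulVec]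
    congr 2
    ext l'
    simp only [Matrix.mulVec, dotProduct, hBR, Matrix.map_apply, hZ]
    push_cast
    rfl
  have happ0 : ∀ j, app L (G j) (0 : Fin (k + 1)) = s * ((Z j (0 : Fin (k + 1)) : ℝ) / H) := by
    intro j
    rw [happ, Pi.smul_apply, smul_eq_mul, hAM, AA_zero]
  have happs : ∀ j (i : Fin k), app L (G j) (i.succ : Fin (k + 1)) =
      s * (((Z j (0 : Fin (k + 1)) : ℝ) * ξ i - Z j (i.succ : Fin (k + 1))) / ρ) := by
    intro j i
    rw [happ, Pi.smul_apply, smul_eq_mul, hAM, AA_succ]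
  have hGj : ∀ j, G j ≠ 0 := by
    intro j h
    exact hG0 (Matrix.det_eq_zero_of_row_eq_zero j fun l => congrFun h l)
  have hBGj : ∀ j, Z j ≠ 0 := by
    intro j h
    have h1 : (B.adjugate * B).mulVec (G j) = 0 := by
      rw [← Matrix.mulVec_mulVec]
      have h2 : B.mulVec (G j) = 0 := h
      rw [h2, Matrix.mulVec_zero]
    rw [Matrix.adjugate_mul, Matrix.smul_mulVec, Matrix.one_mulVec] at h1
    rcases smul_eq_zero.1 h1 with h2 | h2
    · exact hB0 h2
    · exact hGj j h2
  have hnorm : ∀ j, θ ≤ ‖app L (G j)‖ := by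
    intro j
    by_contra hcon
    push Not at hcon
    have h1 : |(Z j (0 : Fin (k + 1)) : ℝ)| ≤ θ * H := by
      have h := norm_le_pi_norm (app L (G j)) (0 : Fin (k + 1))
      rw [happ0, Real.norm_eq_abs, abs_mul, abs_of_pos hs0, abs_div, abs_of_pos hH] at h
      have h2 : |(Z j (0 : Fin (k + 1)) : ℝ)| / H ≤ s * (|(Z j (0 : Fin (k + 1)) : ℝ)| / H) :=
        le_mul_of_one_le_left (by positivity) hs1
      have h3 : |(Z j (0 : Fin (k + 1)) : ℝ)| / H ≤ θ := by linarith
      rwa [div_le_iff₀ hH] at h3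
    obtain ⟨i, hi⟩ := hno (Z j) (hBGj j) ((hBiff _).2 ⟨G j, rfl⟩) h1
    have h := norm_le_pi_norm (app L (G j)) (i.succ : Fin (k + 1))
    rw [happs, Real.norm_eq_abs, abs_mul, abs_of_pos hs0, abs_div, abs_of_pos hρ] at h
    have h2 : |(Z j (0 : Fin (k + 1)) : ℝ) * ξ i - Z j (i.succ : Fin (k + 1))| / ρ ≤
        s * (|(Z j (0 : Fin (k + 1)) : ℝ) * ξ i - Z j (i.succ : Fin (k + 1))| / ρ) :=
      le_mul_of_one_le_left (by positivity) hs1
    have h3 : |(Z j (0 : Fin (k + 1)) : ℝ) * ξ i - Z j (i.succ : Fin (k + 1))| / ρ ≤ θ := by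
      linarith
    rw [div_le_iff₀ hρ] at h3
    linarith
  have hupper : ∀ j, ‖app L (G j)‖ ≤ K ^ m / θ ^ k := by
    intro j
    have h1 : ‖app L (G j)‖ * ∏ i ∈ univ.erase j, ‖app L (G i)‖ ≤ K ^ m := by
      rw [Finset.mul_prod_erase univ (fun i => ‖app L (G i)‖) (mem_univ j)]
      exact hprod
    have h2 : θ ^ k ≤ ∏ i ∈ univ.erase j, ‖app L (G i)‖ := by
      have h4 : (univ.erase j : Finset (Fin m)).card = k := by
        rw [Finset.card_erase_of_mem (mem_univ j), Finset.card_univ, Fintype.card_fin]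
        omega
      rw [← h4, ← Finset.prod_const]
      exact Finset.prod_le_prod (fun i _ => hθ.le) fun i _ => hnorm i
    rw [le_div_iff₀ (by positivity)]
    exact (mul_le_mul_of_nonneg_left h2 (norm_nonneg _)).trans h1
  refine ⟨fun j l => Z j l, fun j i => (hBiff _).2 ⟨G j, rfl⟩ i, ?_, ?_, ?_, ?_⟩
  · intro j
    have h := (norm_le_pi_norm (app L (G j)) (0 : Fin (k + 1))).trans (hupper j)
    rw [happ0, Real.norm_eq_abs, abs_mul, abs_of_pos hs0, abs_div, abs_of_pos hH] at h
    have h2 : |(Z j (0 : Fin (k + 1)) : ℝ)| / H ≤ s * (|(Z j (0 : Fin (k + 1)) : ℝ)| / H) :=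
      le_mul_of_one_le_left (by positivity) hs1
    rw [← div_le_iff₀ hH]
    exact h2.trans h
  · intro j i
    have h := (norm_le_pi_norm (app L (G j)) (i.succ : Fin (k + 1))).trans (hupper j)
    rw [happs, Real.norm_eq_abs, abs_mul, abs_of_pos hs0, abs_div, abs_of_pos hρ] at h
    have h2 : |(Z j (0 : Fin (k + 1)) : ℝ) * ξ i - Z j (i.succ : Fin (k + 1))| / ρ ≤
        s * (|(Z j (0 : Fin (k + 1)) : ℝ) * ξ i - Z j (i.succ : Fin (k + 1))| / ρ) :=
      le_mul_of_one_le_left (by positivity) hs1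
    rw [← div_le_iff₀ hρ]
    exact h2.trans h
  · have h3 : (fun j l => Z j l) = G * B.transpose := by
      ext j l
      rw [Matrix.mul_apply]
      simp only [hZ, Matrix.mulVec, dotProduct, Matrix.transpose_apply]
      refine Finset.sum_congr rfl fun i _ => by ring
    have h2 : Matrix.det (fun j l => Z j l) = G.det * B.det := by
      rw [h3, Matrix.det_mul, Matrix.det_transpose]
    rw [h2]
    exact mul_ne_zero hG0 hB0
  · intro p hp hQp hpb hdvd
    have h3 : (fun j l => Z j l) = G * B.transpose := by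
      ext j l
      rw [Matrix.mul_apply]
      simp only [hZ, Matrix.mulVec, dotProduct, Matrix.transpose_apply]
      refine Finset.sum_congr rfl fun i _ => by ring
    have h2 : Matrix.det (fun j l => Z j l) = G.det * B.det := by
      rw [h3, Matrix.det_mul, Matrix.det_transpose]
    rw [h2] at hdvd
    have hpZ : Prime (p : ℤ) := Nat.prime_iff_prime_int.1 hp
    rcases hpZ.dvd_or_dvd hdvd with h3 | h3
    · -- `|det G| ≤ Q`
      have h4 := Pool.Agent.H393R2.Geom.abs_det_le (Pool.Agent.H393R2.Geom.MM L G)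
        (fun j => ‖app L (G j)‖) (by
          intro i l
          rw [Pool.Agent.H393R2.Geom.MM_apply]
          exact norm_le_pi_norm (app L (G i)) l)
      rw [Pool.Agent.H393R2.Geom.det_MM, abs_mul, hLdet, mul_one] at h4
      have h5 : |(G.det : ℝ)| ≤ (m.factorial : ℝ) * K ^ m := by
        refine h4.trans ?_
        exact mul_le_mul_of_nonneg_left hprod (by positivity)
      have h6 : (p : ℤ) ≤ |G.det| := by
        have h7 : 0 < |G.det| := abs_pos.2 hG0
        exact Int.le_of_dvd h7 ((dvd_abs _ _).2 h3)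
      have h7 : (p : ℝ) ≤ |(G.det : ℝ)| := by
        have h8 : ((p : ℤ) : ℝ) ≤ ((|G.det| : ℤ) : ℝ) := by exact_mod_cast h6
        rw [Int.cast_abs] at h8
        exact_mod_cast h8
      have h8 : (p : ℝ) ≤ (⌈(m.factorial : ℝ) * K ^ m⌉₊ : ℝ) :=
        h7.trans (h5.trans (Nat.le_ceil _))
      have h9 : p ≤ ⌈(m.factorial : ℝ) * K ^ m⌉₊ := by exact_mod_cast h8
      omega
    · -- `det B` divides a power of `D`
      set D : ℤ := ∏ i, (b i : ℤ) ^ (e i) with hDdef
      have h4 : ∀ k : Fin m, ∃ y : Fin m → ℤ, (fun l => if l = k then D else 0) = B.mulVec y := by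
        intro k
        rw [← hBiff]
        intro i
        apply Dvd.dvd.trans (b := D)
        · exact Finset.dvd_prod_of_mem _ (mem_univ i)
        · apply Finset.dvd_sum
          intro l _
          split_ifs
          · exact Dvd.intro_left _ rfl
          · simp
      choose y hy using h4
      have h5 : B * (Matrix.of fun l k => y k l) = D • (1 : Matrix (Fin m) (Fin m) ℤ) := by
        ext l k
        have h6 := congrFun (hy k) l
        rw [Matrix.mul_apply]
        simp only [Matrix.mulVec, dotProduct] at h6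
        simp only [Matrix.of_apply]
        rw [← h6]
        simp [Matrix.one_apply]
      have h6 : B.det * (Matrix.of fun l k => y k l).det = D ^ m := by
        rw [← Matrix.det_mul, h5, Matrix.det_smul, Matrix.det_one, Fintype.card_fin, mul_one]
      have h7 : (p : ℤ) ∣ D ^ m := h3.trans (Dvd.intro _ h6)
      have h8 : (p : ℤ) ∣ D := hpZ.dvd_of_dvd_pow h7
      rw [hDdef, Prime.dvd_finsetProd_iff hpZ] at h8
      obtain ⟨i, _, hi⟩ := h8
      have h9 := hpZ.dvd_of_dvd_pow hi
      exact hpb i (by exact_mod_cast h9)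

end Pool.Agent.H65NT
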