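import Pool.Agent.H65NT.Stm

/-!
# Piece NEC: metric lower bound for the radicals (helper75)
-/

set_option autoImplicit false

namespace Pool.Agent.H65NT.Nec

open Finset Filter MeasureTheory

/-- the tuples in the block `j` -/
def Fj (k : ℕ) (c B t δ : ℝ) (j : ℕ) : Set (Fin (k + 2) → ℤ) :=
  {x | ∑ i, x i = 0 ∧ (∀ i j, i ≠ j → IsCoprime (x i) (x j)) ∧
    (∀ i, c * (x 0 : ℝ) ≤ |(x i : ℝ)| ∧ |(x i : ℝ)| ≤ B * (x 0 : ℝ)) ∧
    (2 : ℝ) ^ j ≤ x 0 ∧ (x 0 : ℝ) < 2 ^ (j + 1) ∧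
    ∏ i, (R (x i).natAbs : ℝ) ≤ (x 0 : ℝ) ^ (1 + k * t - δ)}

theorem pow_low {T X e : ℝ} (hT : 1 ≤ T) (h1 : T ≤ X) (h2 : X < 2 * T) :
    T ^ e * 2 ^ (-|e|) ≤ X ^ e := by
  have hT0 : 0 < T := by linarith
  rcases le_total 0 e with he | he
  · have h3 : T ^ e ≤ X ^ e := Real.rpow_le_rpow hT0.le h1 he
    have h4 : (2 : ℝ) ^ (-|e|) ≤ 1 :=
      Real.rpow_le_one_of_one_le_of_nonpos (by norm_num) (by simp)
    have h5 : 0 ≤ T ^ e := Real.rpow_nonneg hT0.le _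
    nlinarith
  · rw [abs_of_nonpos he, neg_neg, mul_comm, ← Real.mul_rpow (by norm_num) hT0.le]
    exact Real.rpow_le_rpow_of_nonpos (by linarith) h2.le he

theorem block (h2 : S_CNT) (k : ℕ) (hk : 2 ≤ k) (c B t δ : ℝ) (hc : 0 < c) (hB : 1 ≤ B)
    (ht : 1 < t) (hδ : 0 < δ) : ∃ u : ℕ → ℝ, Summable u ∧ ∀ j (E : Finset (Fin (k + 2) → ℤ)),
      (∀ x ∈ E, x ∈ Fj k c B t δ j) → ∑ x ∈ E, ((x 0 : ℝ) ^ (-t)) ^ k ≤ u j := by
  obtain ⟨η, hη⟩ : ∃ η : ℝ, η = min (k * (t - 1)) δ / 2 := ⟨_, rfl⟩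
  have hk0 : (0 : ℝ) < k := by
    have : (2 : ℝ) ≤ k := by exact_mod_cast hk
    linarith
  have hm : 0 < min (k * (t - 1)) δ := lt_min (mul_pos hk0 (by linarith)) hδ
  have hη0 : 0 < η := by rw [hη]; linarith
  have hη1 : 2 * η ≤ k * (t - 1) := by
    rw [hη]
    have := min_le_left (k * (t - 1)) δ
    linarith
  have hη2 : 2 * η ≤ δ := by
    rw [hη]
    have := min_le_right (k * (t - 1)) δ
    linarith
  obtain ⟨C, hC, hcnt⟩ := h2 k hk η hη0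
  obtain ⟨e, he⟩ : ∃ e : ℝ, e = k + 1 - k * t + δ := ⟨_, rfl⟩
  obtain ⟨K, hK⟩ : ∃ K : ℝ, K = C * (2 * B) ^ η * ((2 * B) ^ k +
    (2 * B) ^ (k + 1) / (c ^ (k + 2) * 2 ^ (-|e|))) := ⟨_, rfl⟩
  have hlt : (2 : ℝ) ^ (-η) < 1 := Real.rpow_lt_one_of_one_lt_of_neg (by norm_num) (by linarith)
  refine ⟨fun j => K * ((2 : ℝ) ^ (-η)) ^ j,
    (summable_geometric_of_lt_one (by positivity) hlt).mul_left K, ?_⟩
  intro j E hE
  obtain ⟨T, hT⟩ : ∃ T : ℝ, T = 2 ^ j := ⟨_, rfl⟩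
  have hT1 : 1 ≤ T := by
    rw [hT]
    exact one_le_pow₀ (by norm_num)
  have hT0 : 0 < T := by linarith
  have h2c : (0 : ℝ) < 2 ^ (-|e|) := by positivity
  have hTe : 0 < T ^ e := Real.rpow_pos_of_pos hT0 _
  have hx : ∀ x ∈ E, T ≤ (x 0 : ℝ) ∧ (x 0 : ℝ) < 2 * T := by
    intro x hx
    obtain ⟨-, -, -, h4, h5, -⟩ := hE x hx
    rw [hT]
    refine ⟨h4, ?_⟩
    rw [pow_succ] at h5
    linarith
  have hcard : (E.card : ℝ) ≤ C * (2 * B * T) ^ η * ((2 * B * T) ^ k +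
      (2 * B * T) ^ (k + 1) / (c ^ (k + 2) * (T ^ e * 2 ^ (-|e|)))) := by
    refine hcnt (2 * B * T) (c ^ (k + 2) * (T ^ e * 2 ^ (-|e|))) (by nlinarith) (by positivity) E ?_
    intro x hxE
    obtain ⟨h1, h2, h3, h4, h5, h6⟩ := hE x hxE
    obtain ⟨h7, h8⟩ := hx x hxE
    have hX0 : (0 : ℝ) < x 0 := by linarith
    refine ⟨h1, h2, fun i => ⟨?_, ?_⟩, ?_⟩
    · intro h0
      have := (h3 i).1
      rw [h0] at this
      simp only [Int.cast_zero, abs_zero] at this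
      nlinarith [mul_pos hc hX0]
    · refine (h3 i).2.trans ?_
      nlinarith
    · have h9 : (c * (x 0 : ℝ)) ^ (k + 2) ≤ ∏ i, |(x i : ℝ)| := by
        have : ∏ _i : Fin (k + 2), (c * (x 0 : ℝ)) ≤ ∏ i, |(x i : ℝ)| :=
          Finset.prod_le_prod (fun i _ => by positivity) fun i _ => (h3 i).1
        rwa [Finset.prod_const, Finset.card_univ, Fintype.card_fin] at this
      refine le_trans ?_ h9
      have h10 := pow_low (e := e) hT1 h7 h8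
      have h11 : (x 0 : ℝ) ^ e * (x 0 : ℝ) ^ (1 + k * t - δ) = (x 0 : ℝ) ^ (k + 2) := by
        rw [← Real.rpow_add hX0, ← Real.rpow_natCast]
        congr 1
        rw [he]
        push_cast
        ring
      calc c ^ (k + 2) * (T ^ e * 2 ^ (-|e|)) * ∏ i, (R (x i).natAbs : ℝ)
          ≤ c ^ (k + 2) * ((x 0 : ℝ) ^ e) * (x 0 : ℝ) ^ (1 + k * t - δ) := by
            refine mul_le_mul (mul_le_mul_of_nonneg_left h10 (by positivity)) h6 ?_ (by positivity)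
            exact Finset.prod_nonneg fun i _ => Nat.cast_nonneg _
        _ = (c * (x 0 : ℝ)) ^ (k + 2) := by
            rw [mul_assoc, h11, mul_pow]
  have hterm : ∀ x ∈ E, ((x 0 : ℝ) ^ (-t)) ^ k ≤ (T ^ (-t)) ^ k := by
    intro x hxE
    obtain ⟨h7, h8⟩ := hx x hxE
    have hX0 : (0 : ℝ) < x 0 := by linarith
    refine pow_le_pow_left₀ (Real.rpow_nonneg hX0.le _) ?_ _
    exact Real.rpow_le_rpow_of_nonpos hT0 h7 (by linarith)
  have hsum : ∑ x ∈ E, ((x 0 : ℝ) ^ (-t)) ^ k ≤ E.card * (T ^ (-t)) ^ k := by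
    rw [← nsmul_eq_mul]
    exact Finset.sum_le_card_nsmul _ _ _ hterm
  refine hsum.trans ?_
  have hTt : (T ^ (-t)) ^ k = T ^ (-(t * k)) := by
    rw [← Real.rpow_natCast, ← Real.rpow_mul hT0.le]
    congr 1
    ring
  rw [hTt]
  have hTη : ((2 : ℝ) ^ (-η)) ^ j = T ^ (-η) := by
    rw [hT, ← Real.rpow_natCast, ← Real.rpow_natCast, ← Real.rpow_mul (by norm_num),
      ← Real.rpow_mul (by norm_num)]
    congr 1
    ring
  show _ ≤ K * ((2 : ℝ) ^ (-η)) ^ j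
  rw [hTη]
  have h2B : 0 < 2 * B := by linarith
  have e1 : (2 * B * T) ^ η = (2 * B) ^ η * T ^ η := Real.mul_rpow h2B.le hT0.le
  have e2 : (2 * B * T) ^ k = (2 * B) ^ k * T ^ (k : ℝ) := by
    rw [mul_pow, Real.rpow_natCast]
  have e3 : (2 * B * T) ^ (k + 1) = (2 * B) ^ (k + 1) * T ^ ((k : ℝ) + 1) := by
    rw [mul_pow]
    congr 1
    rw [← Real.rpow_natCast]
    push_cast
    rfl
  have hP : 0 < T ^ (-(t * k)) := Real.rpow_pos_of_pos hT0 _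
  calc (E.card : ℝ) * T ^ (-(t * k))
      ≤ (C * (2 * B * T) ^ η * ((2 * B * T) ^ k +
        (2 * B * T) ^ (k + 1) / (c ^ (k + 2) * (T ^ e * 2 ^ (-|e|))))) * T ^ (-(t * k)) :=
        mul_le_mul_of_nonneg_right hcard hP.le
    _ = C * (2 * B) ^ η * ((2 * B) ^ k * (T ^ η * T ^ (k : ℝ) * T ^ (-(t * k))) +
        (2 * B) ^ (k + 1) / (c ^ (k + 2) * 2 ^ (-|e|)) *
          (T ^ η * T ^ ((k : ℝ) + 1) * (T ^ e)⁻¹ * T ^ (-(t * k)))) := by
        rw [e1, e2, e3]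
        field_simp
    _ ≤ C * (2 * B) ^ η * ((2 * B) ^ k * T ^ (-η) +
        (2 * B) ^ (k + 1) / (c ^ (k + 2) * 2 ^ (-|e|)) * T ^ (-η)) := by
        refine mul_le_mul_of_nonneg_left (add_le_add (mul_le_mul_of_nonneg_left ?_ (by positivity))
          (mul_le_mul_of_nonneg_left ?_ (by positivity))) (by positivity)
        · rw [← Real.rpow_add hT0, ← Real.rpow_add hT0]
          refine Real.rpow_le_rpow_of_exponent_le hT1 ?_
          linarith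
        · rw [← Real.rpow_neg hT0.le, ← Real.rpow_add hT0, ← Real.rpow_add hT0,
            ← Real.rpow_add hT0]
          refine Real.rpow_le_rpow_of_exponent_le hT1 ?_
          rw [he]
          linarith
    _ = K * T ^ (-η) := by
        rw [hK]
        ring

/-- hyperplanes are null sets -/
theorem hyp (k : ℕ) (L : (Fin k → ℝ) →ₗ[ℝ] ℝ) (hL : L ≠ 0) (a : ℝ) :
    ∀ᵐ ξ : Fin k → ℝ, L ξ ≠ a := by
  rw [ae_iff]
  simp only [ne_eq, not_not]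
  rcases Set.eq_empty_or_nonempty {ξ : Fin k → ℝ | L ξ = a} with h | ⟨ξ₀, h0⟩
  · rw [h]
    exact measure_empty
  have h1 : {ξ : Fin k → ℝ | L ξ = a} = (AffineSubspace.mk' ξ₀ (LinearMap.ker L) : Set _) := by
    ext ξ
    rw [SetLike.mem_coe, AffineSubspace.mem_mk', LinearMap.mem_ker, vsub_eq_sub, map_sub,
      sub_eq_zero]
    have h2 : L ξ₀ = a := h0
    rw [h2]
    rfl
  rw [h1]
  refine Measure.addHaar_affineSubspace _ _ fun h => hL ?_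
  have h2 := congrArg AffineSubspace.direction h
  rw [AffineSubspace.direction_mk', AffineSubspace.direction_top] at h2
  exact LinearMap.ker_eq_top.1 h2

/-- the three kinds of coordinates -/
theorem coords {k : ℕ} {p : Fin (k + 2) → Prop} (h0 : p 0) (h1 : ∀ i : Fin k, p i.succ.castSucc)
    (h2 : p (Fin.last (k + 1))) : ∀ i, p i := by
  intro i
  refine Fin.lastCases h2 (fun j => ?_) i
  refine Fin.cases ?_ (fun i' => h1 i') j
  exact h0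

theorem last_eq {k : ℕ} (x : Fin (k + 2) → ℤ) (hs : ∑ i, x i = 0) :
    (x (Fin.last (k + 1)) : ℝ) = -((x 0 : ℝ) + ∑ i : Fin k, (x i.succ.castSucc : ℝ)) := by
  rw [Fin.sum_univ_castSucc, Fin.sum_univ_succ] at hs
  have h1 : x (Fin.last (k + 1)) = -(x 0 + ∑ i : Fin k, x i.succ.castSucc) := by
    have : (Fin.castSucc (0 : Fin (k + 1))) = 0 := rfl
    rw [this] at hs
    linarith
  rw [h1]
  push_cast
  ring

theorem bounds {k : ℕ} (ξ : Fin k → ℝ) (A : ℝ) (hA : 1 ≤ A) (hξ : ∀ i, |ξ i| ≤ A)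
    (x : Fin (k + 2) → ℤ) (hs : ∑ i, x i = 0) (hX : (1 : ℝ) ≤ x 0) (τ : ℝ) (hτ : τ ≤ 1)
    (hn : ∀ i : Fin k, |ξ i - (x i.succ.castSucc : ℝ) / (x 0 : ℝ)| ≤ τ) :
    ∀ i, |(x i : ℝ)| ≤ (k * (A + 1) + 1) * (x 0 : ℝ) := by
  have hX0 : (0 : ℝ) < x 0 := by linarith
  have hk : (0 : ℝ) ≤ k := Nat.cast_nonneg _
  have h1 : ∀ i : Fin k, |(x i.succ.castSucc : ℝ)| ≤ (A + 1) * (x 0 : ℝ) := by
    intro i
    have h2 : |(x i.succ.castSucc : ℝ) / (x 0 : ℝ)| ≤ A + 1 := by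
      have h3 := abs_sub_abs_le_abs_sub ((x i.succ.castSucc : ℝ) / (x 0 : ℝ)) (ξ i)
      rw [abs_sub_comm] at h3
      linarith [hn i, hξ i]
    rwa [abs_div, abs_of_pos hX0, div_le_iff₀ hX0] at h2
  refine coords ?_ ?_ ?_
  · rw [abs_of_pos hX0]
    nlinarith [mul_nonneg (mul_nonneg hk (by linarith : (0 : ℝ) ≤ A + 1)) hX0.le]
  · intro i
    refine (h1 i).trans ?_
    have hk1 : (1 : ℝ) ≤ k := by
      have := i.pos
      exact_mod_cast this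
    have : A + 1 ≤ k * (A + 1) + 1 := by nlinarith
    exact mul_le_mul_of_nonneg_right this hX0.le
  · rw [last_eq x hs, abs_neg]
    refine (abs_add_le _ _).trans ?_
    have h2 : |∑ i : Fin k, (x i.succ.castSucc : ℝ)| ≤ k * ((A + 1) * (x 0 : ℝ)) := by
      refine (Finset.abs_sum_le_sum_abs _ _).trans ?_
      refine (Finset.sum_le_card_nsmul _ _ _ fun i _ => h1 i).trans ?_
      rw [Finset.card_univ, Fintype.card_fin, nsmul_eq_mul]
    rw [abs_of_pos hX0]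
    linarith

theorem lower {k : ℕ} (hk : 1 ≤ k) (ξ : Fin k → ℝ) (A : ℝ) (hA : 1 ≤ A)
    (hξ : ∀ i, 1 / A ≤ |ξ i|) (hξs : 1 / A ≤ |1 + ∑ i, ξ i|)
    (x : Fin (k + 2) → ℤ) (hs : ∑ i, x i = 0) (hX : (1 : ℝ) ≤ x 0) (τ : ℝ) (hτ0 : 0 ≤ τ)
    (hτ : k * τ ≤ 1 / (2 * A))
    (hn : ∀ i : Fin k, |ξ i - (x i.succ.castSucc : ℝ) / (x 0 : ℝ)| ≤ τ) :
    ∀ i, 1 / (2 * A) * (x 0 : ℝ) ≤ |(x i : ℝ)| := by
  have hX0 : (0 : ℝ) < x 0 := by linarith
  have hA0 : 0 < A := by linarith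
  have hk1 : (1 : ℝ) ≤ k := by exact_mod_cast hk
  have hτ' : τ ≤ 1 / (2 * A) := by nlinarith
  have hhalf : 1 / A = 1 / (2 * A) + 1 / (2 * A) := by
    field_simp
    norm_num
  refine coords ?_ ?_ ?_
  · rw [abs_of_pos hX0]
    have : 1 / (2 * A) ≤ 1 := by
      rw [div_le_one (by positivity)]
      linarith
    nlinarith
  · intro i
    have h2 : 1 / (2 * A) ≤ |(x i.succ.castSucc : ℝ) / (x 0 : ℝ)| := by
      have h3 := abs_sub_abs_le_abs_sub (ξ i) ((x i.succ.castSucc : ℝ) / (x 0 : ℝ))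
      linarith [hn i, hξ i]
    rwa [abs_div, abs_of_pos hX0, le_div_iff₀ hX0] at h2
  · have h1 : (x (Fin.last (k + 1)) : ℝ) / x 0 =
        -(1 + ∑ i : Fin k, (x i.succ.castSucc : ℝ) / (x 0 : ℝ)) := by
      rw [last_eq x hs, ← Finset.sum_div]
      field_simp
    have h2 : |(1 + ∑ i, ξ i) - (1 + ∑ i : Fin k, (x i.succ.castSucc : ℝ) / (x 0 : ℝ))| ≤ k * τ := by
      have h3 : (1 + ∑ i, ξ i) - (1 + ∑ i : Fin k, (x i.succ.castSucc : ℝ) / (x 0 : ℝ)) =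
          ∑ i : Fin k, (ξ i - (x i.succ.castSucc : ℝ) / (x 0 : ℝ)) := by
        rw [Finset.sum_sub_distrib]
        ring
      rw [h3]
      refine (Finset.abs_sum_le_sum_abs _ _).trans ?_
      refine (Finset.sum_le_card_nsmul _ _ _ fun i _ => hn i).trans ?_
      rw [Finset.card_univ, Fintype.card_fin, nsmul_eq_mul]
    have h4 : 1 / (2 * A) ≤ |(x (Fin.last (k + 1)) : ℝ) / (x 0 : ℝ)| := by
      rw [h1, abs_neg]
      have h3 := abs_sub_abs_le_abs_sub (1 + ∑ i, ξ i)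
        (1 + ∑ i : Fin k, (x i.succ.castSucc : ℝ) / (x 0 : ℝ))
      linarith
    rwa [abs_div, abs_of_pos hX0, le_div_iff₀ hX0] at h4

theorem finite_box (n : ℕ) (M : ℝ) : {x : Fin n → ℤ | ∀ i, |(x i : ℝ)| ≤ M}.Finite := by
  refine (Set.finite_Icc (fun _ : Fin n => -⌈M⌉) (fun _ => ⌈M⌉)).subset ?_
  intro x hx
  rw [Set.mem_Icc, Pi.le_def, Pi.le_def]
  constructor
  · intro i
    have h1 := (abs_le.1 (hx i)).1
    have h2 : (-⌈M⌉ : ℤ) ≤ (x i : ℤ) := by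
      have h3 : (-(⌈M⌉ : ℝ)) ≤ (x i : ℝ) := by linarith [Int.le_ceil M]
      exact_mod_cast h3
    exact h2
  · intro i
    have h1 := (abs_le.1 (hx i)).2
    have h3 : (x i : ℝ) ≤ (⌈M⌉ : ℝ) := h1.trans (Int.le_ceil M)
    exact_mod_cast h3

end Pool.Agent.H65NT.Nec

namespace Pool.Agent.H65NT

open Finset Filter MeasureTheory Nec

theorem nec (h1 : S_BC) (h2 : S_CNT) : S_NEC := by
  intro k hk
  have hk1 : 1 ≤ k := by omega
  have hk0 : (0 : ℝ) < k := by exact_mod_cast hk1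
  have key : ∀ᵐ ξ : Fin k → ℝ, ∀ (A : ℕ) (t δ : ℚ), 1 ≤ A → 1 < t → 0 < δ → ∀ᶠ j in atTop,
      ∀ x ∈ Fj k (1 / (2 * A)) (k * (A + 1) + 1) t δ j,
        ¬ ∀ i : Fin k, |ξ i - (x i.succ.castSucc : ℝ) / (x 0 : ℝ)| ≤ (x 0 : ℝ) ^ (-(t : ℝ)) := by
    refine ae_all_iff.2 fun A => ae_all_iff.2 fun t => ae_all_iff.2 fun δ => ?_
    by_cases h : 1 ≤ A ∧ 1 < t ∧ 0 < δ
    · obtain ⟨hA, ht, hδ⟩ := h
      have hA' : (1 : ℝ) ≤ A := by exact_mod_cast hA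
      have ht' : (1 : ℝ) < t := by exact_mod_cast ht
      have hδ' : (0 : ℝ) < δ := by exact_mod_cast hδ
      obtain ⟨u, hu, hu'⟩ := block h2 k hk (1 / (2 * A)) (k * (A + 1) + 1) t δ (by positivity)
        (by nlinarith) ht' hδ'
      have h3 := h1 k (Fin (k + 2) → ℤ) (fun j => Fj k (1 / (2 * A)) (k * (A + 1) + 1) t δ j)
        (fun _ x i => (x i.succ.castSucc : ℝ) / (x 0 : ℝ)) (fun _ x => (x 0 : ℝ) ^ (-(t : ℝ))) u hu
        (fun j x hx => Real.rpow_nonneg ((pow_nonneg (by norm_num) j).trans hx.2.2.2.1) _) hu'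
      filter_upwards [h3] with ξ hξ _ _ _
      exact hξ
    · refine Filter.Eventually.of_forall fun ξ hA ht hδ => absurd ⟨hA, ht, hδ⟩ h
  have hne : ∀ᵐ ξ : Fin k → ℝ, ∀ i, ξ i ≠ 0 := by
    refine ae_all_iff.2 fun i => hyp k (LinearMap.proj i) (fun h => ?_) 0
    have := LinearMap.congr_fun h (Pi.single i 1)
    simp at this
  have hsum : ∀ᵐ ξ : Fin k → ℝ, (∑ i, (LinearMap.proj i : (Fin k → ℝ) →ₗ[ℝ] ℝ)) ξ ≠ -1 := by
    refine hyp k _ (fun h => ?_) (-1)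
    have := LinearMap.congr_fun h (Pi.single (⟨0, hk1⟩ : Fin k) 1)
    simp [LinearMap.sum_apply] at this
  filter_upwards [key, hne, hsum] with ξ hξ hξ0 hξs
  intro t δ ht hδ
  have hξs' : 1 + ∑ i, ξ i ≠ 0 := by
    intro h
    apply hξs
    rw [LinearMap.sum_apply]
    simp only [LinearMap.proj_apply]
    linarith
  -- the constant `A`
  obtain ⟨A, hA⟩ := exists_nat_ge (∑ i, (|ξ i| + 1 / |ξ i|) + 1 / |1 + ∑ i, ξ i| + 1)
  have hp : ∀ i, 0 ≤ |ξ i| + 1 / |ξ i| := fun i => by positivity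
  have hp2 : 0 ≤ 1 / |1 + ∑ i, ξ i| := by positivity
  have hS0 : 0 ≤ ∑ i, (|ξ i| + 1 / |ξ i|) := Finset.sum_nonneg fun i _ => hp i
  have hA1 : (1 : ℝ) ≤ A := by linarith
  have hA1' : 1 ≤ A := by exact_mod_cast hA1
  have hAi : ∀ i, |ξ i| + 1 / |ξ i| ≤ A := by
    intro i
    have := Finset.single_le_sum (f := fun i => |ξ i| + 1 / |ξ i|) (fun i _ => hp i)
      (Finset.mem_univ i)
    linarith
  have hAu : ∀ i, |ξ i| ≤ A := by
    intro i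
    have : 0 ≤ 1 / |ξ i| := by positivity
    linarith [hAi i]
  have hinv : ∀ y : ℝ, y ≠ 0 → 1 / |y| ≤ A → 1 / (A : ℝ) ≤ |y| := by
    intro y hy h
    have hy' : 0 < |y| := abs_pos.2 hy
    rw [div_le_iff₀ (by linarith)]
    rw [div_le_iff₀ hy'] at h
    linarith
  have hAl : ∀ i, 1 / (A : ℝ) ≤ |ξ i| := by
    intro i
    refine hinv _ (hξ0 i) ?_
    linarith [hAi i, abs_nonneg (ξ i)]
  have hAs : 1 / (A : ℝ) ≤ |1 + ∑ i, ξ i| := hinv _ hξs' (by linarith)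
  -- rational exponents
  obtain ⟨t', ht1, ht2⟩ := exists_rat_btwn (max_lt ht (by
    have : 0 < δ / (2 * k) := by positivity
    linarith : t - δ / (2 * k) < t))
  obtain ⟨δ', hδ1, hδ2⟩ := exists_rat_btwn (by linarith : (0 : ℝ) < δ / 2)
  have ht1' : (1 : ℝ) < t' := (le_max_left _ _).trans_lt ht1
  have ht1'' : t - δ / (2 * k) < t' := (le_max_right _ _).trans_lt ht1
  have hexp : 1 + (k : ℝ) * t - δ ≤ 1 + k * t' - δ' := by
    have h3 : (k : ℝ) * (t - t') ≤ δ / 2 := by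
      have : (k : ℝ) * (t - t') ≤ k * (δ / (2 * k)) :=
        mul_le_mul_of_nonneg_left (by linarith) hk0.le
      refine this.trans (le_of_eq ?_)
      field_simp
    linarith
  obtain ⟨j0, hj0⟩ := Filter.eventually_atTop.1 (hξ A t' δ' hA1' (by exact_mod_cast ht1')
    (by exact_mod_cast hδ1))
  obtain ⟨X0, hX0⟩ : ∃ X0 : ℝ, X0 = max ((2 : ℝ) ^ (j0 + 1)) (2 * (A : ℝ) * (k : ℝ)) := ⟨_, rfl⟩
  refine (finite_box (k + 2) ((k * (A + 1) + 1) * X0)).subset ?_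
  rintro x ⟨hs, hco, hx0, ⟨hxp, hnear⟩, hprod⟩
  have hX1 : (1 : ℝ) ≤ x 0 := by exact_mod_cast hxp
  have hXp : (0 : ℝ) < x 0 := by linarith
  have hτ1 : (x 0 : ℝ) ^ (-(t' : ℝ)) ≤ (x 0 : ℝ)⁻¹ := by
    rw [← Real.rpow_neg_one]
    exact Real.rpow_le_rpow_of_exponent_le hX1 (by linarith)
  have hτ1' : (x 0 : ℝ)⁻¹ ≤ 1 := inv_le_one_of_one_le₀ hX1
  have hn' : ∀ i : Fin k, |ξ i - (x i.succ.castSucc : ℝ) / (x 0 : ℝ)| ≤
      (x 0 : ℝ) ^ (-(t' : ℝ)) := fun i => (hnear i).trans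
    (Real.rpow_le_rpow_of_exponent_le hX1 (by linarith))
  have hB := bounds ξ A hA1 hAu x hs hX1 _ (hτ1.trans hτ1') hn'
  have hBpos : (0 : ℝ) ≤ k * (A + 1) + 1 := by positivity
  by_cases hbig : (x 0 : ℝ) ≤ X0
  · exact fun i => (hB i).trans (mul_le_mul_of_nonneg_left hbig hBpos)
  exfalso
  push Not at hbig
  have hb1 : (2 : ℝ) ^ (j0 + 1) < x 0 := by
    refine lt_of_le_of_lt ?_ hbig
    rw [hX0]
    exact le_max_left _ _
  have hb2 : 2 * A * k < (x 0 : ℝ) := by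
    refine lt_of_le_of_lt ?_ hbig
    rw [hX0]
    exact le_max_right _ _
  have hτ2 : k * (x 0 : ℝ) ^ (-(t' : ℝ)) ≤ 1 / (2 * A) := by
    have h3 : (k : ℝ) * (x 0 : ℝ) ^ (-(t' : ℝ)) ≤ k * (x 0 : ℝ)⁻¹ :=
      mul_le_mul_of_nonneg_left hτ1 hk0.le
    refine h3.trans ?_
    rw [← div_eq_mul_inv, div_le_div_iff₀ hXp (by positivity)]
    linarith
  have hL := lower hk1 ξ A hA1 hAl hAs x hs hX1 _ (Real.rpow_nonneg hXp.le _) hτ2 hn'
  -- the block of `x`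
  obtain ⟨m, hm⟩ : ∃ m : ℕ, (x 0) = m := ⟨(x 0).toNat, (Int.toNat_of_nonneg hxp.le).symm⟩
  have hm0 : m ≠ 0 := by
    rintro rfl
    rw [hm] at hxp
    exact absurd hxp (by norm_num)
  have hmr : (x 0 : ℝ) = m := by rw [hm]; push_cast; rfl
  have hj1 : (2 : ℝ) ^ (Nat.log 2 m) ≤ x 0 := by
    rw [hmr]
    exact_mod_cast Nat.pow_log_le_self 2 hm0
  have hj2 : (x 0 : ℝ) < 2 ^ (Nat.log 2 m + 1) := by
    rw [hmr]
    exact_mod_cast Nat.lt_pow_succ_log_self (by norm_num) m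
  have hj3 : j0 ≤ Nat.log 2 m := by
    by_contra hcon
    push Not at hcon
    have h3 : (2 : ℝ) ^ (Nat.log 2 m + 1) ≤ 2 ^ (j0 + 1) :=
      pow_le_pow_right₀ (by norm_num) (by omega)
    linarith
  refine hj0 (Nat.log 2 m) hj3 x ⟨hs, hco, fun i => ⟨hL i, hB i⟩, hj1, hj2, ?_⟩ hn'
  exact hprod.trans (Real.rpow_le_rpow_of_exponent_le hX1 hexp)

end Pool.Agent.H65NT
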