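import Mathlib

/-!
# Radicals of n-tuples near almost every direction: definitions and statements of the pieces

MP_a95293_nt, n = k + 2 ≥ 4.  For almost every `ξ` in `ℝ^k`, all `1 < t < 1 + 1/k`: the limit points of the
exponents `log R(x_j) / log x_0` of the pairwise coprime zero-sum tuples `x` with
`|ξ_i - x_{i+1} / x_0| ≤ x_0^(-t)` are exactly the `z` with all `z_j ≤ 1`, `∑ z_j ≥ 1 + k t`.
-/

set_option autoImplicit false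

namespace Pool.Agent.H65NT

open Finset Filter

/-- the radical -/
def R (n : ℕ) : ℕ := ∏ p ∈ n.primeFactors, p

/-- the `m + 1` coordinates of a zero sum vector in terms of the first `m`
(this is `Pool.Agent.H34x.NT.PP`) -/
def PP (m : ℕ) : Matrix (Fin (m + 1)) (Fin m) ℤ := fun i l =>
  if i = Fin.last m then -1 else if i = l.castSucc then 1 else 0

/-- `x_{i+1} / x_0` is near `ξ_i` -/
def Near {k : ℕ} (ξ : Fin k → ℝ) (t : ℝ) (x : Fin (k + 2) → ℤ) : Prop :=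
  0 < x 0 ∧ ∀ i : Fin k, |ξ i - (x i.succ.castSucc : ℝ) / (x 0 : ℝ)| ≤ (x 0 : ℝ) ^ (-t)

/-- PIECE BC (Borel-Cantelli for cubes in blocks): `theorem bc : S_BC` in `Pool/Agent/H65NT/BC.lean`.

Proof. The set `{ξ | ∀ i, |ξ i - c i| ≤ r}` is the closed ball of the sup norm, of volume `(2 r)^k`
(`Real.volume_pi_closedBall`); the volume of the union over `a ∈ F j` is at most
`∑' a : F j, ofReal ((2 r j a)^k) ≤ ofReal (2^k * u j)` (`measure_iUnion_le` / `measure_biUnion_le`,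
`ENNReal.tsum_eq_iSup_sum`); the sum over `j` is finite; `MeasureTheory.ae_eventually_notMem`. -/
def S_BC : Prop :=
  ∀ (k : ℕ) (α : Type) [Countable α] (F : ℕ → Set α) (c : ℕ → α → Fin k → ℝ) (r : ℕ → α → ℝ)
    (u : ℕ → ℝ), Summable u → (∀ j a, a ∈ F j → 0 ≤ r j a) →
    (∀ j, ∀ E : Finset α, (∀ a ∈ E, a ∈ F j) → ∑ a ∈ E, (r j a) ^ k ≤ u j) →
    ∀ᵐ ξ : Fin k → ℝ, ∀ᶠ j in atTop, ∀ a ∈ F j, ¬ ∀ i, |ξ i - c j a i| ≤ r j a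

/-- PIECE CNT (number of tuples with small radicals): `theorem cnt : S_CNT` in
`Pool/Agent/H65NT/Cnt.lean`.

Proof. For `z ≠ 0` let `d(z) = |z| / R(z)`, a positive integer with `d(z) R(d(z)) ∣ z` (the primes of
`d(z)` divide `R(z)`), and `S = ∑_{1 ≤ a ≤ Y} 1 / R(a) ≤ C Y^η'` (from
`Pool.Agent.W222.UABC.sum_gw`, file W222/UABC/Tri.lean; `rd` there is `R`), so
`∑_{1 ≤ |z| ≤ Y} d(z) ≤ 2 Y S`.
(a) AP lemma: a finite set of integers in [-Y, Y] which are all congruent mod m ≥ 1 has at most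
`1 + 2 Y / m` elements.
(b) Pair lemma: given `s`, `P, Δ > 0`, the number of `u` with `u, v = s - u` nonzero and coprime,
`|u|, |v| ≤ Y`, `d(u) d(v) ≤ P`, `Δ ≤ P d(u) d(v)` is at most `P (1 + 2 Y / Δ) S^2`: for given
`a = d(u)`, `b = d(v)` all these `u` are congruent mod `a R(a) b R(b)`, so by (a) there are at most
`1 + 2 Y / (a R(a) b R(b)) ≤ P (1 + 2 Y / Δ) / (R(a) R(b))` of them (`1 ≤ P / (a b)`,
`1 / (a b) ≤ P / Δ`, `R(a) ≤ a`).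
(c) The tuples with `d(x_0) d(x_1) ≤ ∏_{l ≥ 2} d(x_l) =: P`: given `y = (x_2, …)` use (b) with
`s = -∑ y`; so their number is at most `∑_y P(y) (1 + 2 Y / Δ) S^2 ≤ (2 Y S)^k (1 + 2 Y / Δ) S^2`
(`Finset.prod_univ_sum`).
(d) For the other tuples `d(x_2) d(x_3) ≤ ∏_{l ≠ 2, 3} d(x_l)` (all `d ≥ 1`): permute the
coordinates and use (c). -/
def S_CNT : Prop :=
  ∀ k : ℕ, 2 ≤ k → ∀ η : ℝ, 0 < η → ∃ C : ℝ, 0 < C ∧ ∀ Y Δ : ℝ, 1 ≤ Y → 0 < Δ →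
    ∀ E : Finset (Fin (k + 2) → ℤ), (∀ x ∈ E, ∑ i, x i = 0 ∧
      (∀ i j, i ≠ j → IsCoprime (x i) (x j)) ∧ (∀ i, x i ≠ 0 ∧ |(x i : ℝ)| ≤ Y) ∧
      Δ * ∏ i, (R (x i).natAbs : ℝ) ≤ ∏ i, |(x i : ℝ)|) →
    (E.card : ℝ) ≤ C * Y ^ η * (Y ^ k + Y ^ (k + 1) / Δ)

/-- PIECE LSUM (first moment of lattice points): `theorem lsum : S_LSUM` in
`Pool/Agent/H65NT/Lsum.lean`.

Proof. For given `x_0` there are at most `2 A |x_0| / q_l` values of `x_l` (nonzero multiples of `q_l`),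
used for `l = 3, …, k + 1` (`k - 1` of them); given these, `x_1` is determined mod `q_1 q_2`
(`x_1 ≡ 0`, `x_1 ≡ s mod q_2`, coprime moduli), so at most `1 + 2 A |x_0| / (q_1 q_2)` values, and
`x_2` is determined.  So the sum over the `x` with given `x_0` is at most
`(2 A)^(k-1) / (q_3 ⋯ q_(k+1)) (1 / |x_0| + 2 A / (q_1 q_2))`; sum over `x_0 = q_0 v`,
`1 ≤ |v| ≤ H / q_0` (`∑_{v ≤ N} 1 / v ≤ 1 + log N`, `harmonic_le_one_add_log`):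
`∑_x |x_0|^(-k) ≤ 2 (2 A)^(k-1) / (q_0 q_3 ⋯ q_(k+1)) (1 + log H + 2 A H / (q_1 q_2))`,
and `q_1 q_2 ≤ H`. -/
def S_LSUM : Prop :=
  ∀ k : ℕ, 2 ≤ k → ∀ A : ℝ, 1 ≤ A → ∃ C : ℝ, 0 < C ∧ ∀ (H : ℝ) (q : Fin (k + 2) → ℕ), 1 ≤ H →
    (∀ i, 1 ≤ q i) → (∀ i j, i ≠ j → Nat.Coprime (q i) (q j)) → ((∏ i, q i : ℕ) : ℝ) ≤ H →
    ∀ E : Finset (Fin (k + 2) → ℤ), (∀ x ∈ E, ∑ i, x i = 0 ∧
      (∀ i, x i ≠ 0 ∧ (q i : ℤ) ∣ x i ∧ |(x i : ℝ)| ≤ A * |(x 0 : ℝ)|) ∧ |(x 0 : ℝ)| ≤ H) →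
    ((∏ i, q i : ℕ) : ℝ) * ∑ x ∈ E, 1 / |(x 0 : ℝ)| ^ k ≤ C * H * (1 + Real.log H)

/-- PIECE MIN (independent short vectors; helper65): `theorem minv : S_MIN` in `Pool/Agent/H65NT/Min.lean`. -/
def S_MIN : Prop :=
  ∀ k : ℕ, 1 ≤ k → ∃ (C : ℝ) (Q0 : ℕ), 0 < C ∧ ∀ b : Fin (k + 2) → ℕ, (∀ i, 2 ≤ b i) →
    ∀ (e : Fin (k + 2) → ℕ) (ξ : Fin k → ℝ) (H ρ θ : ℝ),
    0 < H → 0 < ρ → 0 < θ → ((∏ i, (b i) ^ (e i) : ℕ) : ℝ) ≤ H * ρ ^ k →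
    (∀ z : Fin (k + 1) → ℤ, z ≠ 0 → (∀ i, (b i : ℤ) ^ (e i) ∣ ∑ l, PP (k + 1) i l * z l) →
      |(z 0 : ℝ)| ≤ θ * H → ∃ i : Fin k, θ * ρ < |(z 0 : ℝ) * ξ i - z i.succ|) →
    ∃ Z : Matrix (Fin (k + 1)) (Fin (k + 1)) ℤ,
      (∀ j i, (b i : ℤ) ^ (e i) ∣ ∑ l, PP (k + 1) i l * Z j l) ∧
      (∀ j, |(Z j 0 : ℝ)| ≤ C / θ ^ k * H) ∧
      (∀ j (i : Fin k), |(Z j 0 : ℝ) * ξ i - Z j i.succ| ≤ C / θ ^ k * ρ) ∧
      Z.det ≠ 0 ∧ ∀ p : ℕ, p.Prime → Q0 < p → (∀ i, ¬ p ∣ b i) → ¬ (p : ℤ) ∣ Z.det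

/-- PIECE NEC (metric lower bound for the radicals):
`theorem nec (h1 : S_BC) (h2 : S_CNT) : S_NEC` in `Pool/Agent/H65NT/Nec.lean`.

Proof. It is enough to take `t = 1 + 1/N`-type rational `t`, rational `δ` (if `x` is near with exponent `t`, it is
near with each smaller exponent `t'`, as `x_0 ≥ 1`; `1 + k t - δ ≤ 1 + k t' - δ / 2` for `t'` close to `t`) and
`ξ` with `1/A ≤ |ξ_i| ≤ A`, `|1 + ∑ ξ_i| ≥ 1/A` for some natural number `A` (almost all `ξ` have such an `A`).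
Then for `x_0` large (`(k + 1) x_0^(1-t) ≤ x_0 / (2 A)`, ...): all coordinates satisfy
`x_0 / (2 A) ≤ |x_l| ≤ k (A + 1) x_0 + x_0`.  Use BC with `F j` = the set of these `x` with
`2^j ≤ x_0 < 2^(j+1)`, `∏ R(x_l) ≤ x_0^(1 + k t - δ)`, centre `x_{i+1} / x_0`, radius `x_0^(-t)`: by CNT with
`Y = C 2^j`, `Δ = c 2^(j (k + 1 - k t + δ))`, `η` small, `∑ r^k ≤ #E 2^(-j t k) ≤
C' 2^(j η) (2^(j (k - k t)) + 2^(-j δ))`, summable for `η < min (k (t - 1)) δ`.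
Finiteness: `x_0` bounded and `x` near `ξ` leaves finitely many `x`. -/
def S_NEC : Prop :=
  ∀ k : ℕ, 2 ≤ k → ∀ᵐ ξ : Fin k → ℝ, ∀ t δ : ℝ, 1 < t → 0 < δ →
    {x : Fin (k + 2) → ℤ | ∑ i, x i = 0 ∧ (∀ i j, i ≠ j → IsCoprime (x i) (x j)) ∧
      (∀ i, x i ≠ 0) ∧ Near ξ t x ∧
      ∏ i, (R (x i).natAbs : ℝ) ≤ (x 0 : ℝ) ^ (1 + k * t - δ)}.Finite

/-- PIECE TUBE (no short vectors in thin tubes, almost every direction):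
`theorem tube (h1 : S_BC) (h2 : S_LSUM) : S_TUBE` in `Pool/Agent/H65NT/Tube.lean`.

Proof. It is enough to take `η = 1/N` and `ξ` with `1/A ≤ |ξ_i| ≤ A`, `|1 + ∑ ξ_i| ≥ 1/A`, `A` a natural number.
Let `H = 2^j` be large, `Q = ∏ b_i^(e_i) ≤ H`, `r = H^(-η) (Q/H)^(1/k)`. If `z ≠ 0` violates the
conclusion then `z_0 ≠ 0` (else `|z_i| ≤ r < 1`), and `x = PP z` (first coordinates `z`, last one `-∑ z`)
satisfies `x_l ≠ 0`, `|x_l| ≤ C |x_0|` for all `l`, as `|ξ_i - z_(i+1) / z_0| ≤ r / |z_0| ≤ H^(-η)`.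
Use BC with `α = (Fin (k+2) → ℕ) × (Fin (k+2) → ℤ)` (pairs `(e, x)`), radius `r / |x_0|`, centre
`x_(i+1) / x_0`: by LSUM `∑_x (r / |x_0|)^k ≤ H^(-k η) (Q/H) C H (1 + log H) / Q = C H^(-k η) (1 + log H)` for
each `e`, and the number of the `e` with `Q ≤ 2^j` is at most `(j + 1)^(k+2)`.
(`|x_0| ≤ H`, since `|z_0| ≤ H^(1-η)`.) -/
def S_TUBE : Prop :=
  ∀ k : ℕ, 2 ≤ k → ∀ b : Fin (k + 2) → ℕ, (∀ i, (b i).Prime) → (∀ i j, i ≠ j → b i ≠ b j) →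
    ∀ᵐ ξ : Fin k → ℝ, ∀ η : ℝ, 0 < η → ∀ᶠ j : ℕ in atTop, ∀ e : Fin (k + 2) → ℕ,
      ((∏ i, (b i) ^ (e i) : ℕ) : ℝ) ≤ 2 ^ j →
      ∀ z : Fin (k + 1) → ℤ, z ≠ 0 → (∀ i, (b i : ℤ) ^ (e i) ∣ ∑ l, PP (k + 1) i l * z l) →
        |(z 0 : ℝ)| ≤ ((2 : ℝ) ^ j) ^ (1 - η) →
        ∃ i : Fin k, ((2 : ℝ) ^ j) ^ (-η) * (((∏ i, (b i) ^ (e i) : ℕ) : ℝ) / 2 ^ j) ^ (1 / (k : ℝ)) <
          |(z 0 : ℝ) * ξ i - z i.succ|

end Pool.Agent.H65NT
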