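import Pool.Agent.H65NT.Stm

/-!
# Phase 2: Hausdorff dimension of the directions with given exponents of the radicals

Goal: for `t > 1` and `z` with `z_j ≤ 1`, `∑ z_j ≥ k + 1`, the set of the `ξ` in `ℝ^k` such that `z` is a limit
point of the exponents of the tuples near `ξ` (with exponent `t`) has Hausdorff dimension exactly
`min k ((∑ z_j - 1) / t)`; and for `1/(k+2) < M < 1/(k+1)` the inequality `max |x_j| ≤ rad ^ M` fails for
infinitely many of the tuples near `ξ` exactly for a set of `ξ` of dimension `min k ((1/M - 1) / t)`.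
-/

set_option autoImplicit false

namespace Pool.Agent.H65NT

open Finset Filter Topology MeasureTheory
open scoped ENNReal

/-- PIECE HBC (convergence part for the Hausdorff dimension): `theorem hbc : S_HBC` in
`Pool/Agent/H65NT/Hbc.lean`.

Proof. `r j a ^ d ≤ u j`, so `r j a ≤ (u j)^(1/d)`, which tends to zero uniformly in `a`.  For each `n` the set is
covered by the closed balls (sup norm) of centre `c j a`, radius `r j a`, `j ≥ n`, `a ∈ F j`, whose
diameters are at most `2 r j a`, and `∑_{j ≥ n} ∑_a (2 r j a)^d ≤ 2^d ∑_{j ≥ n} u j → 0`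
(the set of pairs (j, a) is countable).  So `μH[d] = 0` (`MeasureTheory.Measure.hausdorffMeasure_le_liminf_tsum`) and
`dimH ≤ d` (`dimH_le_of_hausdorffMeasure_ne_top`).  There are similar lemmas in the
starting files, e.g. `Pool/Agent/R425/MK/Lim.lean` (limsup sets of balls in a metric space). -/
def S_HBC : Prop :=
  ∀ (k : ℕ) (α : Type) [Countable α] (F : ℕ → Set α) (c : ℕ → α → Fin k → ℝ) (r : ℕ → α → ℝ)
    (u : ℕ → ℝ) (d : ℝ), 0 < d → Summable u → (∀ j a, a ∈ F j → 0 ≤ r j a) →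
    (∀ j, ∀ E : Finset α, (∀ a ∈ E, a ∈ F j) → ∑ a ∈ E, (r j a) ^ d ≤ u j) →
    dimH {ξ : Fin k → ℝ | ∃ᶠ j in atTop, ∃ a ∈ F j, ∀ i, |ξ i - c j a i| ≤ r j a} ≤
      ENNReal.ofReal d

/-- PIECE UP (upper bound for the dimension): `theorem up (h1 : S_HBC) (h2 : S_CNT) : S_UP` in
`Pool/Agent/H65NT/Up.lean`; the same proof as `Nec.lean` (file of helper75, with its lemmas).

Proof. If the set of tuples is infinite for `ξ` then all `ξ_i ≠ 0` and `1 + ∑ ξ_i ≠ 0`: otherwise for a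
tuple with `x_0` large the coordinate `x_(i+1)`, resp. `x_(k+1)`, has absolute value at most
`k x_0^(1-t) < 1`, so it is 0.  So `ξ` lies in the union over the natural numbers `A` of the sets
`1/A ≤ |ξ_i| ≤ A`, `|1 + ∑ ξ_i| ≥ 1/A`; fix `A` (`dimH_iUnion`).  It is enough to show `dimH ≤ (s - 1 + 2η) / t`
for all small `η > 0`.  Use HBC with `F j` = the tuples with `2^j ≤ x_0 < 2^(j+1)`, all coordinates between
`x_0 / (2 A)` and `C x_0` in absolute value, `∏ R(x_l) ≤ x_0^s`, centre `x_(i+1) / x_0`, radius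
`x_0^(-t)`, `d = (s - 1 + 2η) / t`: by CNT with `Y = C 2^j`, `Δ = c 2^(j (k + 2 - s))` there are at most
`C' 2^(j η) (2^(j k) + 2^(j (s - 1))) ≤ 2 C' 2^(j (s - 1 + η))` tuples in `F j`, each contributes at most
`2^(-j t d)`. -/
def S_UP : Prop :=
  ∀ k : ℕ, 2 ≤ k → ∀ t s : ℝ, 1 < t → (k : ℝ) + 1 ≤ s →
    dimH {ξ : Fin k → ℝ | {x : Fin (k + 2) → ℤ | ∑ i, x i = 0 ∧
      (∀ i j, i ≠ j → IsCoprime (x i) (x j)) ∧ (∀ i, x i ≠ 0) ∧ Near ξ t x ∧
      ∏ i, (R (x i).natAbs : ℝ) ≤ (x 0 : ℝ) ^ s}.Infinite} ≤ ENNReal.ofReal ((s - 1) / t)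

/-- PIECE LOW (mass transference for countably many targets): `theorem low : S_LOW` in
`Pool/Agent/H65NT/Low.lean`.

Proof. Use `Pool.Agent.H438R2.nest` (`Pool/Agent/H438R2/Nest.lean`, imports only Mathlib), with `Rg = {b | 0 < b.2}`,
`V`, `s` and a small `κ = κ(k)`, `b0 = (0, 1)`; then `le_dimH_of_hausdorffMeasure_ne_zero` (as at the end of
`Pool.Agent.H438R2.lower`, file H438R2/Lower.lean).  Step: given the ball `B(x, R)`, `n`, `δ`. Take `ρ`, `q` for
`V n`.  The sets `E_J = {ξ ∈ closedBall x (R/2) | ∀ j ≥ J, ∃ c, …}` increase to almost all of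
`closedBall x (R/2)`, of volume `R^k`, so (`Monotone.measure_iUnion`, no measurability needed) some `E_J` has
volume `≥ R^k / 2`; take `j ≥ J` so large that `ρ = ρ j ≤ R/8`, `q = q j ≤ δ`, `q^s / ρ^k` huge.  Let
`ξ_1, …, ξ_N` be a maximal set of points of `E_J` with mutual distances `> 8 ρ`: the balls `B(ξ_i, 8 ρ)` cover
`E_J`, so `N (16 ρ)^k ≥ R^k / 2`.  The corresponding centres `c_i` have mutual distances `> 6 ρ`; `F` = set
of the `c_i`, `closedBall (c_i) q ⊆ closedBall x R`.  `N ≥ R^k / (2 (16 ρ)^k) ≥ 4 (R / q)^s` by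
the size of `q^s / ρ^k`.  A set `U` of diameter `≤ u` which meets the `q`-balls of the centres in `G`: two centres in
`G` have distance `≤ 2 q + u`; so `#G ≤ 1` if `u ≤ ρ` (`q ≤ ρ`), and if
`ρ ≤ u ≤ R` then `G` is contained in a ball of radius `3 u`, the balls of radius `3 ρ` around the points of `G` are
disjoint, so `#G (6 ρ)^k ≤ (12 u)^k`, `#G ≤ (2 u / ρ)^k ≤ N / (4 κ) (u / R)^s` for `κ ≤ 1 / (8 * 32^k)`
(`(u/R)^k ≤ (u/R)^s`, `s ≤ k`).  (For `q ≤ u ≤ ρ`: `1 ≤ 4 (R/q)^s / (4 κ) (q / R)^s`.) -/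
def S_LOW : Prop :=
  ∀ (k : ℕ) (s : ℝ) (V : ℕ → Set (Fin k → ℝ)), 1 ≤ k → 0 < s → s ≤ k →
    (∀ n, ∃ ρ q : ℕ → ℝ, (∀ j, 0 < q j) ∧ (∀ j, q j ≤ ρ j) ∧ Tendsto ρ atTop (𝓝 0) ∧
      Tendsto (fun j => (q j) ^ s / (ρ j) ^ k) atTop atTop ∧
      ∀ᵐ ξ : Fin k → ℝ, ∀ᶠ j in atTop, ∃ c : Fin k → ℝ, (∀ i, |ξ i - c i| ≤ ρ j) ∧
        Metric.closedBall c (q j) ⊆ V n) →
    ENNReal.ofReal s ≤ dimH {ξ : Fin k → ℝ | ∀ n, ξ ∈ V n}

end Pool.Agent.H65NT
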