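import Pool.Agent.H65NT.Core
import Pool.Agent.H34x.MA.Conv

/-!
# Tuples with prescribed exponents near a typical direction
-/

set_option autoImplicit false

namespace Pool.Agent.H65NT

open Finset Filter Topology MeasureTheory
open Pool.Agent.H34x.NT (ev_le primes)

/-- the exponents -/
noncomputable def ex {k : ℕ} (x : Fin (k + 2) → ℤ) (j : Fin (k + 2)) : ℝ :=
  Real.log (R (x j).natAbs) / Real.log (x 0)

theorem R_pos (n : ℕ) : 0 < R n := Finset.prod_pos fun _ hp => (Nat.prime_of_mem_primeFactors hp).pos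

theorem Adm.ne {n : ℕ} (hn : 2 ≤ n) {x : Fin n → ℤ} (h : Adm x) (i : Fin n) : x i ≠ 0 := by
  intro h0
  refine h.2.2 {i} (by simp) ?_ (by simpa using h0)
  intro h1
  have := congrArg Finset.card h1
  simp at this
  omega

/-- the constant that bounds the coordinates -/
noncomputable def c0 {k : ℕ} (ξ : Fin k → ℝ) : ℝ := 1 + ∑ i, (|ξ i| + 1)

theorem c0_ge {k : ℕ} (ξ : Fin k → ℝ) : 1 ≤ c0 ξ := by
  unfold c0
  have : 0 ≤ ∑ i, (|ξ i| + 1) := Finset.sum_nonneg fun i _ => by positivity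
  linarith

theorem near_le {k : ℕ} {ξ : Fin k → ℝ} {t : ℝ} (ht : 0 < t) {x : Fin (k + 2) → ℤ}
    (hx : ∑ i, x i = 0) (hn : Near ξ t x) (i : Fin (k + 2)) : |(x i : ℝ)| ≤ c0 ξ * x 0 := by
  have hx0 : (0 : ℝ) < x 0 := by exact_mod_cast hn.1
  have hx1 : (1 : ℝ) ≤ x 0 := by exact_mod_cast hn.1
  have h1 : ∀ i : Fin k, |(x i.succ.castSucc : ℝ)| ≤ (|ξ i| + 1) * x 0 := by
    intro i
    have h2 := hn.2 i
    have h3 : (x 0 : ℝ) ^ (-t) ≤ 1 := Real.rpow_le_one_of_one_le_of_nonpos hx1 (by linarith)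
    have h4 : |(x i.succ.castSucc : ℝ) / x 0| ≤ |ξ i| + 1 := by
      have h5 : (x i.succ.castSucc : ℝ) / x 0 = ξ i - (ξ i - (x i.succ.castSucc : ℝ) / x 0) := by ring
      rw [h5]
      refine (abs_sub _ _).trans ?_
      linarith
    rwa [abs_div, abs_of_pos hx0, div_le_iff₀ hx0] at h4
  have h2 : ∀ i : Fin k, (|ξ i| + 1) ≤ ∑ i, (|ξ i| + 1) := fun i =>
    Finset.single_le_sum (f := fun i => |ξ i| + 1) (fun i _ => by positivity) (mem_univ i)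
  have h3 : 0 ≤ ∑ i, (|ξ i| + 1) := Finset.sum_nonneg fun i _ => by positivity
  unfold c0
  refine Fin.lastCases ?_ (fun i => ?_) i
  · have h4 : (x (Fin.last (k + 1)) : ℝ) = -((x 0 : ℝ) + ∑ i : Fin k, (x i.succ.castSucc : ℝ)) := by
      rw [Fin.sum_univ_castSucc, Fin.sum_univ_succ, Fin.castSucc_zero] at hx
      have h5 : ((x 0 + ∑ i : Fin k, x i.succ.castSucc + x (Fin.last (k + 1)) : ℤ) : ℝ) = 0 := by
        rw [hx]; simp
      push_cast at h5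
      linarith
    rw [h4, abs_neg]
    refine (abs_add_le _ _).trans ?_
    rw [abs_of_pos hx0, add_mul, one_mul, Finset.sum_mul]
    have h5 := Finset.abs_sum_le_sum_abs (fun i : Fin k => (x i.succ.castSucc : ℝ)) univ
    have h6 := Finset.sum_le_sum (s := univ) (fun i _ => h1 i)
    linarith
  · refine Fin.cases ?_ (fun i => ?_) i
    · rw [Fin.castSucc_zero, abs_of_pos hx0]
      nlinarith
    · have := h1 i
      have := h2 i
      nlinarith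

theorem ex_le {k : ℕ} {ξ : Fin k → ℝ} {t : ℝ} (ht : 0 < t) {x : Fin (k + 2) → ℤ} (hx : Adm x)
    (hn : Near ξ t x) (i : Fin (k + 2)) :
    Real.log (R (x i).natAbs) ≤ Real.log (c0 ξ) + Real.log (x 0) := by
  have hx0 : (0 : ℝ) < x 0 := by exact_mod_cast hn.1
  have hc := c0_ge ξ
  rw [← Real.log_mul (by linarith) hx0.ne']
  apply Real.log_le_log (by exact_mod_cast R_pos _)
  refine le_trans ?_ (near_le ht hx.1 hn i)
  have h1 : R (x i).natAbs ≤ (x i).natAbs :=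
    Pool.Agent.H785R2.ABC.rad_le_self (Int.natAbs_pos.2 (hx.ne (by omega) i))
  have h2 : (((x i).natAbs : ℕ) : ℝ) = |(x i : ℝ)| :=
    Nat.cast_natAbs (x i) |>.trans (by push_cast; rfl)
  rw [← h2]
  exact_mod_cast h1

/-- all but finitely many: the sum of the exponents is large -/
theorem lower {k : ℕ} {ξ : Fin k → ℝ} (hξ : ∀ t δ : ℝ, 1 < t → 0 < δ →
    {x : Fin (k + 2) → ℤ | ∑ i, x i = 0 ∧ (∀ i j, i ≠ j → IsCoprime (x i) (x j)) ∧
      (∀ i, x i ≠ 0) ∧ Near ξ t x ∧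
      ∏ i, (R (x i).natAbs : ℝ) ≤ (x 0 : ℝ) ^ (1 + k * t - δ)}.Finite) {t δ : ℝ} (ht : 1 < t)
    (hδ : 0 < δ) : ∃ B : ℝ, ∀ x : Fin (k + 2) → ℤ, Adm x → Near ξ t x → B < x 0 →
      (1 + k * t - δ) * Real.log (x 0) ≤ ∑ i, Real.log (R (x i).natAbs) := by
  obtain ⟨B, hB⟩ := ((hξ t δ ht hδ).image (fun x : Fin (k + 2) → ℤ => (x 0 : ℝ))).bddAbove
  refine ⟨B, fun x hx hn hBx => ?_⟩
  have hx0 : (0 : ℝ) < x 0 := by exact_mod_cast hn.1
  by_contra hcon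
  push Not at hcon
  have h1 : ∏ i, (R (x i).natAbs : ℝ) ≤ (x 0 : ℝ) ^ (1 + k * t - δ) := by
    have h2 : ∑ i, Real.log (R (x i).natAbs) = Real.log (∏ i, (R (x i).natAbs : ℝ)) := by
      rw [Real.log_prod]
      intro i _
      exact_mod_cast (R_pos _).ne'
    rw [h2, ← Real.log_rpow hx0] at hcon
    have h3 : 0 < ∏ i, (R (x i).natAbs : ℝ) :=
      Finset.prod_pos fun i _ => by exact_mod_cast R_pos _
    exact ((Real.log_lt_log_iff h3 (Real.rpow_pos_of_pos hx0 _)).1 hcon).le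
  have h2 := hB ⟨x, ⟨hx.1, hx.2.1, fun i => hx.ne (by omega) i, hn, h1⟩, rfl⟩
  linarith

/-- the properties of the point `ξ` that hold almost everywhere -/
structure Typ (k : ℕ) (ξ : Fin k → ℝ) (b : Fin (k + 2) → ℕ) : Prop where
  nec : ∀ t δ : ℝ, 1 < t → 0 < δ →
    {x : Fin (k + 2) → ℤ | ∑ i, x i = 0 ∧ (∀ i j, i ≠ j → IsCoprime (x i) (x j)) ∧
      (∀ i, x i ≠ 0) ∧ Near ξ t x ∧
      ∏ i, (R (x i).natAbs : ℝ) ≤ (x 0 : ℝ) ^ (1 + k * t - δ)}.Finite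
  cor : ∀ (κ : Fin (k + 2) → ℝ), (∀ i, 0 < κ i) → ∀ τ : ℝ, ∑ i, κ i = k + 1 - k * τ → 1 < τ →
    ∀ η : ℝ, 0 < η → (2 * k + 3) * η < 1 →
    ∀ᶠ j : ℕ in atTop, ∃ x : Fin (k + 2) → ℤ, Adm x ∧
      |(x 0 : ℝ) - ((2 : ℝ) ^ j) ^ (1 + (k + 3) * η)| ≤ ((2 : ℝ) ^ j) ^ (1 + (k + 3) * η) / 2 ∧
      (∀ i : Fin k, |(x 0 : ℝ) * ξ i - x i.succ.castSucc| ≤
        ((2 : ℝ) ^ j) ^ (1 - τ + (k + 2) * η)) ∧
      ∀ i, ∃ e : ℕ, ((2 : ℝ) ^ j) ^ (κ i) ≤ b i * (b i : ℝ) ^ e ∧ (b i : ℤ) ^ e ∣ x i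

/-- an interior point near `z` -/
theorem interior {k : ℕ} (hk : 2 ≤ k) {t : ℝ} (ht : 1 ≤ t) (ht1 : t < 1 + 1 / k)
    (z : Fin (k + 2) → ℝ) (hz1 : ∀ j, z j ≤ 1) (hz2 : 1 + k * t ≤ ∑ j, z j) {ε : ℝ}
    (hε : 0 < ε) : ∃ (κ : Fin (k + 2) → ℝ) (τ : ℝ), (∀ j, 0 < κ j) ∧ (∀ j, κ j ≤ 1) ∧
      ∑ j, κ j = k + 1 - k * τ ∧ t < τ ∧ k * τ < k + 1 ∧ ∀ j, |1 - κ j - z j| ≤ ε / 4 := by
  classical
  have hkR : (2 : ℝ) ≤ k := by exact_mod_cast hk
  have hkR0 : (0 : ℝ) < k := by linarith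
  have hkt : k * t < k + 1 := by
    have h1 : k * t < k * (1 + 1 / k) := mul_lt_mul_of_pos_left ht1 hkR0
    have h2 : (k : ℝ) * (1 + 1 / k) = k + 1 := by field_simp
    linarith
  have hz0 : ∀ j, 0 ≤ z j := by
    intro j
    have h1 : ∑ i, z i ≤ z j + (k + 1) := by
      rw [← Finset.add_sum_erase univ z (mem_univ j)]
      have h2 : ∑ i ∈ univ.erase j, z i ≤ ∑ _i ∈ univ.erase j, (1 : ℝ) :=
        Finset.sum_le_sum fun i _ => hz1 i
      rw [Finset.sum_const, Finset.card_erase_of_mem (mem_univ j), Finset.card_univ,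
        Fintype.card_fin, nsmul_eq_mul] at h2
      push_cast at h2
      linarith
    nlinarith
  -- an interior point
  obtain ⟨lam, hl0, hl1, hl2⟩ : ∃ lam : ℝ, 0 < lam ∧ lam ≤ 1 / 2 ∧ lam ≤ ε / 4 :=
    ⟨min (1 / 2) (ε / 4), by positivity, min_le_left _ _, min_le_right _ _⟩
  set s2 : ℝ := ((1 + k * t) + (k + 2)) / 2 with hs2
  have hs2a : 1 + k * t < s2 := by rw [hs2]; linarith
  have hs2b : s2 < k + 2 := by rw [hs2]; linarith
  set cc : ℝ := s2 / (k + 2) with hcc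
  have hk2 : (0 : ℝ) < k + 2 := by linarith
  have hcc0 : 0 < cc := div_pos (by nlinarith) hk2
  have hcc1 : cc < 1 := by rw [hcc, div_lt_one hk2]; exact hs2b
  set z' : Fin (k + 2) → ℝ := fun j => (1 - lam) * z j + lam * cc with hz'
  have hz'1 : ∀ j, z' j < 1 := by
    intro j
    have h1 : (1 - lam) * z j ≤ 1 - lam := by
      have := hz1 j
      nlinarith
    have h2 : lam * cc < lam := by nlinarith
    simp only [hz']
    linarith
  have hz'0 : ∀ j, 0 < z' j := by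
    intro j
    have := hz0 j
    have h1 : 0 ≤ (1 - lam) * z j := mul_nonneg (by linarith) this
    have h2 : 0 < lam * cc := mul_pos hl0 hcc0
    simp only [hz']
    linarith
  have hz'z : ∀ j, |z' j - z j| ≤ ε / 4 := by
    intro j
    have h1 : z' j - z j = lam * (cc - z j) := by simp only [hz']; ring
    have h2 : |cc - z j| ≤ 1 := by
      rw [abs_le]
      have := hz0 j
      have := hz1 j
      constructor <;> linarith
    rw [h1, abs_mul, abs_of_pos hl0]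
    nlinarith [abs_nonneg (cc - z j)]
  have hz's : ∑ j, z' j = (1 - lam) * ∑ j, z j + lam * s2 := by
    simp only [hz']
    rw [Finset.sum_add_distrib, ← Finset.mul_sum, Finset.sum_const, Finset.card_univ,
      Fintype.card_fin, nsmul_eq_mul, hcc]
    push_cast
    field_simp
  set κ : Fin (k + 2) → ℝ := fun j => 1 - z' j with hκ
  have hκ0 : ∀ j, 0 < κ j := fun j => by have := hz'1 j; simp only [hκ]; linarith
  have hκ1 : ∀ j, κ j ≤ 1 := fun j => by have := hz'0 j; simp only [hκ]; linarith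
  set τ : ℝ := (∑ j, z' j - 1) / k with hτ
  have hτk : k * τ = ∑ j, z' j - 1 := by rw [hτ]; field_simp
  have hκs : ∑ j, κ j = k + 1 - k * τ := by
    rw [hτk]
    simp only [hκ]
    rw [Finset.sum_sub_distrib, Finset.sum_const, Finset.card_univ, Fintype.card_fin,
      nsmul_eq_mul]
    push_cast
    ring
  have htτ : t < τ := by
    have h1 : k * t < k * τ := by
      rw [hτk, hz's]
      nlinarith
    exact lt_of_mul_lt_mul_left h1 hkR0.le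
  have hτ2 : k * τ < k + 1 := by
    have h1 : 0 < ∑ j, κ j := Finset.sum_pos (fun j _ => hκ0 j) univ_nonempty
    linarith
  refine ⟨κ, τ, hκ0, hκ1, hκs, htτ, hτ2, fun j => ?_⟩
  have : 1 - κ j = z' j := by simp only [hκ]; ring
  rw [this]
  exact hz'z j

/-- the parameter `η` -/
theorem eta {k : ℕ} {μ ε : ℝ} (hμ : 0 < μ) (hε : 0 < ε) :
    ∃ η : ℝ, 0 < η ∧ (2 * k + 3) * η < 1 ∧ (2 * k + 5) * η < μ ∧
      (k + 2) * ((k + 4) * η) ≤ ε / 8 ∧ (k + 3) * η ≤ 1 := by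
  have hk : (0 : ℝ) ≤ k := Nat.cast_nonneg _
  have h0 : 0 < 8 * ((k : ℝ) + 4) ^ 2 := by positivity
  obtain ⟨η, hη0, hη1, hη2, hη3⟩ : ∃ η : ℝ, 0 < η ∧ 8 * ((k : ℝ) + 4) ^ 2 * η ≤ μ ∧
      8 * ((k : ℝ) + 4) ^ 2 * η ≤ ε ∧ 8 * ((k : ℝ) + 4) ^ 2 * η ≤ 1 := by
    refine ⟨min μ (min ε 1) / (8 * ((k : ℝ) + 4) ^ 2), by positivity, ?_, ?_, ?_⟩ <;>
      rw [mul_div_cancel₀ _ h0.ne']
    · exact min_le_left _ _
    · exact (min_le_right _ _).trans (min_le_left _ _)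
    · exact (min_le_right _ _).trans (min_le_right _ _)
  have hsq : ∀ c : ℝ, c ≤ ((k : ℝ) + 4) ^ 2 → c * η ≤ ((k : ℝ) + 4) ^ 2 * η := fun c hc =>
    mul_le_mul_of_nonneg_right hc hη0.le
  have h1 := hsq (2 * k + 3) (by nlinarith)
  have h2 := hsq (2 * k + 5) (by nlinarith)
  have h3 := hsq ((k + 2) * (k + 4)) (by nlinarith)
  have h4 := hsq (k + 3) (by nlinarith)
  refine ⟨η, hη0, by linarith, by linarith, ?_, by linarith⟩
  have : (k + 2) * ((k + 4) * η) = (k + 2) * (k + 4) * η := by ring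
  linarith

theorem near_calc {k : ℕ} {ξ : Fin k → ℝ} {x : Fin (k + 2) → ℤ} {H β γ t1 T' : ℝ} (hH0 : 0 < H)
    (ht11 : 1 ≤ t1) (hT'0 : 0 < T') (hT' : T' = H ^ β)
    (hX2 : (x 0 : ℝ) ≤ 2 * T') (hX0 : 0 < x 0)
    (h1 : 2 ^ (t1 - 1) * H ^ γ ≤ H ^ (β * (1 - t1)))
    (hx1 : ∀ i : Fin k, |(x 0 : ℝ) * ξ i - x i.succ.castSucc| ≤ H ^ γ) : Near ξ t1 x := by
  have hX0' : (0 : ℝ) < x 0 := by exact_mod_cast hX0
  refine ⟨hX0, fun i => ?_⟩
  have g1 : ξ i - (x i.succ.castSucc : ℝ) / (x 0 : ℝ) =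
      ((x 0 : ℝ) * ξ i - x i.succ.castSucc) / x 0 := by field_simp
  rw [g1, abs_div, abs_of_pos hX0', div_le_iff₀ hX0', ← Real.rpow_add_one hX0'.ne']
  refine (hx1 i).trans ?_
  have g2 : (2 * T') ^ (-t1 + 1) ≤ (x 0 : ℝ) ^ (-t1 + 1) :=
    Real.rpow_le_rpow_of_nonpos hX0' hX2 (by linarith)
  refine le_trans ?_ g2
  rw [Real.mul_rpow (by norm_num) hT'0.le, hT', ← Real.rpow_mul hH0.le]
  have g3 : (2 : ℝ) ^ (t1 - 1) * (2 : ℝ) ^ (-t1 + 1) = 1 := by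
    rw [← Real.rpow_add (by norm_num)]
    have : t1 - 1 + (-t1 + 1) = 0 := by ring
    rw [this, Real.rpow_zero]
  have g4 : (0 : ℝ) < (2 : ℝ) ^ (-t1 + 1) := by positivity
  calc H ^ γ = (2 : ℝ) ^ (-t1 + 1) * ((2 : ℝ) ^ (t1 - 1) * H ^ γ) := by
        rw [← mul_assoc, mul_comm ((2 : ℝ) ^ (-t1 + 1)), g3, one_mul]
    _ ≤ (2 : ℝ) ^ (-t1 + 1) * H ^ (β * (1 - t1)) := mul_le_mul_of_nonneg_left h1 g4.le
    _ = _ := by congr 2; ring

theorem up_calc {kk κ η β L LH c lr : ℝ} (hkk : 0 ≤ kk) (hβ : β = 1 + (kk + 3) * η) (hη0 : 0 < η)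
    (hη7 : (kk + 3) * η ≤ 1) (hκ0 : 0 < κ) (hκ1 : κ ≤ 1) (hLH0 : 0 < LH) (hL1 : L ≤ β * LH + 1)
    (hL2 : β * LH - 1 ≤ L) (h8 : lr + κ * LH ≤ c + L) (h10 : c + 3 ≤ η * (LH - 2)) :
    lr ≤ (1 - κ + (kk + 4) * η) * L := by
  have hb : β * LH = LH + (kk + 3) * η * LH := by rw [hβ]; ring
  have hb0 : 0 ≤ (kk + 3) * η * LH := by positivity
  have h11 : L - LH ≤ 1 + (kk + 3) * η * LH := by linarith
  have h12 : LH ≤ L + 1 := by linarith
  have h13 : κ * (L - LH) ≤ 1 + (kk + 3) * η * (L + 1) := by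
    have g2 : κ * (L - LH) ≤ κ * (1 + (kk + 3) * η * LH) :=
      mul_le_mul_of_nonneg_left h11 hκ0.le
    have g3 : κ * (1 + (kk + 3) * η * LH) ≤ 1 * (1 + (kk + 3) * η * LH) :=
      mul_le_mul_of_nonneg_right hκ1 (by linarith)
    have g4 : (kk + 3) * η * LH ≤ (kk + 3) * η * (L + 1) :=
      mul_le_mul_of_nonneg_left h12 (by positivity)
    linarith
  have h15 : η * (LH - 2) ≤ η * (L - 1) := mul_le_mul_of_nonneg_left (by linarith) hη0.le
  have h16 : κ * (L - LH) = κ * L - κ * LH := by ring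
  have h17 : (kk + 3) * η * (L + 1) = (kk + 3) * η * L + (kk + 3) * η := by ring
  have h18 : (1 - κ + (kk + 4) * η) * L = L - κ * L + (kk + 3) * η * L + η * L := by ring
  have h19 : η * (L - 1) = η * L - η := by ring
  rw [h16, h17] at h13
  rw [h19] at h15
  rw [h18]
  linarith

theorem rad_up {b e : ℕ} (hb : b.Prime) {z : ℤ} (hz : z ≠ 0) (hd : (b : ℤ) ^ e ∣ z) {h c X : ℝ}
    (hh : 0 < h) (h1 : h ≤ b * (b : ℝ) ^ e) (hc : 0 < c) (hX : 0 < X) (h2 : |(z : ℝ)| ≤ c * X) :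
    Real.log (R z.natAbs) + Real.log h ≤ Real.log (b * b * c) + Real.log X := by
  have hb0 : (0 : ℝ) < b := by exact_mod_cast hb.pos
  have hd' : b ^ e ∣ z.natAbs := by
    have := Int.natAbs_dvd_natAbs.2 hd
    rwa [Int.natAbs_pow, Int.natAbs_natCast] at this
  have h4 := Pool.Agent.H34x.MA.rad_le_of_pow_dvd hb (Int.natAbs_pos.2 hz) hd'
  have h5 : (R z.natAbs : ℝ) * (b : ℝ) ^ e ≤ b * |(z : ℝ)| := by
    have h6 : ((z.natAbs : ℕ) : ℝ) = |(z : ℝ)| :=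
      Nat.cast_natAbs z |>.trans (by push_cast; rfl)
    rw [← h6]
    exact_mod_cast h4
  have hR0 : (0 : ℝ) < R z.natAbs := by exact_mod_cast R_pos _
  rw [← Real.log_mul hR0.ne' hh.ne', ← Real.log_mul (by positivity) hX.ne']
  apply Real.log_le_log (by positivity)
  calc (R z.natAbs : ℝ) * h ≤ R z.natAbs * (b * (b : ℝ) ^ e) :=
        mul_le_mul_of_nonneg_left h1 hR0.le
    _ = b * (R z.natAbs * (b : ℝ) ^ e) := by ring
    _ ≤ b * (b * |(z : ℝ)|) := mul_le_mul_of_nonneg_left h5 hb0.le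
    _ ≤ b * (b * (c * X)) := by
        apply mul_le_mul_of_nonneg_left _ hb0.le
        exact mul_le_mul_of_nonneg_left h2 hb0.le
    _ = _ := by ring

/-- the last step: all exponents are near the prescribed ones -/
theorem ex_calc {k : ℕ} {κ z E : Fin (k + 2) → ℝ} {τ t1 μ η ε : ℝ} (ht1 : t1 = τ - μ)
    (hκs : ∑ j, κ j = k + 1 - k * τ) (hκz : ∀ j, |1 - κ j - z j| ≤ ε / 4) (hμk : k * μ ≤ ε / 4)
    (hη0 : 0 < η) (hη6 : (k + 2) * ((k + 4) * η) ≤ ε / 8)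
    (hup : ∀ i, E i ≤ 1 - κ i + (k + 4) * η) (hlow : 1 + k * t1 - ε / 4 ≤ ∑ i, E i)
    (i : Fin (k + 2)) : |E i - z i| ≤ ε := by
  have hk0 : (0 : ℝ) ≤ k := Nat.cast_nonneg _
  have g1 : ∑ l, E l ≤ E i + (∑ l, (1 - κ l) - (1 - κ i)) + (k + 1) * ((k + 4) * η) := by
    rw [← Finset.add_sum_erase univ E (mem_univ i),
      ← Finset.add_sum_erase univ (fun l => 1 - κ l) (mem_univ i)]
    have g2 : ∑ l ∈ univ.erase i, E l ≤ ∑ l ∈ univ.erase i, (1 - κ l + (k + 4) * η) :=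
      Finset.sum_le_sum fun l _ => hup l
    rw [Finset.sum_add_distrib, Finset.sum_const, Finset.card_erase_of_mem (mem_univ i),
      Finset.card_univ, Fintype.card_fin, nsmul_eq_mul] at g2
    push_cast at g2
    linarith
  have gs : ∑ l, (1 - κ l) = 1 + k * τ := by
    rw [Finset.sum_sub_distrib, hκs, Finset.sum_const, Finset.card_univ, Fintype.card_fin,
      nsmul_eq_mul]
    push_cast
    ring
  rw [gs] at g1
  have g2 := hup i
  have g3 := abs_le.1 (hκz i)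
  have g4 : k * t1 = k * τ - k * μ := by rw [ht1]; ring
  have gη : 0 < (k + 4) * η := by positivity
  have g5 : (k + 4) * η ≤ (k + 2) * ((k + 4) * η) := le_mul_of_one_le_left gη.le (by linarith)
  have g6 : (k + 1) * ((k + 4) * η) ≤ (k + 2) * ((k + 4) * η) :=
    mul_le_mul_of_nonneg_right (by linarith) gη.le
  rw [abs_le]
  constructor
  · linarith [g3.1, g3.2]
  · linarith [g3.1, g3.2]

theorem suff {k : ℕ} (hk : 2 ≤ k) {t : ℝ} (ht : 1 ≤ t) (ht1 : t < 1 + 1 / k)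
    (z : Fin (k + 2) → ℝ) (hz1 : ∀ j, z j ≤ 1) (hz2 : 1 + k * t ≤ ∑ j, z j) {ε : ℝ}
    (hε : 0 < ε) : ∃ β : ℝ, 0 < β ∧ ∀ (ξ : Fin k → ℝ) (b : Fin (k + 2) → ℕ),
      (∀ i, (b i).Prime) → Typ k ξ b →
      ∀ᶠ j : ℕ in atTop, ∃ x : Fin (k + 2) → ℤ, Adm x ∧ Near ξ t x ∧
        |(x 0 : ℝ) - ((2 : ℝ) ^ j) ^ β| ≤ ((2 : ℝ) ^ j) ^ β / 2 ∧ ∀ i, |ex x i - z i| ≤ ε := by
  classical
  have hkR : (2 : ℝ) ≤ k := by exact_mod_cast hk
  have hkR0 : (0 : ℝ) < k := by linarith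
  obtain ⟨κ, τ, hκ0, hκ1, hκs, htτ, hτ2, hκz⟩ := interior hk ht ht1 z hz1 hz2 hε
  have hτ3 : τ - 1 ≤ 1 / 2 := by nlinarith
  obtain ⟨μ, hμ0, hμ1, hμ2⟩ : ∃ μ : ℝ, 0 < μ ∧ μ ≤ (τ - t) / 2 ∧ μ ≤ ε / (4 * k) :=
    ⟨min ((τ - t) / 2) (ε / (4 * k)), lt_min (by linarith) (by positivity), min_le_left _ _,
      min_le_right _ _⟩
  have hμk : k * μ ≤ ε / 4 := by
    have h1 : k * μ ≤ k * (ε / (4 * k)) := mul_le_mul_of_nonneg_left hμ2 hkR0.le
    have h2 : k * (ε / (4 * k)) = ε / 4 := by field_simp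
    linarith
  obtain ⟨t1, ht1'⟩ : ∃ t1 : ℝ, t1 = τ - μ := ⟨_, rfl⟩
  have ht1t : t < t1 := by rw [ht1']; linarith
  have ht11 : 1 < t1 := by linarith
  obtain ⟨η, hη0, hη4, hη5, hη6, hη7⟩ := eta (k := k) hμ0 hε
  obtain ⟨β, hβ⟩ : ∃ β : ℝ, β = 1 + (k + 3) * η := ⟨_, rfl⟩
  have hβ1 : 1 ≤ β := by
    rw [hβ]
    have : 0 ≤ ((k : ℝ) + 3) * η := by positivity
    linarith
  have hβ0 : 0 < β := by linarith
  refine ⟨β, hβ0, fun ξ b hbp hT => ?_⟩
  obtain ⟨B, hB⟩ := lower hT.nec ht11 (show 0 < ε / 4 by linarith)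
  have h2 : Tendsto (fun j : ℕ => (2 : ℝ) ^ j) atTop atTop :=
    tendsto_pow_atTop_atTop_of_one_lt one_lt_two
  have hlog2' : Real.log 2 < 1 := by
    have := Real.log_two_lt_d9
    linarith
  have hγ : 1 - τ + (k + 2) * η < β * (1 - t1) := by
    have g1 : (k + 3) * η * (t1 - 1) ≤ (k + 3) * η * 1 := by
      apply mul_le_mul_of_nonneg_left _ (by positivity)
      rw [ht1']
      linarith
    have g2 : β * (1 - t1) = 1 - t1 - (k + 3) * η * (t1 - 1) := by rw [hβ]; ring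
    rw [g2]
    have g3 : (2 * (k : ℝ) + 5) * η = (k + 2) * η + (k + 3) * η * 1 := by ring
    rw [g3] at hη5
    linarith
  have e1 := h2.eventually (ev_le (2 ^ (t1 - 1)) hγ)
  have e2 := h2.eventually ((tendsto_rpow_atTop hβ0).eventually_gt_atTop (2 * B))
  have e3 : ∀ᶠ j : ℕ in atTop, ∀ i, (Real.log (b i * b i * c0 ξ) + 3) / η + 2 ≤
      Real.log ((2 : ℝ) ^ j) :=
    eventually_all.2 fun i => (Real.tendsto_log_atTop.comp h2).eventually_ge_atTop _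
  have hcor := hT.cor κ hκ0 τ hκs (by linarith) η hη0 hη4
  rw [← hβ] at hcor
  filter_upwards [hcor, e1, e2, e3, eventually_ge_atTop 1] with j hj h1 h2 h3 hj1
  obtain ⟨x, hx, hx0, hx1, hx2⟩ := hj
  obtain ⟨H, hH⟩ : ∃ H : ℝ, H = (2 : ℝ) ^ j := ⟨_, rfl⟩
  rw [← hH] at h1 h2 hx0 hx1 ⊢
  simp only [← hH] at h3 hx2
  have hH1 : 1 < H := by rw [hH]; exact one_lt_pow₀ one_lt_two (by omega)
  have hH0 : 0 < H := by linarith
  obtain ⟨T', hT'⟩ : ∃ T' : ℝ, T' = H ^ β := ⟨_, rfl⟩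
  have hT'0 : 0 < T' := by rw [hT']; exact Real.rpow_pos_of_pos hH0 _
  have hx0' := abs_le.1 hx0
  rw [← hT'] at hx0' h2
  have hX1 : T' / 2 ≤ (x 0 : ℝ) := by linarith [hx0'.1]
  have hX2 : (x 0 : ℝ) ≤ 2 * T' := by linarith [hx0'.2]
  have hX0 : (0 : ℝ) < x 0 := by linarith
  have hX0' : 0 < x 0 := by exact_mod_cast hX0
  have hXge : (1 : ℝ) ≤ x 0 := by exact_mod_cast hX0'
  have hnear1 : Near ξ t1 x := near_calc hH0 ht11.le hT'0 hT' hX2 hX0' h1 hx1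
  have hnear : Near ξ t x := by
    refine ⟨hX0', fun i => (hnear1.2 i).trans ?_⟩
    exact Real.rpow_le_rpow_of_exponent_le hXge (by linarith)
  -- logarithms
  obtain ⟨L, hL⟩ : ∃ L : ℝ, L = Real.log (x 0) := ⟨_, rfl⟩
  obtain ⟨LH, hLH⟩ : ∃ LH : ℝ, LH = Real.log H := ⟨_, rfl⟩
  have hL1 : L ≤ β * LH + 1 := by
    have g1 := Real.log_le_log hX0 hX2
    rw [Real.log_mul (by norm_num) hT'0.ne', hT', Real.log_rpow hH0] at g1
    rw [hL, hLH]
    linarith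
  have hL2 : β * LH - 1 ≤ L := by
    have g1 := Real.log_le_log (by positivity) hX1
    rw [Real.log_div hT'0.ne' (by norm_num), hT', Real.log_rpow hH0] at g1
    rw [hL, hLH]
    linarith
  have hLH0 : 0 < LH := by rw [hLH]; exact Real.log_pos hH1
  have hc0 := c0_ge ξ
  have hbb : ∀ i, 0 ≤ Real.log (b i * b i * c0 ξ) := by
    intro i
    have h1 : (1 : ℝ) ≤ b i := by exact_mod_cast (hbp i).one_lt.le
    apply Real.log_nonneg
    exact one_le_mul_of_one_le_of_one_le (one_le_mul_of_one_le_of_one_le h1 h1) hc0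
  rw [← hLH] at h3
  have hLpos : 1 < L := by
    have g1 := h3 0
    have g2 : 0 ≤ (Real.log (b 0 * b 0 * c0 ξ) + 3) / η := by
      have := hbb 0
      positivity
    have g3 : LH ≤ β * LH := le_mul_of_one_le_left hLH0.le hβ1
    linarith [hbb 0, show 3 ≤ (Real.log (b 0 * b 0 * c0 ξ) + 3) / η by
      rw [le_div_iff₀ hη0]
      have : η ≤ 1 := by
        have : η ≤ (k + 3) * η := le_mul_of_one_le_left hη0.le (by linarith)
        linarith
      have := hbb 0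
      linarith]
  have hL0 : 0 < L := by linarith
  have hup : ∀ i, Real.log (R (x i).natAbs) ≤ (1 - κ i + (k + 4) * η) * L := by
    intro i
    obtain ⟨e, he1, he2⟩ := hx2 i
    have h8 := rad_up (hbp i) (hx.ne (by omega) i) he2 (Real.rpow_pos_of_pos hH0 (κ i)) he1
      (by linarith : 0 < c0 ξ) hX0 (near_le (by linarith) hx.1 hnear i)
    rw [Real.log_rpow hH0, ← hL, ← hLH] at h8
    have h10 : Real.log (b i * b i * c0 ξ) + 3 ≤ η * (LH - 2) := by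
      have g1 := h3 i
      have g2 : (Real.log (b i * b i * c0 ξ) + 3) / η ≤ LH - 2 := by linarith
      rw [div_le_iff₀ hη0] at g2
      linarith
    exact up_calc hkR0.le hβ hη0 hη7 (hκ0 i) (hκ1 i) hLH0 hL1 hL2 h8 h10
  have hlow := hB x hx hnear1 (by linarith)
  rw [← hL] at hlow
  have hexL : ∀ i, ex x i * L = Real.log (R (x i).natAbs) := by
    intro i
    unfold ex
    rw [← hL, div_mul_cancel₀ _ hL0.ne']
  have hexup : ∀ i, ex x i ≤ 1 - κ i + (k + 4) * η := by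
    intro i
    have := hup i
    rw [← hexL] at this
    exact le_of_mul_le_mul_right this hL0
  have hexlow : 1 + k * t1 - ε / 4 ≤ ∑ i, ex x i := by
    have g1 : (1 + k * t1 - ε / 4) * L ≤ (∑ i, ex x i) * L := by
      rw [Finset.sum_mul]
      refine hlow.trans (le_of_eq ?_)
      exact Finset.sum_congr rfl fun i _ => (hexL i).symm
    exact le_of_mul_le_mul_right g1 hL0
  exact ⟨x, hx, hnear, hx0, ex_calc ht1' hκs hκz hμk hη0 hη6 hexup hexlow⟩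

end Pool.Agent.H65NT
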