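import Pool.Agent.H65NT.Stm

/-!
# Project H65NT: piece TUBE
-/

set_option autoImplicit false

namespace Pool.Agent.H65NT

open Finset Filter MeasureTheory

namespace Tube

/-- the modulus -/
def Qn {k : ℕ} (b : Fin (k + 2) → ℕ) (e : Fin (k + 2) → ℕ) : ℕ := ∏ i, (b i) ^ (e i)

/-- the index sets -/
def F {k : ℕ} (b : Fin (k + 2) → ℕ) (A' : ℝ) (j : ℕ) :
    Set ((Fin (k + 2) → ℕ) × (Fin (k + 2) → ℤ)) :=
  {a | ((Qn b a.1 : ℕ) : ℝ) ≤ 2 ^ j ∧ ∑ i, a.2 i = 0 ∧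
    (∀ i, a.2 i ≠ 0 ∧ (b i : ℤ) ^ (a.1 i) ∣ a.2 i ∧ |(a.2 i : ℝ)| ≤ A' * |(a.2 0 : ℝ)|) ∧
    |(a.2 0 : ℝ)| ≤ 2 ^ j}

/-- the radius -/
noncomputable def r {k : ℕ} (b : Fin (k + 2) → ℕ) (η : ℝ) (j : ℕ)
    (a : (Fin (k + 2) → ℕ) × (Fin (k + 2) → ℤ)) : ℝ :=
  (((2 : ℝ) ^ j) ^ (-η) * (((Qn b a.1 : ℕ) : ℝ) / 2 ^ j) ^ (1 / (k : ℝ))) / |(a.2 0 : ℝ)|

theorem pow_r {k : ℕ} (hk : 2 ≤ k) (b : Fin (k + 2) → ℕ) (η : ℝ) (j : ℕ)
    (a : (Fin (k + 2) → ℕ) × (Fin (k + 2) → ℤ)) :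
    (r b η j a) ^ k = (((2 : ℝ) ^ j) ^ (-η)) ^ k / 2 ^ j *
      (((Qn b a.1 : ℕ) : ℝ) * (1 / |(a.2 0 : ℝ)| ^ k)) := by
  have h0 : (0 : ℝ) ≤ ((Qn b a.1 : ℕ) : ℝ) / 2 ^ j := by positivity
  have h1 : ((((Qn b a.1 : ℕ) : ℝ) / 2 ^ j) ^ (1 / (k : ℝ))) ^ k = ((Qn b a.1 : ℕ) : ℝ) / 2 ^ j := by
    rw [one_div]
    exact Real.rpow_inv_natCast_pow h0 (by omega)
  unfold r
  rw [div_pow, mul_pow, h1]
  ring

theorem summable_u (C ρ : ℝ) (hρ0 : 0 < ρ) (hρ1 : ρ < 1) (K : ℕ) :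
    Summable fun j : ℕ => C * ((j : ℝ) + 1) ^ K * ρ ^ j := by
  have h1 : Summable fun n : ℕ => ((n : ℝ)) ^ K * ρ ^ n :=
    summable_pow_mul_geometric_of_norm_lt_one K (by rw [Real.norm_of_nonneg hρ0.le]; exact hρ1)
  have h2 := (summable_nat_add_iff 1).2 h1
  have h3 := h2.mul_left (C / ρ)
  refine h3.congr fun n => ?_
  push_cast
  rw [pow_succ]
  field_simp

/-- the application of the Borel-Cantelli lemma -/
theorem app (h1 : S_BC) (h2 : S_LSUM) {k : ℕ} (hk : 2 ≤ k) (b : Fin (k + 2) → ℕ)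
    (hb : ∀ i, (b i).Prime) (hbd : ∀ i j, i ≠ j → b i ≠ b j) (A' : ℝ) (hA' : 1 ≤ A')
    (η : ℝ) (hη : 0 < η) :
    ∀ᵐ ξ : Fin k → ℝ, ∀ᶠ j in atTop, ∀ a ∈ F b A' j,
      ¬ ∀ i, |ξ i - ((a.2 i.succ.castSucc : ℤ) : ℝ) / ((a.2 0 : ℤ) : ℝ)| ≤ r b η j a := by
  classical
  obtain ⟨C, hC, hLS⟩ := h2 k hk A' hA'
  set ρ : ℝ := ((2 : ℝ) ^ (-η)) ^ k with hρ
  have hρ0 : 0 < ρ := by positivity
  have hρ1 : ρ < 1 := by
    have h3 : (2 : ℝ) ^ (-η) < 1 :=
      Real.rpow_lt_one_of_one_lt_of_neg (by norm_num) (by linarith)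
    exact pow_lt_one₀ (by positivity) h3 (by omega)
  refine h1 k ((Fin (k + 2) → ℕ) × (Fin (k + 2) → ℤ)) (F b A')
    (fun j a i => ((a.2 i.succ.castSucc : ℤ) : ℝ) / ((a.2 0 : ℤ) : ℝ)) (r b η)
    (fun j => C * ((j : ℝ) + 1) ^ (k + 3) * ρ ^ j) (summable_u C ρ hρ0 hρ1 (k + 3)) ?_ ?_
  · intro j a _
    unfold r
    positivity
  · intro j E hE
    have h2j : (1 : ℝ) ≤ 2 ^ j := one_le_pow₀ (by norm_num)
    have h2j0 : (0 : ℝ) < 2 ^ j := by positivity
    have hpowρ : (((2 : ℝ) ^ j) ^ (-η)) ^ k = ρ ^ j := by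
      rw [hρ]
      have h3 : ((2 : ℝ) ^ j) ^ (-η) = ((2 : ℝ) ^ (-η)) ^ j := by
        rw [← Real.rpow_natCast, ← Real.rpow_mul (by norm_num), mul_comm,
          Real.rpow_mul (by norm_num), Real.rpow_natCast]
      rw [h3, ← pow_mul, ← pow_mul, mul_comm]
    set P : Finset (Fin (k + 2) → ℕ) := Fintype.piFinset fun _ => Finset.range (j + 1) with hP
    have hmaps : ∀ a ∈ E, a.1 ∈ P := by
      intro a ha
      rw [hP, Fintype.mem_piFinset]
      intro i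
      rw [Finset.mem_range, Nat.lt_succ_iff]
      have h3 := (hE a ha).1
      have h4 : (2 : ℕ) ^ (a.1 i) ≤ 2 ^ j := by
        have h5 : (b i) ^ (a.1 i) ≤ Qn b a.1 := by
          refine Nat.le_of_dvd ?_ (Finset.dvd_prod_of_mem (fun i => b i ^ a.1 i)
            (Finset.mem_univ i))
          exact Finset.prod_pos fun i _ => pow_pos (hb i).pos _
        have h6 : (2 : ℕ) ^ (a.1 i) ≤ (b i) ^ (a.1 i) := Nat.pow_le_pow_left (hb i).two_le _
        have h7 : Qn b a.1 ≤ 2 ^ j := by exact_mod_cast h3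
        omega
      exact (Nat.pow_le_pow_iff_right (by norm_num)).1 h4
    rw [← Finset.sum_fiberwise_of_maps_to hmaps]
    have hinner : ∀ e ∈ P, ∑ a ∈ E with a.1 = e, (r b η j a) ^ k ≤
        C * ((j : ℝ) + 1) * ρ ^ j := by
      intro e _
      by_cases hne : (E.filter fun a => a.1 = e).Nonempty
      · obtain ⟨a0, ha0⟩ := hne
        obtain ⟨ha0E, ha0e⟩ := Finset.mem_filter.1 ha0
        have hQ : ((∏ i, (b i) ^ (e i) : ℕ) : ℝ) ≤ 2 ^ j := by
          have := (hE a0 ha0E).1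
          rw [ha0e] at this
          exact this
        have h3 : ∀ a ∈ E.filter (fun a => a.1 = e), (r b η j a) ^ k =
            ρ ^ j / 2 ^ j * (((∏ i, (b i) ^ (e i) : ℕ) : ℝ) * (1 / |(a.2 0 : ℝ)| ^ k)) := by
          intro a ha
          rw [pow_r hk, hpowρ, (Finset.mem_filter.1 ha).2]
          rfl
        rw [Finset.sum_congr rfl h3, ← Finset.mul_sum, ← Finset.mul_sum]
        have hinj : Set.InjOn (fun a : (Fin (k + 2) → ℕ) × (Fin (k + 2) → ℤ) => a.2)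
            (E.filter (fun a => a.1 = e)) := by
          intro a ha a' ha' h
          rw [Finset.mem_coe, Finset.mem_filter] at ha ha'
          exact Prod.ext (ha.2.trans ha'.2.symm) h
        have h4 : ∑ a ∈ E.filter (fun a => a.1 = e), 1 / |((a.2 0 : ℤ) : ℝ)| ^ k =
            ∑ x ∈ (E.filter (fun a => a.1 = e)).image (fun a => a.2), 1 / |((x 0 : ℤ) : ℝ)| ^ k := by
          rw [Finset.sum_image hinj]
        rw [h4]
        have h5 := hLS (2 ^ j) (fun i => (b i) ^ (e i)) h2j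
          (fun i => Nat.one_le_pow _ _ (hb i).pos)
          (fun i i' hii => Nat.Coprime.pow _ _ ((Nat.coprime_primes (hb i) (hb i')).2 (hbd i i' hii)))
          hQ ((E.filter (fun a => a.1 = e)).image (fun a => a.2)) (by
            intro x hx
            obtain ⟨a, ha, rfl⟩ := Finset.mem_image.1 hx
            obtain ⟨haE, hae⟩ := Finset.mem_filter.1 ha
            obtain ⟨-, h6, h7, h8⟩ := hE a haE
            refine ⟨h6, fun i => ⟨(h7 i).1, ?_, (h7 i).2.2⟩, h8⟩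
            have := (h7 i).2.1
            rw [hae] at this
            push_cast
            exact this)
        have hlog : Real.log (2 ^ j) ≤ j := by
          rw [Real.log_pow]
          have : Real.log 2 ≤ 1 := by
            have := Real.log_two_lt_d9
            linarith
          nlinarith [(Nat.cast_nonneg j : (0 : ℝ) ≤ j)]
        calc ρ ^ j / 2 ^ j * (((∏ i, (b i) ^ (e i) : ℕ) : ℝ) *
              ∑ x ∈ (E.filter (fun a => a.1 = e)).image (fun a => a.2), 1 / |((x 0 : ℤ) : ℝ)| ^ k)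
            ≤ ρ ^ j / 2 ^ j * (C * 2 ^ j * (1 + Real.log (2 ^ j))) :=
              mul_le_mul_of_nonneg_left h5 (by positivity)
          _ = C * (1 + Real.log (2 ^ j)) * ρ ^ j := by field_simp
          _ ≤ C * ((j : ℝ) + 1) * ρ ^ j := by
              refine mul_le_mul_of_nonneg_right ?_ (by positivity)
              exact mul_le_mul_of_nonneg_left (by linarith) hC.le
      · rw [Finset.not_nonempty_iff_eq_empty] at hne
        rw [hne, Finset.sum_empty]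
        positivity
    refine (Finset.sum_le_sum hinner).trans (le_of_eq ?_)
    rw [Finset.sum_const, nsmul_eq_mul, hP, Fintype.card_piFinset]
    simp only [Finset.card_range, Finset.prod_const, Finset.card_univ, Fintype.card_fin]
    push_cast
    ring

/-- almost every direction is generic -/
theorem ae_gen (k : ℕ) :
    ∀ᵐ ξ : Fin k → ℝ, (∀ i, ξ i ≠ 0) ∧ 1 + ∑ i, ξ i ≠ 0 := by
  refine Filter.Eventually.and ?_ ?_
  · rw [ae_all_iff]
    intro i
    rw [ae_iff]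
    have h := MeasureTheory.Measure.pi_hyperplane (fun _ : Fin k => (volume : Measure ℝ)) i 0
    rw [← volume_pi] at h
    convert h using 2
    ext ξ
    simp
  · let f : (Fin k → ℝ) →ₗ[ℝ] ℝ := ∑ i, LinearMap.proj i
    have hf : ∀ ξ, f ξ = ∑ i, ξ i := by
      intro ξ
      simp [f]
    let s : AffineSubspace ℝ (Fin k → ℝ) :=
      AffineSubspace.comap f.toAffineMap (affineSpan ℝ {(-1 : ℝ)})
    have hs : ∀ ξ, ξ ∈ s ↔ ∑ i, ξ i = -1 := by
      intro ξ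
      change f ξ ∈ affineSpan ℝ {(-1 : ℝ)} ↔ _
      rw [AffineSubspace.mem_affineSpan_singleton, hf]
    have hne : s ≠ ⊤ := by
      intro h
      have h0 : (0 : Fin k → ℝ) ∈ s := by rw [h]; trivial
      rw [hs] at h0
      simp at h0
    have h := MeasureTheory.Measure.addHaar_affineSubspace (volume : Measure (Fin k → ℝ)) s hne
    rw [ae_iff]
    refine measure_mono_null ?_ h
    intro ξ hξ
    simp only [Set.mem_setOf_eq, not_not] at hξ
    exact (hs ξ).2 (by linarith)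

end Tube

open Tube in
theorem tube (h1 : S_BC) (h2 : S_LSUM) : S_TUBE := by
  intro k hk b hb hbd
  classical
  have hA : ∀ᵐ ξ : Fin k → ℝ, ∀ N A : ℕ, ∀ᶠ j in atTop,
      ∀ a ∈ F b (1 + (k : ℝ) * ((A : ℝ) + 1)) j,
      ¬ ∀ i, |ξ i - ((a.2 i.succ.castSucc : ℤ) : ℝ) / ((a.2 0 : ℤ) : ℝ)| ≤
        r b (1 / ((N : ℝ) + 1)) j a := by
    rw [ae_all_iff]
    intro N
    rw [ae_all_iff]
    intro A
    refine app h1 h2 hk b hb hbd _ ?_ _ (by positivity)
    have : (0 : ℝ) ≤ (k : ℝ) * ((A : ℝ) + 1) := by positivity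
    linarith
  filter_upwards [hA, ae_gen k] with ξ hξ hgen η hη
  obtain ⟨N, hN⟩ := exists_nat_one_div_lt hη
  set η' : ℝ := 1 / ((N : ℝ) + 1) with hη'
  have hη'0 : 0 < η' := by positivity
  obtain ⟨A, hAξ⟩ := exists_nat_ge (∑ i, |ξ i|)
  have hAi : ∀ i, |ξ i| ≤ A := fun i =>
    (Finset.single_le_sum (f := fun i => |ξ i|) (fun _ _ => abs_nonneg _)
      (Finset.mem_univ i)).trans hAξ
  -- the small quantity
  have ht : Tendsto (fun j : ℕ => ((2 : ℝ) ^ j) ^ (-η')) atTop (nhds 0) := by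
    have h3 : Tendsto (fun j : ℕ => ((2 : ℝ) ^ (-η')) ^ j) atTop (nhds 0) := by
      refine tendsto_pow_atTop_nhds_zero_of_lt_one (by positivity) ?_
      exact Real.rpow_lt_one_of_one_lt_of_neg (by norm_num) (by linarith)
    refine h3.congr fun j => ?_
    rw [← Real.rpow_natCast, ← Real.rpow_natCast, ← Real.rpow_mul (by norm_num), mul_comm,
      Real.rpow_mul (by norm_num)]
  have e1 : ∀ᶠ j : ℕ in atTop, ∀ i, ((2 : ℝ) ^ j) ^ (-η') < |ξ i| :=
    Filter.eventually_all.2 fun i => ht.eventually_lt_const (abs_pos.2 (hgen.1 i))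
  have e2 : ∀ᶠ j : ℕ in atTop, (k : ℝ) * ((2 : ℝ) ^ j) ^ (-η') < |1 + ∑ i, ξ i| := by
    have h3 := ht.const_mul (k : ℝ)
    rw [mul_zero] at h3
    exact h3.eventually_lt_const (abs_pos.2 hgen.2)
  have e3 : ∀ᶠ j : ℕ in atTop, ((2 : ℝ) ^ j) ^ (-η') < 1 :=
    ht.eventually_lt_const one_pos
  filter_upwards [hξ N A, e1, e2, e3] with j hj hj1 hj2 hj3
  intro e hQ z hz hdiv hz0
  by_contra hcon
  push Not at hcon
  set H : ℝ := (2 : ℝ) ^ j with hH
  have hH1 : 1 ≤ H := one_le_pow₀ (by norm_num)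
  have hH0 : 0 < H := by linarith
  set Q : ℝ := ((∏ i, (b i) ^ (e i) : ℕ) : ℝ) with hQdef
  have hQ0 : 0 ≤ Q := Nat.cast_nonneg _
  have hroot0 : 0 ≤ (Q / H) ^ (1 / (k : ℝ)) := by positivity
  have hroot1 : (Q / H) ^ (1 / (k : ℝ)) ≤ 1 :=
    Real.rpow_le_one (by positivity) ((div_le_one hH0).2 hQ) (by positivity)
  have hηη : H ^ (-η) ≤ H ^ (-η') := Real.rpow_le_rpow_of_exponent_le hH1 (by linarith)
  have hρ1 : H ^ (-η) * (Q / H) ^ (1 / (k : ℝ)) ≤ H ^ (-η') * (Q / H) ^ (1 / (k : ℝ)) :=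
    mul_le_mul_of_nonneg_right hηη hroot0
  have hε0 : 0 < H ^ (-η') := by positivity
  have hρ2 : H ^ (-η') * (Q / H) ^ (1 / (k : ℝ)) ≤ H ^ (-η') :=
    mul_le_of_le_one_right hε0.le hroot1
  have hnear : ∀ i : Fin k, |(z 0 : ℝ) * ξ i - z i.succ| ≤ H ^ (-η') := fun i =>
    (hcon i).trans (hρ1.trans hρ2)
  -- `z 0 ≠ 0`
  have hz00 : z 0 ≠ 0 := by
    intro h0
    apply hz
    funext l
    refine Fin.cases h0 (fun i => ?_) l
    have h3 := hnear i
    rw [h0] at h3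
    simp only [Int.cast_zero, zero_mul, zero_sub, abs_neg] at h3
    have h4 : |(z i.succ : ℝ)| < 1 := lt_of_le_of_lt h3 hj3
    have h5 : |z i.succ| < 1 := by exact_mod_cast h4
    exact Int.abs_lt_one_iff.1 h5
  have hz1 : (1 : ℝ) ≤ |(z 0 : ℝ)| := by
    have : 1 ≤ |z 0| := Int.one_le_abs hz00
    exact_mod_cast this
  have hzp : (0 : ℝ) < |(z 0 : ℝ)| := by linarith
  -- the vector `x`
  set x : Fin (k + 2) → ℤ := fun i => ∑ l, PP (k + 1) i l * z l with hx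
  have hxc : ∀ l : Fin (k + 1), x l.castSucc = z l := by
    intro l
    rw [hx]
    simp only [PP]
    rw [Finset.sum_eq_single l]
    · rw [if_neg (Fin.castSucc_lt_last l).ne, if_pos rfl, one_mul]
    · intro l' _ hl'
      rw [if_neg (Fin.castSucc_lt_last l).ne, if_neg (fun h => hl' (Fin.castSucc_injective _ h).symm),
        zero_mul]
    · simp
  have hxl : x (Fin.last (k + 1)) = -∑ l, z l := by
    rw [hx]
    simp only [PP, if_true, neg_mul, one_mul, Finset.sum_neg_distrib]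
  have hx0 : x 0 = z 0 := hxc 0
  have hsum : ∑ i, x i = 0 := by
    rw [Fin.sum_univ_castSucc, hxl, Finset.sum_congr rfl fun l _ => hxc l]
    ring
  -- bounds
  have hb1 : ∀ i : Fin k, |(z i.succ : ℝ)| ≤ ((A : ℝ) + 1) * |(z 0 : ℝ)| := by
    intro i
    have h3 : (z i.succ : ℝ) = (z 0 : ℝ) * ξ i - ((z 0 : ℝ) * ξ i - z i.succ) := by ring
    rw [h3]
    refine (abs_sub _ _).trans ?_
    rw [abs_mul]
    have h4 := hAi i
    have h5 := hnear i
    have h6 : |(z 0 : ℝ)| * |ξ i| ≤ |(z 0 : ℝ)| * A := mul_le_mul_of_nonneg_left h4 hzp.le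
    nlinarith
  have hA0 : (0 : ℝ) ≤ A := Nat.cast_nonneg A
  have hk1 : (1 : ℝ) ≤ k := by exact_mod_cast (by omega : 1 ≤ k)
  have hA'1 : (1 : ℝ) ≤ 1 + (k : ℝ) * ((A : ℝ) + 1) := by
    have : (0 : ℝ) ≤ (k : ℝ) * ((A : ℝ) + 1) := by positivity
    linarith
  have hbc : ∀ l : Fin (k + 1), |(z l : ℝ)| ≤ (1 + (k : ℝ) * ((A : ℝ) + 1)) * |(z 0 : ℝ)| := by
    intro l
    refine Fin.cases ?_ (fun i => ?_) l
    · exact le_mul_of_one_le_left hzp.le hA'1
    · refine (hb1 i).trans (mul_le_mul_of_nonneg_right ?_ hzp.le)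
      nlinarith
  have hbl : |((∑ l, z l : ℤ) : ℝ)| ≤ (1 + (k : ℝ) * ((A : ℝ) + 1)) * |(z 0 : ℝ)| := by
    rw [Fin.sum_univ_succ]
    push_cast
    refine (abs_add_le _ _).trans ?_
    have h3 : |∑ i : Fin k, (z i.succ : ℝ)| ≤ (k : ℝ) * (((A : ℝ) + 1) * |(z 0 : ℝ)|) := by
      refine (Finset.abs_sum_le_sum_abs _ _).trans ?_
      refine (Finset.sum_le_sum fun i _ => hb1 i).trans ?_
      rw [Finset.sum_const, Finset.card_univ, Fintype.card_fin, nsmul_eq_mul]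
    linarith
  have hnc : ∀ l : Fin (k + 1), z l ≠ 0 := by
    intro l
    refine Fin.cases hz00 (fun i => ?_) l
    intro h0
    have h3 := hnear i
    rw [h0, Int.cast_zero, sub_zero, abs_mul] at h3
    have h4 := hj1 i
    have h5 : 1 * |ξ i| ≤ |(z 0 : ℝ)| * |ξ i| := mul_le_mul_of_nonneg_right hz1 (abs_nonneg _)
    linarith
  have hnl : ∑ l, z l ≠ 0 := by
    intro h0
    have h3 : (z 0 : ℝ) * (1 + ∑ i, ξ i) = ∑ i : Fin k, ((z 0 : ℝ) * ξ i - z i.succ) := by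
      have h4 : (((∑ l, z l : ℤ)) : ℝ) = 0 := by rw [h0, Int.cast_zero]
      rw [Fin.sum_univ_succ] at h4
      push_cast at h4
      rw [Finset.sum_sub_distrib, ← Finset.mul_sum]
      linarith
    have h5 : |(z 0 : ℝ) * (1 + ∑ i, ξ i)| ≤ (k : ℝ) * H ^ (-η') := by
      rw [h3]
      refine (Finset.abs_sum_le_sum_abs _ _).trans ((Finset.sum_le_sum fun i _ => hnear i).trans ?_)
      rw [Finset.sum_const, Finset.card_univ, Fintype.card_fin, nsmul_eq_mul]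
    rw [abs_mul] at h5
    have h6 : 1 * |1 + ∑ i, ξ i| ≤ |(z 0 : ℝ)| * |1 + ∑ i, ξ i| :=
      mul_le_mul_of_nonneg_right hz1 (abs_nonneg _)
    linarith
  -- membership
  have hmem : (e, x) ∈ F b (1 + (k : ℝ) * ((A : ℝ) + 1)) j := by
    refine ⟨hQ, hsum, fun i => ?_, ?_⟩
    · refine ⟨?_, hdiv i, ?_⟩
      · refine Fin.lastCases ?_ (fun l => ?_) i
        · change x (Fin.last (k + 1)) ≠ 0
          rw [hxl]; exact neg_ne_zero.2 hnl
        · change x l.castSucc ≠ 0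
          rw [hxc]; exact hnc l
      · change |((x i : ℤ) : ℝ)| ≤ _ * |((x 0 : ℤ) : ℝ)|
        rw [hx0]
        refine Fin.lastCases ?_ (fun l => ?_) i
        · rw [hxl]; push_cast
          rw [abs_neg]
          have := hbl
          push_cast at this
          exact this
        · rw [hxc]; exact hbc l
    · change |((x 0 : ℤ) : ℝ)| ≤ 2 ^ j
      rw [hx0]
      refine hz0.trans ?_
      have h3 : H ^ (1 - η) ≤ H ^ (1 : ℝ) := Real.rpow_le_rpow_of_exponent_le hH1 (by linarith)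
      rwa [Real.rpow_one] at h3
  refine hj (e, x) hmem fun i => ?_
  change |ξ i - ((x i.succ.castSucc : ℤ) : ℝ) / ((x 0 : ℤ) : ℝ)| ≤ _
  rw [hxc, hx0]
  have hz0r : (z 0 : ℝ) ≠ 0 := by exact_mod_cast hz00
  have h3 : ξ i - (z i.succ : ℝ) / (z 0 : ℝ) = ((z 0 : ℝ) * ξ i - z i.succ) / (z 0 : ℝ) := by
    field_simp
  rw [h3, abs_div]
  unfold r
  change _ ≤ (H ^ (-η') * (Q / H) ^ (1 / (k : ℝ))) / |((x 0 : ℤ) : ℝ)|
  rw [hx0]
  exact div_le_div_of_nonneg_right ((hcon i).trans hρ1) (abs_nonneg _)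

end Pool.Agent.H65NT
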