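import Pool.Agent.H65NT.Stm2
import Pool.Agent.H65NT.Nec

/-!
# Piece UP: upper bound for the dimension (helper75)
-/

set_option autoImplicit false

namespace Pool.Agent.H65NT.Up

open Finset Filter MeasureTheory Nec
open scoped ENNReal

/-- the tuples in the block `j` -/
def Gj (k : ℕ) (c B s : ℝ) (j : ℕ) : Set (Fin (k + 2) → ℤ) :=
  {x | ∑ i, x i = 0 ∧ (∀ i j, i ≠ j → IsCoprime (x i) (x j)) ∧
    (∀ i, c * (x 0 : ℝ) ≤ |(x i : ℝ)| ∧ |(x i : ℝ)| ≤ B * (x 0 : ℝ)) ∧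
    (2 : ℝ) ^ j ≤ x 0 ∧ (x 0 : ℝ) < 2 ^ (j + 1) ∧
    ∏ i, (R (x i).natAbs : ℝ) ≤ (x 0 : ℝ) ^ s}

theorem block (h2 : S_CNT) (k : ℕ) (hk : 2 ≤ k) (c B t s η : ℝ) (hc : 0 < c) (hB : 1 ≤ B)
    (ht : 1 < t) (hs : (k : ℝ) + 1 ≤ s) (hη0 : 0 < η) : ∃ u : ℕ → ℝ, Summable u ∧
      ∀ j (E : Finset (Fin (k + 2) → ℤ)),
      (∀ x ∈ E, x ∈ Gj k c B s j) → ∑ x ∈ E, ((x 0 : ℝ) ^ (-t)) ^ ((s - 1 + 2 * η) / t) ≤ u j := by
  have hk0 : (0 : ℝ) < k := by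
    have : (2 : ℝ) ≤ k := by exact_mod_cast hk
    linarith
  obtain ⟨C, hC, hcnt⟩ := h2 k hk η hη0
  obtain ⟨e, he⟩ : ∃ e : ℝ, e = k + 2 - s := ⟨_, rfl⟩
  obtain ⟨K, hK⟩ : ∃ K : ℝ, K = C * (2 * B) ^ η * ((2 * B) ^ k +
    (2 * B) ^ (k + 1) / (c ^ (k + 2) * 2 ^ (-|e|))) := ⟨_, rfl⟩
  have hlt : (2 : ℝ) ^ (-η) < 1 := Real.rpow_lt_one_of_one_lt_of_neg (by norm_num) (by linarith)
  refine ⟨fun j => K * ((2 : ℝ) ^ (-η)) ^ j,
    (summable_geometric_of_lt_one (by positivity) hlt).mul_left K, ?_⟩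
  intro j E hE
  obtain ⟨T, hT⟩ : ∃ T : ℝ, T = 2 ^ j := ⟨_, rfl⟩
  have hT1 : 1 ≤ T := by
    rw [hT]
    exact one_le_pow₀ (by norm_num)
  have hT0 : 0 < T := by linarith
  have h2c : (0 : ℝ) < 2 ^ (-|e|) := by positivity
  have hTe : 0 < T ^ e := Real.rpow_pos_of_pos hT0 _
  have hx : ∀ x ∈ E, T ≤ (x 0 : ℝ) ∧ (x 0 : ℝ) < 2 * T := by
    intro x hx
    obtain ⟨-, -, -, h4, h5, -⟩ := hE x hx
    rw [hT]
    refine ⟨h4, ?_⟩
    rw [pow_succ] at h5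
    linarith
  have hcard : (E.card : ℝ) ≤ C * (2 * B * T) ^ η * ((2 * B * T) ^ k +
      (2 * B * T) ^ (k + 1) / (c ^ (k + 2) * (T ^ e * 2 ^ (-|e|)))) := by
    refine hcnt (2 * B * T) (c ^ (k + 2) * (T ^ e * 2 ^ (-|e|))) (by nlinarith) (by positivity) E ?_
    intro x hxE
    obtain ⟨h1, h2, h3, h4, h5, h6⟩ := hE x hxE
    obtain ⟨h7, h8⟩ := hx x hxE
    have hX0 : (0 : ℝ) < x 0 := by linarith
    refine ⟨h1, h2, fun i => ⟨?_, ?_⟩, ?_⟩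
    · intro h0
      have := (h3 i).1
      rw [h0] at this
      simp only [Int.cast_zero, abs_zero] at this
      nlinarith [mul_pos hc hX0]
    · refine (h3 i).2.trans ?_
      nlinarith
    · have h9 : (c * (x 0 : ℝ)) ^ (k + 2) ≤ ∏ i, |(x i : ℝ)| := by
        have : ∏ _i : Fin (k + 2), (c * (x 0 : ℝ)) ≤ ∏ i, |(x i : ℝ)| :=
          Finset.prod_le_prod (fun i _ => by positivity) fun i _ => (h3 i).1
        rwa [Finset.prod_const, Finset.card_univ, Fintype.card_fin] at this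
      refine le_trans ?_ h9
      have h10 := pow_low (e := e) hT1 h7 h8
      have h11 : (x 0 : ℝ) ^ e * (x 0 : ℝ) ^ s = (x 0 : ℝ) ^ (k + 2) := by
        rw [← Real.rpow_add hX0, ← Real.rpow_natCast]
        congr 1
        rw [he]
        push_cast
        ring
      calc c ^ (k + 2) * (T ^ e * 2 ^ (-|e|)) * ∏ i, (R (x i).natAbs : ℝ)
          ≤ c ^ (k + 2) * ((x 0 : ℝ) ^ e) * (x 0 : ℝ) ^ s := by
            refine mul_le_mul (mul_le_mul_of_nonneg_left h10 (by positivity)) h6 ?_ (by positivity)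
            exact Finset.prod_nonneg fun i _ => Nat.cast_nonneg _
        _ = (c * (x 0 : ℝ)) ^ (k + 2) := by
            rw [mul_assoc, h11, mul_pow]
  obtain ⟨d, hd⟩ : ∃ d : ℝ, d = (s - 1 + 2 * η) / t := ⟨_, rfl⟩
  have hd0 : 0 ≤ d := by
    rw [hd]
    exact div_nonneg (by linarith) (by linarith)
  have hdt : t * d = s - 1 + 2 * η := by
    rw [hd]
    field_simp
  rw [← hd]
  have hterm : ∀ x ∈ E, ((x 0 : ℝ) ^ (-t)) ^ d ≤ T ^ (-(t * d)) := by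
    intro x hxE
    obtain ⟨h7, h8⟩ := hx x hxE
    have hX0 : (0 : ℝ) < x 0 := by linarith
    rw [← Real.rpow_mul hX0.le, neg_mul]
    refine Real.rpow_le_rpow_of_nonpos hT0 h7 ?_
    have : 0 ≤ t * d := mul_nonneg (by linarith) hd0
    linarith
  have hsum : ∑ x ∈ E, ((x 0 : ℝ) ^ (-t)) ^ d ≤ E.card * T ^ (-(t * d)) := by
    rw [← nsmul_eq_mul]
    exact Finset.sum_le_card_nsmul _ _ _ hterm
  refine hsum.trans ?_
  have hTη : ((2 : ℝ) ^ (-η)) ^ j = T ^ (-η) := by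
    rw [hT, ← Real.rpow_natCast, ← Real.rpow_natCast, ← Real.rpow_mul (by norm_num),
      ← Real.rpow_mul (by norm_num)]
    congr 1
    ring
  show _ ≤ K * ((2 : ℝ) ^ (-η)) ^ j
  rw [hTη]
  have h2B : 0 < 2 * B := by linarith
  have e1 : (2 * B * T) ^ η = (2 * B) ^ η * T ^ η := Real.mul_rpow h2B.le hT0.le
  have e2 : (2 * B * T) ^ k = (2 * B) ^ k * T ^ (k : ℝ) := by
    rw [mul_pow, Real.rpow_natCast]
  have e3 : (2 * B * T) ^ (k + 1) = (2 * B) ^ (k + 1) * T ^ ((k : ℝ) + 1) := by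
    rw [mul_pow]
    congr 1
    rw [← Real.rpow_natCast]
    push_cast
    rfl
  have hP : 0 < T ^ (-(t * d)) := Real.rpow_pos_of_pos hT0 _
  calc (E.card : ℝ) * T ^ (-(t * d))
      ≤ (C * (2 * B * T) ^ η * ((2 * B * T) ^ k +
        (2 * B * T) ^ (k + 1) / (c ^ (k + 2) * (T ^ e * 2 ^ (-|e|))))) * T ^ (-(t * d)) :=
        mul_le_mul_of_nonneg_right hcard hP.le
    _ = C * (2 * B) ^ η * ((2 * B) ^ k * (T ^ η * T ^ (k : ℝ) * T ^ (-(t * d))) +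
        (2 * B) ^ (k + 1) / (c ^ (k + 2) * 2 ^ (-|e|)) *
          (T ^ η * T ^ ((k : ℝ) + 1) * (T ^ e)⁻¹ * T ^ (-(t * d)))) := by
        rw [e1, e2, e3]
        field_simp
    _ ≤ C * (2 * B) ^ η * ((2 * B) ^ k * T ^ (-η) +
        (2 * B) ^ (k + 1) / (c ^ (k + 2) * 2 ^ (-|e|)) * T ^ (-η)) := by
        refine mul_le_mul_of_nonneg_left (add_le_add (mul_le_mul_of_nonneg_left ?_ (by positivity))
          (mul_le_mul_of_nonneg_left ?_ (by positivity))) (by positivity)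
        · rw [← Real.rpow_add hT0, ← Real.rpow_add hT0]
          refine Real.rpow_le_rpow_of_exponent_le hT1 ?_
          linarith
        · rw [← Real.rpow_neg hT0.le, ← Real.rpow_add hT0, ← Real.rpow_add hT0,
            ← Real.rpow_add hT0]
          refine Real.rpow_le_rpow_of_exponent_le hT1 ?_
          rw [he]
          linarith
    _ = K * T ^ (-η) := by
        rw [hK]
        ring

end Pool.Agent.H65NT.Up

namespace Pool.Agent.H65NT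

open Finset Filter MeasureTheory Nec Up
open scoped ENNReal

/-- the tuples near `ξ` with small radicals -/
def Tup (k : ℕ) (t s : ℝ) (ξ : Fin k → ℝ) : Set (Fin (k + 2) → ℤ) :=
  {x : Fin (k + 2) → ℤ | ∑ i, x i = 0 ∧
      (∀ i j, i ≠ j → IsCoprime (x i) (x j)) ∧ (∀ i, x i ≠ 0) ∧ Near ξ t x ∧
      ∏ i, (R (x i).natAbs : ℝ) ≤ (x 0 : ℝ) ^ s}

/-- constants for `ξ` -/
def Cst (k : ℕ) (A : ℕ) (ξ : Fin k → ℝ) : Prop :=
  (1 : ℝ) ≤ A ∧ (∀ i, |ξ i| ≤ A) ∧ (∀ i, 1 / (A : ℝ) ≤ |ξ i|) ∧ 1 / (A : ℝ) ≤ |1 + ∑ i, ξ i|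

theorem exists_cst {k : ℕ} (ξ : Fin k → ℝ) (hξ0 : ∀ i, ξ i ≠ 0) (hξs' : 1 + ∑ i, ξ i ≠ 0) :
    ∃ A, Cst k A ξ := by
  obtain ⟨A, hA⟩ := exists_nat_ge (∑ i, (|ξ i| + 1 / |ξ i|) + 1 / |1 + ∑ i, ξ i| + 1)
  have hp : ∀ i, 0 ≤ |ξ i| + 1 / |ξ i| := fun i => by positivity
  have hp2 : 0 ≤ 1 / |1 + ∑ i, ξ i| := by positivity
  have hS0 : 0 ≤ ∑ i, (|ξ i| + 1 / |ξ i|) := Finset.sum_nonneg fun i _ => hp i
  have hA1 : (1 : ℝ) ≤ A := by linarith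
  have hAi : ∀ i, |ξ i| + 1 / |ξ i| ≤ A := by
    intro i
    have := Finset.single_le_sum (f := fun i => |ξ i| + 1 / |ξ i|) (fun i _ => hp i)
      (Finset.mem_univ i)
    linarith
  have hinv : ∀ y : ℝ, y ≠ 0 → 1 / |y| ≤ A → 1 / (A : ℝ) ≤ |y| := by
    intro y hy h
    have hy' : 0 < |y| := abs_pos.2 hy
    rw [div_le_iff₀ (by linarith)]
    rw [div_le_iff₀ hy'] at h
    linarith
  refine ⟨A, hA1, fun i => ?_, fun i => ?_, hinv _ hξs' (by linarith)⟩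
  · have : 0 ≤ 1 / |ξ i| := by positivity
    linarith [hAi i]
  · refine hinv _ (hξ0 i) ?_
    linarith [hAi i, abs_nonneg (ξ i)]

/-- there are tuples with large `x 0` -/
theorem exists_large {k : ℕ} {t s : ℝ} (ht : 1 < t) {ξ : Fin k → ℝ} (h : (Tup k t s ξ).Infinite) (X0 : ℝ) :
    ∃ x ∈ Tup k t s ξ, X0 < x 0 := by
  by_contra hcon
  push Not at hcon
  refine h ((finite_box (k + 2) ((k * ((∑ i, |ξ i| + 1) + 1) + 1) * X0)).subset ?_)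
  intro x hx
  have hx' := hcon x hx
  obtain ⟨hs, -, -, ⟨hxp, hnear⟩, -⟩ := hx
  have hX1 : (1 : ℝ) ≤ x 0 := by exact_mod_cast hxp
  have hsn : 0 ≤ ∑ i, |ξ i| := Finset.sum_nonneg fun i _ => abs_nonneg _
  have hτ1 : (x 0 : ℝ) ^ (-t) ≤ 1 := Real.rpow_le_one_of_one_le_of_nonpos hX1 (by linarith)
  have hB := bounds ξ (∑ i, |ξ i| + 1) (by linarith) (fun i => by
    have := Finset.single_le_sum (f := fun i => |ξ i|) (fun i _ => abs_nonneg _) (Finset.mem_univ i)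
    linarith) x hs hX1 _ hτ1 hnear
  have hBpos : (0 : ℝ) ≤ k * ((∑ i, |ξ i| + 1) + 1) + 1 := by positivity
  exact fun i => (hB i).trans (mul_le_mul_of_nonneg_left hx' hBpos)

theorem nonzero {k : ℕ} {t s : ℝ} (ht : 1 < t) {ξ : Fin k → ℝ} (h : (Tup k t s ξ).Infinite) :
    (∀ i, ξ i ≠ 0) ∧ 1 + ∑ i, ξ i ≠ 0 := by
  have h1 : Tendsto (fun X : ℝ => ((k : ℝ) + 1) * X ^ (-(t - 1))) atTop (nhds (((k : ℝ) + 1) * 0)) :=
    (tendsto_rpow_neg_atTop (by linarith)).const_mul _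
  rw [mul_zero] at h1
  obtain ⟨X1, hX1⟩ := Filter.eventually_atTop.1 (h1.eventually_lt_const one_pos)
  obtain ⟨x, ⟨hs, -, hx0, ⟨hxp, hnear⟩, -⟩, hx⟩ := exists_large ht h (max X1 1)
  have hX : (1 : ℝ) < x 0 := (le_max_right _ _).trans_lt hx
  have hXp : (0 : ℝ) < x 0 := by linarith
  have h2 := hX1 (x 0) ((le_max_left _ _).trans hx.le)
  have h3 : (x 0 : ℝ) ^ (-(t - 1)) = x 0 * (x 0 : ℝ) ^ (-t) := by
    rw [show -(t - 1) = 1 + -t by ring, Real.rpow_add hXp, Real.rpow_one]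
  rw [h3] at h2
  have h4 : ∀ i, (1 : ℝ) ≤ |(x i : ℝ)| := by
    intro i
    have := Int.one_le_abs (hx0 i)
    exact_mod_cast this
  have hpos : 0 ≤ (x 0 : ℝ) * (x 0 : ℝ) ^ (-t) := mul_nonneg hXp.le (Real.rpow_nonneg hXp.le _)
  have hk : (0 : ℝ) ≤ k := Nat.cast_nonneg _
  constructor
  · intro i hi
    have h5 := hnear i
    rw [hi, zero_sub, abs_neg, abs_div, abs_of_pos hXp, div_le_iff₀ hXp] at h5
    have h6 := h4 i.succ.castSucc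
    nlinarith
  · intro hsum
    have h1 : (x (Fin.last (k + 1)) : ℝ) / x 0 =
        -(1 + ∑ i : Fin k, (x i.succ.castSucc : ℝ) / (x 0 : ℝ)) := by
      rw [last_eq x hs, ← Finset.sum_div]
      field_simp
    have h2 : |(1 + ∑ i, ξ i) - (1 + ∑ i : Fin k, (x i.succ.castSucc : ℝ) / (x 0 : ℝ))| ≤
        k * (x 0 : ℝ) ^ (-t) := by
      have h3 : (1 + ∑ i, ξ i) - (1 + ∑ i : Fin k, (x i.succ.castSucc : ℝ) / (x 0 : ℝ)) =
          ∑ i : Fin k, (ξ i - (x i.succ.castSucc : ℝ) / (x 0 : ℝ)) := by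
        rw [Finset.sum_sub_distrib]
        ring
      rw [h3]
      refine (Finset.abs_sum_le_sum_abs _ _).trans ?_
      refine (Finset.sum_le_card_nsmul _ _ _ fun i _ => hnear i).trans ?_
      rw [Finset.card_univ, Fintype.card_fin, nsmul_eq_mul]
    rw [hsum, zero_sub, ← h1, abs_div, abs_of_pos hXp, div_le_iff₀ hXp] at h2
    have h6 := h4 (Fin.last (k + 1))
    nlinarith

theorem up (h1 : S_HBC) (h2 : S_CNT) : S_UP := by
  intro k hk t s ht hs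
  have hk1 : 1 ≤ k := by omega
  have hk0 : (0 : ℝ) < k := by exact_mod_cast hk1
  show dimH {ξ : Fin k → ℝ | (Tup k t s ξ).Infinite} ≤ ENNReal.ofReal ((s - 1) / t)
  have hsub : {ξ : Fin k → ℝ | (Tup k t s ξ).Infinite} ⊆
      ⋃ A : ℕ, {ξ : Fin k → ℝ | Cst k A ξ ∧ (Tup k t s ξ).Infinite} := by
    intro ξ hξ
    obtain ⟨h3, h4⟩ := nonzero ht hξ
    obtain ⟨A, hA⟩ := exists_cst ξ h3 h4
    exact Set.mem_iUnion.2 ⟨A, hA, hξ⟩
  refine (dimH_mono hsub).trans ?_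
  rw [dimH_iUnion]
  refine iSup_le fun A => ?_
  refine ENNReal.le_of_forall_pos_le_add fun ε hε _ => ?_
  have hε' : (0 : ℝ) < ε := by exact_mod_cast hε
  have ht0 : 0 < t := by linarith
  by_cases hA1 : 1 ≤ A
  swap
  · have : {ξ : Fin k → ℝ | Cst k A ξ ∧ (Tup k t s ξ).Infinite} = ∅ := by
      ext ξ
      simp only [Set.mem_ofPred_eq, Set.mem_empty_iff_false, iff_false]
      rintro ⟨h, -⟩
      exact hA1 (by exact_mod_cast h.1)
    rw [this, dimH_empty]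
    exact zero_le
  have hA1r : (1 : ℝ) ≤ A := by exact_mod_cast hA1
  obtain ⟨u, hu, hu'⟩ := block h2 k hk (1 / (2 * A)) (k * (A + 1) + 1) t s (ε * t / 2) (by positivity)
    (by nlinarith) ht hs (by positivity)
  have hd : (s - 1 + 2 * (ε * t / 2)) / t = (s - 1) / t + ε := by
    field_simp
  rw [hd] at hu'
  have hd0 : 0 ≤ (s - 1) / t := div_nonneg (by linarith) ht0.le
  have h3 := h1 k (Fin (k + 2) → ℤ) (fun j => Gj k (1 / (2 * A)) (k * (A + 1) + 1) s j)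
    (fun _ x i => (x i.succ.castSucc : ℝ) / (x 0 : ℝ)) (fun _ x => (x 0 : ℝ) ^ (-t)) u
    ((s - 1) / t + ε) (by linarith) hu
    (fun j x hx => Real.rpow_nonneg ((pow_nonneg (by norm_num) j).trans hx.2.2.2.1) _) hu'
  rw [ENNReal.ofReal_add hd0 hε'.le, ENNReal.ofReal_coe_nnreal] at h3
  refine (dimH_mono ?_).trans h3
  rintro ξ ⟨⟨-, hAu, hAl, hAs⟩, hinf⟩
  refine Filter.frequently_atTop.2 fun j0 => ?_
  obtain ⟨x, ⟨hs', hco, hx0, ⟨hxp, hnear⟩, hprod⟩, hbig⟩ :=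
    exists_large ht hinf (max ((2 : ℝ) ^ (j0 + 1)) (2 * (A : ℝ) * (k : ℝ)))
  have hX1 : (1 : ℝ) ≤ x 0 := by exact_mod_cast hxp
  have hXp : (0 : ℝ) < x 0 := by linarith
  have hτ1 : (x 0 : ℝ) ^ (-t) ≤ (x 0 : ℝ)⁻¹ := by
    rw [← Real.rpow_neg_one]
    exact Real.rpow_le_rpow_of_exponent_le hX1 (by linarith)
  have hτ1' : (x 0 : ℝ)⁻¹ ≤ 1 := inv_le_one_of_one_le₀ hX1
  have hB := bounds ξ A hA1r hAu x hs' hX1 _ (hτ1.trans hτ1') hnear
  have hb1 : (2 : ℝ) ^ (j0 + 1) < x 0 := (le_max_left _ _).trans_lt hbig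
  have hb2 : 2 * A * k < (x 0 : ℝ) := (le_max_right _ _).trans_lt hbig
  have hτ2 : k * (x 0 : ℝ) ^ (-t) ≤ 1 / (2 * A) := by
    have h3 : (k : ℝ) * (x 0 : ℝ) ^ (-t) ≤ k * (x 0 : ℝ)⁻¹ :=
      mul_le_mul_of_nonneg_left hτ1 hk0.le
    refine h3.trans ?_
    rw [← div_eq_mul_inv, div_le_div_iff₀ hXp (by positivity)]
    linarith
  have hL := lower hk1 ξ A hA1r hAl hAs x hs' hX1 _ (Real.rpow_nonneg hXp.le _) hτ2 hnear
  -- the block of `x`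
  obtain ⟨m, hm⟩ : ∃ m : ℕ, (x 0) = m := ⟨(x 0).toNat, (Int.toNat_of_nonneg hxp.le).symm⟩
  have hm0 : m ≠ 0 := by
    rintro rfl
    rw [hm] at hxp
    exact absurd hxp (by norm_num)
  have hmr : (x 0 : ℝ) = m := by rw [hm]; push_cast; rfl
  have hj1 : (2 : ℝ) ^ (Nat.log 2 m) ≤ x 0 := by
    rw [hmr]
    exact_mod_cast Nat.pow_log_le_self 2 hm0
  have hj2 : (x 0 : ℝ) < 2 ^ (Nat.log 2 m + 1) := by
    rw [hmr]
    exact_mod_cast Nat.lt_pow_succ_log_self (by norm_num) m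
  have hj3 : j0 ≤ Nat.log 2 m := by
    by_contra hcon
    push Not at hcon
    have h3 : (2 : ℝ) ^ (Nat.log 2 m + 1) ≤ 2 ^ (j0 + 1) :=
      pow_le_pow_right₀ (by norm_num) (by omega)
    linarith
  exact ⟨Nat.log 2 m, hj3, x, ⟨hs', hco, fun i => ⟨hL i, hB i⟩, hj1, hj2, hprod⟩, hnear⟩

end Pool.Agent.H65NT
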